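import Mathlib

set_option autoImplicit false

namespace Pool.Agent.H9.Bry

open Finset

section vec

variable (F : Type*) [Field F] {V : Type*} [AddCommGroup V] [Module F V]

/-- `u` is congruent to an element of `X` modulo the span of `Z`. -/
def MemMod (X Z : Set V) (u : V) : Prop := ∃ x ∈ X, u - x ∈ Submodule.span F Z

/-- Vector form of `no M(K₄)-minor`: there are no `Z ⊆ X` and `e, g, a` independent modulo
`span Z` such that `e, g, a, a + e, a + g, a + e + g` all lie in `X` modulo `span Z`. -/
def K4Free (X : Set V) : Prop :=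
  ∀ Z ⊆ X, ∀ e g a : V,
    (∀ c₁ c₂ c₃ : F, c₁ • e + c₂ • g + c₃ • a ∈ Submodule.span F Z →
      c₁ = 0 ∧ c₂ = 0 ∧ c₃ = 0) →
    MemMod F X Z e → MemMod F X Z g → MemMod F X Z a → MemMod F X Z (a + e) →
    MemMod F X Z (a + g) → MemMod F X Z (a + e + g) → False

/-- closed under multiplication by scalars -/
def IsCone (X : Set V) : Prop := ∀ c : F, ∀ x ∈ X, c • x ∈ X

/-- all multiples of the vectors `v y`, `y ∈ E` -/
def coneOf {α : Type*} (v : α → V) (E : Set α) : Set V := {x | ∃ c : F, ∃ y ∈ E, x = c • v y}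

/-- A fan: `b 0, …, b n, e` independent, all in `X`, with all prefix sums `b 0 + ⋯ + b j` in `X`
and `(b 0 + ⋯ + b n) - e ∈ X`. Independence is witnessed by the coordinate maps `φ, ε`. -/
structure PFan (X : Set V) (n : ℕ) where
  b : Fin (n + 1) → V
  e : V
  he : e ∈ X
  hb : ∀ j, b j ∈ X
  hs : ∀ j, ∑ l ∈ Finset.Iic j, b l ∈ X
  hlast : (∑ l, b l) - e ∈ X
  φ : V →ₗ[F] (Fin (n + 1) → F)
  ε : V →ₗ[F] F
  φb : ∀ j, φ (b j) = Pi.single j 1
  εb : ∀ j, ε (b j) = 0
  φe : φ e = 0
  εe : ε e = 1

end vec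

section fan

variable {F : Type*} [Field F] [Fintype F] {V : Type*} [AddCommGroup V] [Module F V]

variable (F) in
open Classical in
/-- the set of `θ` with `w + θ e ∈ X` -/
noncomputable def fibT (X : Set V) (e w : V) : Finset F :=
  Finset.univ.filter (fun θ : F => w + θ • e ∈ X)

/-- the vector with coordinates `a` with respect to `b` -/
def lc {m : ℕ} (b : Fin m → V) (a : Fin m → F) : V := ∑ j, a j • b j

end fan

/-- the density constant -/
def DC (q : ℕ) : ℕ := 1 + q.choose 2 + (q - 1) * (q - 1).choose 2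

/-- the density constant for large `q` -/
def DC2 (q : ℕ) : ℕ := 2 + q.choose 2 + 8 * (Nat.log 2 q + 4) * q.choose 2 / 7

section rows

variable {F : Type*} [Field F] {α : Type*} [DecidableEq α]

/-- restriction of a function to `Y` (zero outside) -/
def res (Y : Finset α) : (α → F) →ₗ[F] (α → F) where
  toFun f := fun y => if y ∈ Y then f y else 0
  map_add' f g := by ext y; by_cases h : y ∈ Y <;> simp [h]
  map_smul' c f := by ext y; by_cases h : y ∈ Y <;> simp [h]

/-- the row patterns on `Y`, all multiples, together with all multiples of the unit vectors -/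
def rowSet {ι : Type*} (f : ι → α → F) (Y : Finset α) : Set (α → F) :=
  {x | ∃ (c : F) (j : ι), x = c • res Y (f j)} ∪
    {x | ∃ (c : F), ∃ y ∈ Y, x = c • (Pi.single y (1 : F) : α → F)}

/-- the row system is `K₄`-free on `Q` -/
def RowFree {ι : Type*} (f : ι → α → F) (Q : Finset α) : Prop :=
  ∀ Y ⊆ Q, K4Free F (rowSet f Y)

end rows

section comb

variable {F : Type*} [Field F] [DecidableEq F] {α : Type*} [DecidableEq α]

/-- set coordinate `i` to zero -/
def zr (i : α) (g : α → F) : α → F := Function.update g i 0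

variable [Fintype α]

/-- projection of the family in direction `i` -/
def pr (i : α) (𝓖 : Finset (α → F)) : Finset (α → F) := 𝓖.image (zr i)

/-- the members of the projection in direction `i` whose fibre has at least two elements -/
def Dop (i : α) (𝓖 : Finset (α → F)) : Finset (α → F) :=
  (pr i 𝓖).filter (fun h => 2 ≤ (𝓖.filter (fun g => zr i g = h)).card)

/-- iterated `Dop` -/
def Dl : List α → Finset (α → F) → Finset (α → F)
  | [], 𝓖 => 𝓖
  | i :: l, 𝓖 => Dl l (Dop i 𝓖)

/-- `|𝓕|` minus the sum over the classes of `𝓕` on `Y` of the largest subclass when the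
coordinate `x` is added -/
def loss [Fintype F] (𝓕 : Finset (α → F)) (Y : Finset α) (x : α) : ℕ :=
  𝓕.card - ∑ h ∈ 𝓕.image (res Y), (Finset.univ : Finset F).sup
    (fun v => (𝓕.filter (fun f => res Y f = h ∧ f x = v)).card)

/-- the tree hypothesis -/
def TreeHyp (I : Finset α) (k : ℕ) (𝓖 : Finset (α → F)) : Prop :=
  ∀ S ⊆ I, ∀ l : List α, l.Nodup → (∀ i ∈ l, i ∈ I ∧ i ∉ S) →
    (Dl l (𝓖.image (fun g y => if y ∈ S then 0 else g y))).Nonempty → l.length ≤ k

end comb

end Pool.Agent.H9.Bry
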