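import Mathlib
import Pool.Agent.H9.Bry.Defs

set_option autoImplicit false

namespace Pool.Agent.H9.Bry

open Finset

theorem PK1_sep {α F : Type*} [Fintype F] [DecidableEq F] [Fintype α]
    [DecidableEq α] (C : Finset (α → F)) (x : α) :
    ((C ×ˢ C).filter (fun p => p.1 x ≠ p.2 x)).card ≤
      2 * (C.card - 1) *
        (C.card - (Finset.univ : Finset F).sup (fun v => (C.filter (fun f => f x = v)).card)) := by
  classical
  rcases C.eq_empty_or_nonempty with rfl | ⟨f0, hf0⟩
  · simp
  have hne : (Finset.univ : Finset F).Nonempty := ⟨f0 x, mem_univ _⟩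
  obtain ⟨v0, -, hv0⟩ := Finset.exists_mem_eq_sup _ hne
    (fun v => (C.filter (fun f => f x = v)).card)
  rw [hv0]
  have hcomp : C.card - (C.filter (fun f => f x = v0)).card =
      (C.filter (fun f => ¬ f x = v0)).card := by
    have := Finset.card_filter_add_card_filter_not (s := C) (fun f => f x = v0)
    omega
  rw [hcomp]
  set N := C.filter (fun f => ¬ f x = v0) with hN
  have hsub : (C ×ˢ C).filter (fun p => p.1 x ≠ p.2 x) ⊆
      (N.biUnion (fun f => (C.erase f).image (fun g => (f, g)))) ∪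
      (N.biUnion (fun f => (C.erase f).image (fun g => (g, f)))) := by
    rintro ⟨f, g⟩ h
    simp only [mem_filter, mem_product] at h
    obtain ⟨⟨hf, hg⟩, hfg⟩ := h
    have hne' : f ≠ g := by rintro rfl; exact hfg rfl
    by_cases h1 : f x = v0
    · have h2 : ¬ g x = v0 := by intro h2; exact hfg (h1.trans h2.symm)
      refine mem_union_right _ (mem_biUnion.2 ⟨g, by simp [hN, hg, h2], ?_⟩)
      exact mem_image.2 ⟨f, mem_erase.2 ⟨hne', hf⟩, rfl⟩
    · refine mem_union_left _ (mem_biUnion.2 ⟨f, by simp [hN, hf, h1], ?_⟩)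
      exact mem_image.2 ⟨g, mem_erase.2 ⟨hne'.symm, hg⟩, rfl⟩
  refine (card_le_card hsub).trans ((card_union_le _ _).trans ?_)
  have hA : (N.biUnion (fun f => (C.erase f).image (fun g => (f, g)))).card ≤
      N.card * (C.card - 1) := by
    refine card_biUnion_le_card_mul _ _ _ ?_
    intro f hf
    refine card_image_le.trans ?_
    rw [card_erase_of_mem (by simp [hN] at hf; exact hf.1)]
  have hB : (N.biUnion (fun f => (C.erase f).image (fun g => (g, f)))).card ≤
      N.card * (C.card - 1) := by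
    refine card_biUnion_le_card_mul _ _ _ ?_
    intro f hf
    refine card_image_le.trans ?_
    rw [card_erase_of_mem (by simp [hN] at hf; exact hf.1)]
  calc _ ≤ N.card * (C.card - 1) + N.card * (C.card - 1) := add_le_add hA hB
    _ = _ := by ring

theorem PK1_class {α F : Type*} [Fintype F] [DecidableEq F] [Fintype α]
    [DecidableEq α] (C : Finset (α → F)) (Q : Finset α) (d : ℕ)
    (hd : ∀ f ∈ C, ∀ g ∈ C, f ≠ g → d ≤ (Q.filter (fun y => f y ≠ g y)).card) :
    d * (C.card - 1) ≤ 2 * ∑ x ∈ Q,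
      (C.card - (Finset.univ : Finset F).sup (fun v => (C.filter (fun f => f x = v)).card)) := by
  classical
  rcases Nat.lt_or_ge 1 C.card with hb | hb
  swap
  · have : C.card - 1 = 0 := by omega
    rw [this]; simp
  have h1 : d * (C.card * (C.card - 1)) ≤
      ∑ x ∈ Q, ((C ×ˢ C).filter (fun p => p.1 x ≠ p.2 x)).card := by
    have e1 : ∑ x ∈ Q, ((C ×ˢ C).filter (fun p => p.1 x ≠ p.2 x)).card =
        ∑ p ∈ C ×ˢ C, (Q.filter (fun y => p.1 y ≠ p.2 y)).card := by
      simp only [card_filter]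
      rw [sum_comm]
    rw [e1]
    have e2 : ∑ p ∈ C.offDiag, d ≤ ∑ p ∈ C ×ˢ C, (Q.filter (fun y => p.1 y ≠ p.2 y)).card := by
      refine (sum_le_sum (g := fun p => (Q.filter (fun y => p.1 y ≠ p.2 y)).card) ?_).trans
        (sum_le_sum_of_subset ?_)
      · intro p hp
        rw [mem_offDiag] at hp
        exact hd _ hp.1 _ hp.2.1 hp.2.2
      · intro p hp
        rw [mem_offDiag] at hp
        exact mem_product.2 ⟨hp.1, hp.2.1⟩
    rw [sum_const, offDiag_card, smul_eq_mul] at e2
    refine le_trans (le_of_eq ?_) e2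
    rw [Nat.mul_sub, mul_one, mul_comm]
  have h2 : ∑ x ∈ Q, ((C ×ˢ C).filter (fun p => p.1 x ≠ p.2 x)).card ≤
      2 * (C.card - 1) * ∑ x ∈ Q,
      (C.card - (Finset.univ : Finset F).sup (fun v => (C.filter (fun f => f x = v)).card)) := by
    rw [mul_sum]
    exact sum_le_sum fun x _ => PK1_sep C x
  have h3 := h1.trans h2
  have hpos : 0 < C.card - 1 := by omega
  have h4 : (C.card - 1) * (d * C.card) ≤ (C.card - 1) * (2 * ∑ x ∈ Q,
      (C.card - (Finset.univ : Finset F).sup
        (fun v => (C.filter (fun f => f x = v)).card))) := by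
    calc (C.card - 1) * (d * C.card) = d * (C.card * (C.card - 1)) := by ring
      _ ≤ _ := h3
      _ = _ := by ring
  have h5 := Nat.le_of_mul_le_mul_left h4 hpos
  refine le_trans ?_ h5
  exact Nat.mul_le_mul_left _ (Nat.sub_le _ _)

theorem loss_lower {α F : Type*} [Field F] [Fintype F] [DecidableEq F] [Fintype α]
    [DecidableEq α] (𝓕 : Finset (α → F)) (Q Y : Finset α) (d : ℕ)
    (hd : ∀ f ∈ 𝓕, ∀ g ∈ 𝓕, f ≠ g → d ≤ (Q.filter (fun y => f y ≠ g y)).card) :
    d * (𝓕.card - (𝓕.image (res Y)).card) ≤ 2 * ∑ x ∈ Q, loss 𝓕 Y x := by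
  classical
  have hcard : 𝓕.card = ∑ h ∈ 𝓕.image (res Y), (𝓕.filter (fun f => res Y f = h)).card :=
    card_eq_sum_card_image _ _
  have hle : ∀ (x : α) (h : α → F), (Finset.univ : Finset F).sup
      (fun v => (𝓕.filter (fun f => res Y f = h ∧ f x = v)).card) ≤
      (𝓕.filter (fun f => res Y f = h)).card := by
    intro x h
    refine Finset.sup_le fun v _ => card_le_card ?_
    intro f hf
    simp only [mem_filter] at hf ⊢
    exact ⟨hf.1, hf.2.1⟩
  have hloss : ∀ x, loss 𝓕 Y x = ∑ h ∈ 𝓕.image (res Y),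
      ((𝓕.filter (fun f => res Y f = h)).card - (Finset.univ : Finset F).sup
      (fun v => (𝓕.filter (fun f => res Y f = h ∧ f x = v)).card)) := by
    intro x
    unfold loss
    rw [Finset.sum_tsub_distrib _ (fun h _ => hle x h)]
    rw [← hcard]
  have hpos : ∀ h ∈ 𝓕.image (res Y), 1 ≤ (𝓕.filter (fun f => res Y f = h)).card := by
    intro h hh
    obtain ⟨f, hf, rfl⟩ := mem_image.1 hh
    exact card_pos.2 ⟨f, by simp [hf]⟩
  have hLHS : 𝓕.card - (𝓕.image (res Y)).card = ∑ h ∈ 𝓕.image (res Y),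
      ((𝓕.filter (fun f => res Y f = h)).card - 1) := by
    rw [Finset.sum_tsub_distrib _ hpos, ← hcard]
    simp
  rw [hLHS, mul_sum]
  simp only [hloss]
  rw [sum_comm, mul_sum]
  refine sum_le_sum fun h _ => ?_
  have := PK1_class (𝓕.filter (fun f => res Y f = h)) Q d (fun f hf g hg hfg =>
    hd f (mem_filter.1 hf).1 g (mem_filter.1 hg).1 hfg)
  simpa only [filter_filter] using this

end Pool.Agent.H9.Bry
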