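import Mathlib
import Pool.Agent.H9.Bry.Defs

set_option autoImplicit false

namespace Pool.Agent.H9.Bry

open Finset

section
set_option linter.unusedSectionVars false
variable {α F : Type*} [Field F] [DecidableEq F] [Fintype α] [DecidableEq α]

theorem lems_zr_zS (i : α) (S : Finset α) (g : α → F) :
    zr i (fun y => if y ∈ S then 0 else g y) = fun y => if y ∈ insert i S then 0 else g y := by
  funext y
  by_cases h : y = i
  · subst h
    simp [zr]
  · simp [zr, h]

theorem lems_zS_zr (i : α) (S : Finset α) (g : α → F) :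
    (fun y => if y ∈ S then 0 else zr i g y) = fun y => if y ∈ insert i S then 0 else g y := by
  funext y
  by_cases h : y = i
  · subst h
    simp [zr]
  · simp [zr, h]

theorem lems_pr_image (i : α) (S : Finset α) (𝓖 : Finset (α → F)) :
    (pr i 𝓖).image (fun g y => if y ∈ S then 0 else g y) =
      𝓖.image (fun g y => if y ∈ insert i S then 0 else g y) := by
  unfold pr
  rw [Finset.image_image]
  congr 1
  funext g
  exact lems_zS_zr i S g

theorem lems_Dop_mono (i : α) {𝓖 𝓗 : Finset (α → F)} (h : 𝓖 ⊆ 𝓗) : Dop i 𝓖 ⊆ Dop i 𝓗 := by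
  intro x hx
  unfold Dop pr at *
  rw [Finset.mem_filter] at hx ⊢
  exact ⟨Finset.image_subset_image h hx.1, hx.2.trans
    (Finset.card_le_card (Finset.filter_subset_filter _ h))⟩

theorem lems_Dl_mono (l : List α) : ∀ {𝓖 𝓗 : Finset (α → F)}, 𝓖 ⊆ 𝓗 → Dl l 𝓖 ⊆ Dl l 𝓗 := by
  induction l with
  | nil => intro 𝓖 𝓗 h; exact h
  | cons i l ih => intro 𝓖 𝓗 h; exact ih (lems_Dop_mono i h)

/-- elements of the projection with fibre of size at least `t` -/
def lemsF (i : α) (t : ℕ) (𝓖 : Finset (α → F)) : Finset (α → F) :=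
  (pr i 𝓖).filter (fun h => t ≤ (𝓖.filter (fun g => zr i g = h)).card)

theorem lems_layer (i : α) (𝓖 : Finset (α → F)) (N : ℕ) (hN : 𝓖.card ≤ N) :
    𝓖.card = ∑ t ∈ Finset.Icc 1 N, (lemsF i t 𝓖).card := by
  have h1 : 𝓖.card = ∑ h ∈ pr i 𝓖, (𝓖.filter (fun g => zr i g = h)).card :=
    Finset.card_eq_sum_card_fiberwise (fun g hg => Finset.mem_image_of_mem _ hg)
  have h2 : ∀ h ∈ pr i 𝓖, (𝓖.filter (fun g => zr i g = h)).card =
      ∑ t ∈ Finset.Icc 1 N, if t ≤ (𝓖.filter (fun g => zr i g = h)).card then 1 else 0 := by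
    intro h _
    rw [Finset.sum_boole]
    have e : (Finset.Icc 1 N).filter (fun t => t ≤ (𝓖.filter (fun g => zr i g = h)).card) =
        Finset.Icc 1 (𝓖.filter (fun g => zr i g = h)).card := by
      ext t
      simp only [Finset.mem_filter, Finset.mem_Icc]
      constructor
      · rintro ⟨⟨h1, h2⟩, h3⟩
        exact ⟨h1, h3⟩
      · rintro ⟨h1, h3⟩
        exact ⟨⟨h1, h3.trans ((Finset.card_filter_le _ _).trans hN)⟩, h3⟩
    rw [e]
    simp
  rw [h1, Finset.sum_congr rfl h2, Finset.sum_comm]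
  refine Finset.sum_congr rfl fun t _ => ?_
  rw [Finset.sum_boole]
  simp [lemsF]

theorem lems_zr_comm (i j : α) (hij : i ≠ j) (g : α → F) : zr i (zr j g) = zr j (zr i g) := by
  unfold zr
  rw [Function.update_comm hij]

theorem lems_pr_ge (i j : α) (hij : i ≠ j) (𝓖 : Finset (α → F)) (t : ℕ) :
    (pr j (lemsF i t 𝓖)).card ≤ (lemsF i t (pr j 𝓖)).card := by
  refine Finset.card_le_card ?_
  intro u hu
  obtain ⟨v, hv, rfl⟩ := Finset.mem_image.1 hu
  rw [lemsF, Finset.mem_filter] at hv
  obtain ⟨hv1, hv2⟩ := hv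
  obtain ⟨g, hg, rfl⟩ := Finset.mem_image.1 hv1
  rw [lemsF, Finset.mem_filter]
  refine ⟨?_, hv2.trans ?_⟩
  · rw [← lems_zr_comm i j hij]
    exact Finset.mem_image_of_mem _ (Finset.mem_image_of_mem _ hg)
  · refine Finset.card_le_card_of_injOn (zr j) ?_ ?_
    · intro g' hg'
      simp only [Finset.coe_filter, Set.mem_ofPred_eq] at hg' ⊢
      exact ⟨Finset.mem_image_of_mem _ hg'.1, by rw [lems_zr_comm i j hij, hg'.2]⟩
    · intro g1 h1 g2 h2 h12
      simp only [Finset.coe_filter, Set.mem_ofPred_eq] at h1 h2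
      have h3 : zr i g1 = zr i g2 := h1.2.trans h2.2.symm
      funext y
      by_cases hy : y = i
      · subst hy
        have := congrFun h12 y
        simpa [zr, Function.update_of_ne hij] using this
      · have := congrFun h3 y
        simpa [zr, Function.update_of_ne hy] using this

theorem lems_F_sub (i : α) (t : ℕ) (ht : 2 ≤ t) (S : Finset α) (hi : i ∉ S)
    (𝓖 : Finset (α → F)) :
    (lemsF i t 𝓖).image (fun g y => if y ∈ S then 0 else g y) ⊆
      Dop i (𝓖.image (fun g y => if y ∈ S then 0 else g y)) := by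
  intro u hu
  obtain ⟨v, hv, rfl⟩ := Finset.mem_image.1 hu
  rw [lemsF, Finset.mem_filter] at hv
  obtain ⟨hv1, hv2⟩ := hv
  have hz : ∀ g : α → F, zr i (fun y => if y ∈ S then 0 else g y) =
      fun y => if y ∈ S then 0 else zr i g y := fun g => by
    rw [lems_zr_zS, lems_zS_zr]
  rw [Dop, Finset.mem_filter]
  refine ⟨?_, ht.trans (hv2.trans ?_)⟩
  · obtain ⟨g, hg, rfl⟩ := Finset.mem_image.1 hv1
    refine Finset.mem_image.2 ⟨_, Finset.mem_image_of_mem _ hg, ?_⟩
    exact hz g
  · refine Finset.card_le_card_of_injOn (fun g y => if y ∈ S then 0 else g y) ?_ ?_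
    · intro g' hg'
      simp only [Finset.coe_filter, Set.mem_ofPred_eq] at hg' ⊢
      refine ⟨Finset.mem_image_of_mem _ hg'.1, ?_⟩
      rw [hz, hg'.2]
    · intro g1 h1 g2 h2 h12
      simp only [Finset.coe_filter, Set.mem_ofPred_eq] at h1 h2
      have h3 : zr i g1 = zr i g2 := h1.2.trans h2.2.symm
      funext y
      by_cases hy : y = i
      · subst hy
        have := congrFun h12 y
        simpa [hi] using this
      · have := congrFun h3 y
        simpa [zr, Function.update_of_ne hy] using this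

end

theorem lemS {α F : Type*} [Field F] [DecidableEq F] [Fintype α] [DecidableEq α]
    (I : Finset α) (k : ℕ) (𝓖 : Finset (α → F)) (h : TreeHyp I k 𝓖) :
    ∑ i ∈ I, (𝓖.card - (pr i 𝓖).card) ≤ k * 𝓖.card := by
  induction I using Finset.induction_on generalizing k 𝓖 with
  | empty => simp
  | insert i I hi ih =>
    rw [Finset.sum_insert hi]
    set N := 𝓖.card with hN
    have hL := lems_layer i 𝓖 (N + 1) (by omega)
    have hF1 : lemsF i 1 𝓖 = pr i 𝓖 := by
      unfold lemsF
      rw [Finset.filter_true_of_mem]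
      intro v hv
      obtain ⟨g, hg, rfl⟩ := Finset.mem_image.1 hv
      exact Finset.card_pos.2 ⟨g, Finset.mem_filter.2 ⟨hg, rfl⟩⟩
    have hsplit : ∀ f : ℕ → ℕ, ∑ t ∈ Finset.Icc 1 (N + 1), f t =
        f 1 + ∑ t ∈ Finset.Icc 2 (N + 1), f t := by
      intro f
      have e : Finset.Icc 1 (N + 1) = insert 1 (Finset.Icc 2 (N + 1)) := by
        ext t
        simp only [Finset.mem_Icc, Finset.mem_insert]
        omega
      rw [e, Finset.sum_insert (by simp)]
    -- the projection
    have hT1 : TreeHyp I k (pr i 𝓖) := by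
      intro S hS l hl hlm hne
      rw [lems_pr_image] at hne
      refine h (insert i S) (Finset.insert_subset_insert i hS) l hl ?_ hne
      intro j hj
      obtain ⟨h1, h2⟩ := hlm j hj
      refine ⟨Finset.mem_insert_of_mem h1, ?_⟩
      rw [Finset.mem_insert, not_or]
      exact ⟨fun hh => hi (hh ▸ h1), h2⟩
    have h1 := ih k (pr i 𝓖) hT1
    have h2 : ∀ t ∈ Finset.Icc 2 (N + 1), ∑ j ∈ I, ((lemsF i t 𝓖).card -
        (pr j (lemsF i t 𝓖)).card) + (lemsF i t 𝓖).card ≤ k * (lemsF i t 𝓖).card := by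
      intro t ht
      have ht2 := (Finset.mem_Icc.1 ht).1
      rcases (lemsF i t 𝓖).eq_empty_or_nonempty with he | hne
      · rw [he]
        simp [pr]
      · have hk : 1 ≤ k := by
          have := h ∅ (Finset.empty_subset _) [i] (List.nodup_singleton i) (by simp) (by
            simp only [Dl]
            have hs := lems_F_sub i t ht2 ∅ (by simp) 𝓖
            exact (hne.image _).mono hs)
          simpa using this
        have hT : TreeHyp I (k - 1) (lemsF i t 𝓖) := by
          intro S hS l hl hlm hne'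
          have hiS : i ∉ S := fun hh => hi (hS hh)
          have hil : i ∉ l := fun hh => hi (hlm i hh).1
          have := h S (hS.trans (Finset.subset_insert _ _)) (i :: l) (List.nodup_cons.2 ⟨hil, hl⟩)
            (by
              intro j hj
              rcases List.mem_cons.1 hj with rfl | hj
              · exact ⟨Finset.mem_insert_self _ _, hiS⟩
              · exact ⟨Finset.mem_insert_of_mem (hlm j hj).1, (hlm j hj).2⟩)
            (hne'.mono (lems_Dl_mono l (lems_F_sub i t ht2 S hiS 𝓖)))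
          simp only [List.length_cons] at this
          omega
        have h3 := ih (k - 1) _ hT
        have h4 : k * (lemsF i t 𝓖).card = (k - 1) * (lemsF i t 𝓖).card + (lemsF i t 𝓖).card := by
          obtain ⟨k', rfl⟩ : ∃ k', k = k' + 1 := ⟨k - 1, by omega⟩
          rw [Nat.add_sub_cancel]
          ring
        omega
    -- the sum over the other directions
    have h3 : ∀ j ∈ I, N - (pr j 𝓖).card ≤ ∑ t ∈ Finset.Icc 1 (N + 1),
        ((lemsF i t 𝓖).card - (pr j (lemsF i t 𝓖)).card) := by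
      intro j hj
      have hij : i ≠ j := fun hh => hi (hh ▸ hj)
      have h4 := lems_layer i (pr j 𝓖) (N + 1) (by
        have := Finset.card_image_le (s := 𝓖) (f := zr j)
        unfold pr
        omega)
      have h5 : ∑ t ∈ Finset.Icc 1 (N + 1), (pr j (lemsF i t 𝓖)).card ≤ (pr j 𝓖).card := by
        rw [h4]
        exact Finset.sum_le_sum fun t _ => lems_pr_ge i j hij 𝓖 t
      have h6 : ∑ t ∈ Finset.Icc 1 (N + 1), (lemsF i t 𝓖).card ≤
          ∑ t ∈ Finset.Icc 1 (N + 1), ((lemsF i t 𝓖).card - (pr j (lemsF i t 𝓖)).card) +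
          ∑ t ∈ Finset.Icc 1 (N + 1), (pr j (lemsF i t 𝓖)).card := by
        rw [← Finset.sum_add_distrib]
        exact Finset.sum_le_sum fun t _ => by omega
      omega
    have h4 : ∑ j ∈ I, (N - (pr j 𝓖).card) ≤ ∑ t ∈ Finset.Icc 1 (N + 1), ∑ j ∈ I,
        ((lemsF i t 𝓖).card - (pr j (lemsF i t 𝓖)).card) := by
      rw [Finset.sum_comm]
      exact Finset.sum_le_sum h3
    rw [hsplit, hF1] at h4
    rw [hsplit, hF1] at hL
    have h5 := Finset.sum_le_sum h2
    rw [Finset.sum_add_distrib, ← Finset.mul_sum] at h5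
    set A := ∑ t ∈ Finset.Icc 2 (N + 1), (lemsF i t 𝓖).card with hA
    have hkN : k * N = k * (pr i 𝓖).card + k * A := by
      rw [← mul_add, ← hL]
    rw [hkN]
    omega

end Pool.Agent.H9.Bry
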