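import Mathlib
import Pool.Agent.H9.Bry.LEMS

set_option autoImplicit false

namespace Pool.Agent.H9.Bry

open Finset

theorem PK2_one {α F : Type*} [Field F] [Fintype F] [DecidableEq F] [Fintype α]
    [DecidableEq α] (𝓕 : Finset (α → F)) (Y : Finset α) (y : α) (hy : y ∈ Y)
    (W : (α → F) → ℕ) (hW : ∀ g, W g = (𝓕.filter (fun f => res Y f = g)).card)
    (L : ℕ → Finset (α → F)) (hL : ∀ t, L t = (𝓕.image (res Y)).filter (fun g => t ≤ W g)) :
    loss 𝓕 (Y.erase y) y ≤ ∑ t ∈ Icc 1 𝓕.card, ((L t).card - (pr y (L t)).card) := by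
  classical
  have hcard : 𝓕.card = ∑ t ∈ Icc 1 𝓕.card, (L t).card := by
    have h1 : 𝓕.card = ∑ g ∈ 𝓕.image (res Y), W g := by
      simp only [hW]
      exact card_eq_sum_card_image _ _
    have h2 : ∀ g, W g ≤ 𝓕.card := by
      intro g; rw [hW]; exact card_filter_le _ _
    have h3 : ∑ t ∈ Icc 1 𝓕.card, (L t).card =
        ∑ g ∈ 𝓕.image (res Y), ((Icc 1 𝓕.card).filter (fun t => t ≤ W g)).card := by
      simp only [hL, card_filter]
      rw [sum_comm]
    rw [h3]
    have h4 : ∀ g, ((Icc 1 𝓕.card).filter (fun t => t ≤ W g)).card = W g := by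
      intro g
      have : (Icc 1 𝓕.card).filter (fun t => t ≤ W g) = Icc 1 (W g) := by
        ext t
        simp only [mem_filter, mem_Icc]
        have := h2 g
        omega
      rw [this, Nat.card_Icc]; omega
    simp only [h4]
    exact h1
  have hpr : ∀ t, (pr y (L t)).card ≤ (L t).card := fun t => card_image_le
  rw [Finset.sum_tsub_distrib _ (fun t _ => hpr t), ← hcard]
  unfold loss
  refine Nat.sub_le_sub_left ?_ _
  set H := 𝓕.image (res (Y.erase y)) with hH
  have hres : ∀ f : α → F, zr y (res Y f) = res (Y.erase y) f := by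
    intro f
    ext z
    by_cases hz : z = y
    · subst hz; simp [zr, res]
    · simp [zr, res, hz]
  have hsubH : ∀ t, pr y (L t) ⊆ H := by
    intro t h hh
    obtain ⟨g, hg, rfl⟩ := mem_image.1 hh
    rw [hL] at hg
    obtain ⟨f, hf, rfl⟩ := mem_image.1 (mem_filter.1 hg).1
    rw [hres]
    exact mem_image.2 ⟨f, hf, rfl⟩
  have e1 : ∑ t ∈ Icc 1 𝓕.card, (pr y (L t)).card =
      ∑ h ∈ H, ((Icc 1 𝓕.card).filter (fun t => h ∈ pr y (L t))).card := by
    have : ∀ t, (pr y (L t)).card = (H.filter (fun h => h ∈ pr y (L t))).card := by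
      intro t
      congr 1
      ext h
      simp only [mem_filter]
      exact ⟨fun hh => ⟨hsubH t hh, hh⟩, fun hh => hh.2⟩
    simp only [this]
    simp only [card_filter]
    rw [sum_comm]
  rw [e1]
  refine sum_le_sum fun h _ => ?_
  set s := (Finset.univ : Finset F).sup
      (fun v => (𝓕.filter (fun f => res (Y.erase y) f = h ∧ f y = v)).card) with hs
  have : (Icc 1 𝓕.card).filter (fun t => h ∈ pr y (L t)) ⊆ Icc 1 s := by
    intro t ht
    obtain ⟨ht1, ht2⟩ := mem_filter.1 ht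
    obtain ⟨g, hg, hgh⟩ := mem_image.1 ht2
    rw [hL] at hg
    obtain ⟨hg1, hg2⟩ := mem_filter.1 hg
    refine mem_Icc.2 ⟨(mem_Icc.1 ht1).1, hg2.trans ?_⟩
    refine le_trans ?_ (Finset.le_sup (f := fun v => (𝓕.filter
      (fun f => res (Y.erase y) f = h ∧ f y = v)).card) (mem_univ (g y)))
    rw [hW]
    refine card_le_card ?_
    intro f hf
    obtain ⟨hf1, hf2⟩ := mem_filter.1 hf
    refine mem_filter.2 ⟨hf1, ?_, ?_⟩
    · rw [← hgh, ← hf2, hres]
    · rw [← hf2]; simp [res, hy]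
  refine (card_le_card this).trans ?_
  rw [Nat.card_Icc]; omega

theorem loss_upper {α F : Type*} [Field F] [Fintype F] [DecidableEq F] [Fintype α]
    [DecidableEq α] (𝓕 : Finset (α → F)) (Y : Finset α) (k : ℕ)
    (hT : ∀ 𝓖 ⊆ 𝓕.image (res Y), TreeHyp Y k 𝓖) :
    ∑ y ∈ Y, loss 𝓕 (Y.erase y) y ≤ k * 𝓕.card := by
  classical
  set W : (α → F) → ℕ := fun g => (𝓕.filter (fun f => res Y f = g)).card with hW
  set L : ℕ → Finset (α → F) := fun t => (𝓕.image (res Y)).filter (fun g => t ≤ W g) with hL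
  have hcard : 𝓕.card = ∑ t ∈ Icc 1 𝓕.card, (L t).card := by
    have h1 : 𝓕.card = ∑ g ∈ 𝓕.image (res Y), W g := by
      simp only [hW]
      exact card_eq_sum_card_image _ _
    have h2 : ∀ g, W g ≤ 𝓕.card := fun g => card_filter_le _ _
    have h3 : ∑ t ∈ Icc 1 𝓕.card, (L t).card =
        ∑ g ∈ 𝓕.image (res Y), ((Icc 1 𝓕.card).filter (fun t => t ≤ W g)).card := by
      simp only [hL, card_filter]
      rw [sum_comm]
    rw [h3]
    have h4 : ∀ g, ((Icc 1 𝓕.card).filter (fun t => t ≤ W g)).card = W g := by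
      intro g
      have : (Icc 1 𝓕.card).filter (fun t => t ≤ W g) = Icc 1 (W g) := by
        ext t
        simp only [mem_filter, mem_Icc]
        have := h2 g
        omega
      rw [this, Nat.card_Icc]; omega
    simp only [h4]
    exact h1
  calc ∑ y ∈ Y, loss 𝓕 (Y.erase y) y
      ≤ ∑ y ∈ Y, ∑ t ∈ Icc 1 𝓕.card, ((L t).card - (pr y (L t)).card) :=
        sum_le_sum fun y hy => PK2_one 𝓕 Y y hy W (fun _ => rfl) L (fun _ => rfl)
    _ = ∑ t ∈ Icc 1 𝓕.card, ∑ y ∈ Y, ((L t).card - (pr y (L t)).card) := sum_comm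
    _ ≤ ∑ t ∈ Icc 1 𝓕.card, k * (L t).card :=
        sum_le_sum fun t _ => lemS Y k (L t) (hT _ (filter_subset _ _))
    _ = k * 𝓕.card := by rw [← mul_sum, ← hcard]

end Pool.Agent.H9.Bry
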