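import Mathlib
import Pool.Agent.H9.Bry.PK1
import Pool.Agent.H9.Bry.PK2

set_option autoImplicit false

namespace Pool.Agent.H9.Bry

open Finset

theorem PK3_zero {α F : Type*} [Field F] [Fintype F] [DecidableEq F] [Fintype α]
    [DecidableEq α] (𝓕 : Finset (α → F)) (Y : Finset α) (x : α) (hx : x ∈ Y) :
    loss 𝓕 Y x = 0 := by
  classical
  unfold loss
  rw [Nat.sub_eq_zero_iff_le]
  have hcard : 𝓕.card = ∑ h ∈ 𝓕.image (res Y), (𝓕.filter (fun f => res Y f = h)).card :=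
    card_eq_sum_card_image _ _
  conv_lhs => rw [hcard]
  refine sum_le_sum fun h _ => ?_
  refine le_trans ?_ (Finset.le_sup (f := fun v => (𝓕.filter
      (fun f => res Y f = h ∧ f x = v)).card) (mem_univ (h x)))
  refine card_le_card ?_
  intro f hf
  obtain ⟨hf1, hf2⟩ := mem_filter.1 hf
  refine mem_filter.2 ⟨hf1, hf2, ?_⟩
  rw [← hf2]; simp [res, hx]

theorem PK3_double {α : Type*} [DecidableEq α] (Q : Finset α) (m : ℕ) (g : Finset α → α → ℕ) :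
    ∑ Y ∈ powersetCard (m + 1) Q, ∑ y ∈ Y, g (Y.erase y) y =
      ∑ Y ∈ powersetCard m Q, ∑ x ∈ Q \ Y, g Y x := by
  classical
  rw [sum_sigma', sum_sigma']
  refine sum_bij' (fun p _ => ⟨p.1.erase p.2, p.2⟩) (fun p _ => ⟨insert p.2 p.1, p.2⟩) ?_ ?_ ?_ ?_ ?_
  · rintro ⟨Y, y⟩ h
    simp only [mem_sigma, mem_powersetCard, mem_sdiff] at h ⊢
    obtain ⟨⟨h1, h2⟩, h3⟩ := h
    refine ⟨⟨(erase_subset _ _).trans h1, ?_⟩, h1 h3, by simp⟩
    rw [card_erase_of_mem h3, h2]; rfl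
  · rintro ⟨Y, y⟩ h
    simp only [mem_sigma, mem_powersetCard, mem_sdiff] at h ⊢
    obtain ⟨⟨h1, h2⟩, h3, h4⟩ := h
    refine ⟨⟨insert_subset h3 h1, ?_⟩, mem_insert_self _ _⟩
    rw [card_insert_of_notMem h4, h2]
  · rintro ⟨Y, y⟩ h
    simp only [mem_sigma] at h
    simp [insert_erase h.2]
  · rintro ⟨Y, y⟩ h
    simp only [mem_sigma, mem_powersetCard, mem_sdiff] at h
    simp [erase_insert h.2.2]
  · rintro ⟨Y, y⟩ _
    rfl

theorem packing {α F : Type*} [Field F] [Fintype F] [DecidableEq F] [Fintype α]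
    [DecidableEq α] (𝓕 : Finset (α → F)) (Q : Finset α) (d k G m : ℕ)
    (hd : ∀ f ∈ 𝓕, ∀ g ∈ 𝓕, f ≠ g → d ≤ (Q.filter (fun y => f y ≠ g y)).card)
    (hT : ∀ Y ⊆ Q, ∀ 𝓖 ⊆ 𝓕.image (res Y), TreeHyp Y k 𝓖)
    (hG : ∀ Y ⊆ Q, Y.card = m → (𝓕.image (res Y)).card ≤ G) (hm : m + 1 ≤ Q.card) :
    (m + 1) * d * (𝓕.card - G) ≤ 2 * k * 𝓕.card * Q.card := by
  classical
  have hA : ∑ Y ∈ powersetCard (m + 1) Q, ∑ y ∈ Y, loss 𝓕 (Y.erase y) y ≤
      Q.card.choose (m + 1) * (k * 𝓕.card) := by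
    rw [← card_powersetCard, ← smul_eq_mul]
    refine sum_le_card_nsmul _ _ _ ?_
    intro Y hY
    exact loss_upper 𝓕 Y k (hT Y (mem_powersetCard.1 hY).1)
  rw [PK3_double Q m (fun Y x => loss 𝓕 Y x)] at hA
  have hB : ∀ Y ∈ powersetCard m Q, d * (𝓕.card - G) ≤ 2 * ∑ x ∈ Q \ Y, loss 𝓕 Y x := by
    intro Y hY
    obtain ⟨h1, h2⟩ := mem_powersetCard.1 hY
    have h3 := loss_lower 𝓕 Q Y d hd
    have h4 : ∑ x ∈ Q, loss 𝓕 Y x = ∑ x ∈ Q \ Y, loss 𝓕 Y x := by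
      symm
      refine sum_subset sdiff_subset ?_
      intro x hx hx'
      refine PK3_zero 𝓕 Y x ?_
      by_contra h5
      exact hx' (mem_sdiff.2 ⟨hx, h5⟩)
    rw [← h4]
    refine le_trans (Nat.mul_le_mul_left _ ?_) h3
    exact Nat.sub_le_sub_left (hG Y h1 h2) _
  have hC : Q.card.choose m * (d * (𝓕.card - G)) ≤
      2 * ∑ Y ∈ powersetCard m Q, ∑ x ∈ Q \ Y, loss 𝓕 Y x := by
    rw [mul_sum, ← card_powersetCard m Q, ← smul_eq_mul]
    exact card_nsmul_le_sum _ _ _ hB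
  have hD : Q.card.choose m * (d * (𝓕.card - G)) ≤
      2 * (Q.card.choose (m + 1) * (k * 𝓕.card)) :=
    hC.trans (Nat.mul_le_mul_left _ hA)
  have hch := Nat.choose_succ_right_eq Q.card m
  have hpos : 0 < Q.card.choose m := Nat.choose_pos (by omega)
  refine Nat.le_of_mul_le_mul_left ?_ hpos
  calc Q.card.choose m * ((m + 1) * d * (𝓕.card - G))
      = (m + 1) * (Q.card.choose m * (d * (𝓕.card - G))) := by ring
    _ ≤ (m + 1) * (2 * (Q.card.choose (m + 1) * (k * 𝓕.card))) := Nat.mul_le_mul_left _ hD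
    _ = (Q.card.choose (m + 1) * (m + 1)) * (2 * k * 𝓕.card) := by ring
    _ = (Q.card.choose m * (Q.card - m)) * (2 * k * 𝓕.card) := by rw [hch]
    _ ≤ (Q.card.choose m * Q.card) * (2 * k * 𝓕.card) :=
        Nat.mul_le_mul_right _ (Nat.mul_le_mul_left _ (Nat.sub_le _ _))
    _ = _ := by ring

end Pool.Agent.H9.Bry
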