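import Mathlib

set_option autoImplicit false

namespace Pool.Agent.H9.Bry

open Finset

theorem CNT_choose (n : ℕ) : n - 1 ≤ n.choose 2 := by
  rcases n with _ | m
  · simp
  · have : (m + 1).choose 2 = m + m.choose 2 := by
      rw [Nat.choose_succ_succ' m 1]
      simp
    omega

theorem sum_card_sub_one_le {ι β : Type*} [DecidableEq ι] [DecidableEq β] (S : Finset ι)
    (T : ι → Finset β) (A : Finset β) (hT : ∀ i ∈ S, T i ⊆ A)
    (hshare : ∀ i ∈ S, ∀ j ∈ S, i ≠ j → (T i ∩ T j).card ≤ 1) :
    ∑ i ∈ S, ((T i).card - 1) ≤ A.card.choose 2 := by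
  calc ∑ i ∈ S, ((T i).card - 1) ≤ ∑ i ∈ S, ((T i).powersetCard 2).card := by
        refine Finset.sum_le_sum fun i _ => ?_
        rw [Finset.card_powersetCard]
        exact CNT_choose _
    _ = (S.biUnion fun i => (T i).powersetCard 2).card := by
        rw [Finset.card_biUnion]
        intro i hi j hj hij
        rw [Function.onFun, Finset.disjoint_left]
        intro P hP hP'
        rw [Finset.mem_powersetCard] at hP hP'
        have h1 : P ⊆ T i ∩ T j := Finset.subset_inter hP.1 hP'.1
        have h2 := Finset.card_le_card h1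
        have h3 := hshare i hi j hj hij
        omega
    _ ≤ (A.powersetCard 2).card := by
        refine Finset.card_le_card ?_
        intro P hP
        rw [Finset.mem_biUnion] at hP
        obtain ⟨i, hi, hP⟩ := hP
        rw [Finset.mem_powersetCard] at hP ⊢
        exact ⟨hP.1.trans (hT i hi), hP.2⟩
    _ = A.card.choose 2 := by rw [Finset.card_powersetCard]

end Pool.Agent.H9.Bry
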