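import Mathlib
import Pool.Agent.H9.Bry.Defs

set_option autoImplicit false

namespace Pool.Agent.H9.Bry

open Finset

theorem pair_share {F V : Type*} [Field F] [AddCommGroup V] [Module F V] {X : Set V}
    (hK : K4Free F X) (hc : IsCone F X) {W₀ : Set V} (hfin : W₀.Finite) (hW : W₀ ⊆ X)
    {e x x' : V} (he : e ∈ X) (hx : x ∉ Submodule.span F (insert e W₀))
    (heW : e ∉ Submodule.span F W₀) (hxx : x - x' ∈ Submodule.span F W₀) (hne : x ≠ x')
    {s t : F} (hst : s ≠ t) (h1 : x + s • e ∈ X) (h2 : x + t • e ∈ X)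
    (h3 : x' + s • e ∈ X) (h4 : x' + t • e ∈ X) : False := by
  classical
  have hxx' : x' - x ∈ Submodule.span F W₀ := by
    have := Submodule.neg_mem _ hxx
    rwa [neg_sub] at this
  -- a maximal subset
  have hfinP : {Z : Set V | Z ⊆ W₀ ∧ x' - x ∉ Submodule.span F Z}.Finite :=
    hfin.finite_subsets.subset (fun Z hZ => hZ.1)
  have hneP : {Z : Set V | Z ⊆ W₀ ∧ x' - x ∉ Submodule.span F Z}.Nonempty := by
    refine ⟨∅, Set.empty_subset _, ?_⟩
    rw [Submodule.span_empty, Submodule.mem_bot, sub_eq_zero]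
    exact fun h => hne h.symm
  obtain ⟨Z, hZ⟩ := hfinP.exists_maximal hneP
  obtain ⟨⟨hZW, hZx⟩, hmax⟩ := hZ
  obtain ⟨w, hw, hwZ⟩ : ∃ w ∈ W₀, w ∉ Z := by
    by_contra hcon
    push Not at hcon
    exact hZx (Submodule.span_mono hcon hxx')
  have hin : x' - x ∈ Submodule.span F (insert w Z) := by
    by_contra hcon
    have : insert w Z ≤ Z := hmax ⟨Set.insert_subset hw hZW, hcon⟩ (Set.subset_insert w Z)
    exact hwZ (this (Set.mem_insert w Z))
  obtain ⟨c, z, hz, hcz⟩ := Submodule.mem_span_insert.1 hin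
  refine hK Z (hZW.trans hW) ((t - s) • e) (x' - x) (x + s • e) ?_ ?_ ?_ ?_ ?_ ?_ ?_
  · intro c₁ c₂ c₃ hcc
    have hspan : ∀ u ∈ Submodule.span F Z, u ∈ Submodule.span F W₀ :=
      fun u hu => Submodule.span_mono hZW hu
    have hspan' : ∀ u ∈ Submodule.span F W₀, u ∈ Submodule.span F (insert e W₀) :=
      fun u hu => Submodule.span_mono (Set.subset_insert _ _) hu
    have heI : e ∈ Submodule.span F (insert e W₀) := Submodule.subset_span (Set.mem_insert _ _)
    have hc3 : c₃ = 0 := by
      by_contra hc3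
      apply hx
      have h5 : c₃ • x ∈ Submodule.span F (insert e W₀) := by
        have h6 : c₃ • x = (c₁ • (t - s) • e + c₂ • (x' - x) + c₃ • (x + s • e)) -
          (c₁ * (t - s) + c₃ * s) • e - c₂ • (x' - x) := by
          module
        rw [h6]
        exact Submodule.sub_mem _ (Submodule.sub_mem _ (hspan' _ (hspan _ hcc))
          (Submodule.smul_mem _ _ heI)) (Submodule.smul_mem _ _ (hspan' _ hxx'))
      have h7 := Submodule.smul_mem _ c₃⁻¹ h5
      rwa [smul_smul, inv_mul_cancel₀ hc3, one_smul] at h7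
    subst hc3
    have hc1 : c₁ = 0 := by
      by_contra hc1
      apply heW
      have hts : c₁ * (t - s) ≠ 0 := mul_ne_zero hc1 (sub_ne_zero.2 (Ne.symm hst))
      have h5 : (c₁ * (t - s)) • e ∈ Submodule.span F W₀ := by
        have h6 : (c₁ * (t - s)) • e = (c₁ • (t - s) • e + c₂ • (x' - x) +
          (0 : F) • (x + s • e)) - c₂ • (x' - x) := by
          module
        rw [h6]
        exact Submodule.sub_mem _ (hspan _ hcc) (Submodule.smul_mem _ _ hxx')
      have h7 := Submodule.smul_mem _ (c₁ * (t - s))⁻¹ h5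
      rwa [smul_smul, inv_mul_cancel₀ hts, one_smul] at h7
    subst hc1
    refine ⟨rfl, ?_, rfl⟩
    by_contra hc2
    apply hZx
    have h5 : c₂ • (x' - x) ∈ Submodule.span F Z := by
      have h6 : c₂ • (x' - x) = (0 : F) • (t - s) • e + c₂ • (x' - x) +
        (0 : F) • (x + s • e) := by
        module
      rw [h6]
      exact hcc
    have h7 := Submodule.smul_mem _ c₂⁻¹ h5
    rwa [smul_smul, inv_mul_cancel₀ hc2, one_smul] at h7
  · exact ⟨(t - s) • e, hc _ _ he, by simp⟩
  · refine ⟨c • w, hc _ _ (hW hw), ?_⟩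
    rw [hcz]
    simpa using hz
  · exact ⟨x + s • e, h1, by simp⟩
  · refine ⟨x + t • e, h2, ?_⟩
    have : x + s • e + (t - s) • e - (x + t • e) = 0 := by module
    rw [this]
    exact Submodule.zero_mem _
  · refine ⟨x' + s • e, h3, ?_⟩
    have : x + s • e + (x' - x) - (x' + s • e) = 0 := by module
    rw [this]
    exact Submodule.zero_mem _
  · refine ⟨x' + t • e, h4, ?_⟩
    have : x + s • e + (t - s) • e + (x' - x) - (x' + t • e) = 0 := by module
    rw [this]
    exact Submodule.zero_mem _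

end Pool.Agent.H9.Bry
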