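import Mathlib
import Pool.Agent.H9.Bry.K3
import Pool.Agent.H9.Bry.CNT

set_option autoImplicit false

namespace Pool.Agent.H9.Bry

open Finset

section

variable {F : Type*} [Field F] [DecidableEq F] {α : Type*} [DecidableEq α] [Fintype α]

theorem tree_zr_update (i : α) (g h : α → F) (hg : zr i g = h) :
    g = Function.update h i (g i) := by
  rw [← hg]
  unfold zr
  funext y
  by_cases hy : y = i
  · subst hy
    simp
  · simp [hy]

theorem tree_Dop_zero {i : α} {𝓖 : Finset (α → F)} {h : α → F} (hh : h ∈ Dop i 𝓖) : h i = 0 := by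
  unfold Dop pr at hh
  rw [mem_filter, mem_image] at hh
  obtain ⟨⟨g, _, rfl⟩, _⟩ := hh
  simp [zr]

theorem tree_Dop_keep {i y : α} {𝓖 : Finset (α → F)} (H : ∀ g ∈ 𝓖, g y = 0) :
    ∀ h ∈ Dop i 𝓖, h y = 0 := by
  intro h hh
  unfold Dop pr at hh
  rw [mem_filter, mem_image] at hh
  obtain ⟨⟨g, hg, rfl⟩, _⟩ := hh
  unfold zr
  by_cases hy : y = i
  · subst hy
    simp
  · simp [hy, H g hg]

theorem tree_Dl_keep {y : α} (l : List α) : ∀ {𝓖 : Finset (α → F)}, (∀ g ∈ 𝓖, g y = 0) →
    ∀ h ∈ Dl l 𝓖, h y = 0 := by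
  induction l with
  | nil => exact fun H h hh => H h hh
  | cons i l ih => exact fun H h hh => ih (tree_Dop_keep H) h hh

theorem tree_Dl_zero (l : List α) : ∀ {𝓖 : Finset (α → F)} {h : α → F}, h ∈ Dl l 𝓖 →
    ∀ y ∈ l, h y = 0 := by
  induction l with
  | nil => exact fun _ y hy => absurd hy List.not_mem_nil
  | cons i l ih =>
    intro 𝓖 h hh y hy
    rcases List.mem_cons.1 hy with rfl | hy
    · exact tree_Dl_keep l (fun g hg => tree_Dop_zero hg) h hh
    · exact ih hh y hy

theorem tree_Dl_append (l : List α) (j : α) : ∀ (𝓖 : Finset (α → F)),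
    Dl (l ++ [j]) 𝓖 = Dop j (Dl l 𝓖) := by
  induction l with
  | nil => exact fun _ => rfl
  | cons i l ih => exact fun 𝓖 => ih (Dop i 𝓖)

theorem tree_Dl_card (l : List α) : ∀ {𝓖 : Finset (α → F)} {h : α → F}, h ∈ Dl l 𝓖 →
    2 ^ l.length ≤ (𝓖.filter (fun g => ∀ y, y ∉ l → g y = h y)).card := by
  induction l with
  | nil =>
    intro 𝓖 h hh
    rw [List.length_nil, pow_zero, Nat.one_le_iff_ne_zero, Ne, card_eq_zero]
    intro h0
    have : h ∈ 𝓖.filter (fun g => ∀ y, y ∉ ([] : List α) → g y = h y) := by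
      rw [mem_filter]
      exact ⟨hh, fun _ _ => rfl⟩
    rw [h0] at this
    exact notMem_empty _ this
  | cons i l ih =>
    intro 𝓖 h hh
    have h1 := ih (𝓖 := Dop i 𝓖) hh
    set A := (Dop i 𝓖).filter (fun g => ∀ y, y ∉ l → g y = h y) with hA
    have h2 : A.card * 2 ≤ (𝓖.filter (fun g => ∀ y, y ∉ i :: l → g y = h y)).card := by
      have h3 : ∑ u ∈ A, (𝓖.filter (fun g => zr i g = u)).card
          ≤ (𝓖.filter (fun g => ∀ y, y ∉ i :: l → g y = h y)).card := by
        rw [← card_biUnion]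
        · refine card_le_card fun g hg => ?_
          rw [mem_biUnion] at hg
          obtain ⟨u, hu, hg⟩ := hg
          rw [mem_filter] at hg ⊢
          refine ⟨hg.1, fun y hy => ?_⟩
          rw [List.mem_cons, not_or] at hy
          rw [hA, mem_filter] at hu
          have h4 := hu.2 y hy.2
          rw [← hg.2] at h4
          unfold zr at h4
          simpa [hy.1] using h4
        · intro u _ u' _ hne
          show Disjoint _ _
          rw [Finset.disjoint_left]
          intro g hg hg'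
          rw [mem_filter] at hg hg'
          exact hne (hg.2.symm.trans hg'.2)
      refine le_trans ?_ h3
      have h5 : ∀ u ∈ A, 2 ≤ (𝓖.filter (fun g => zr i g = u)).card := by
        intro u hu
        rw [hA, mem_filter] at hu
        have h6 := hu.1
        unfold Dop at h6
        rw [mem_filter] at h6
        exact h6.2
      have h7 := Finset.card_nsmul_le_sum A (fun u => (𝓖.filter (fun g => zr i g = u)).card) 2 h5
      rw [smul_eq_mul] at h7
      exact h7
    rw [List.length_cons, pow_succ]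
    exact (Nat.mul_le_mul_right 2 h1).trans h2

end

theorem tree_cone {α F ι : Type*} [Field F] [DecidableEq α] (f : ι → α → F) (Y : Finset α) :
    IsCone F (rowSet f Y) := by
  rintro c x (⟨c', j, rfl⟩ | ⟨c', y, hy, rfl⟩)
  · exact Or.inl ⟨c * c', j, by rw [smul_smul]⟩
  · exact Or.inr ⟨c * c', y, hy, by rw [smul_smul]⟩

theorem tree_hyp {α F ι : Type*} [Field F] [Fintype F] [DecidableEq F] [Fintype α]
    [DecidableEq α] (f : ι → α → F) (Q : Finset α) (hf : RowFree f Q) (Y : Finset α)
    (hY : Y ⊆ Q) (𝓖 : Finset (α → F)) (h𝓖 : ∀ g ∈ 𝓖, ∃ (c : F) (j : ι), g = c • res Y (f j)) :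
    TreeHyp Y (Nat.log 2 ((Fintype.card F).choose 2) + 2) 𝓖 := by
  intro S hS l hnd hl hne
  set 𝓖' := 𝓖.image (fun g y => if y ∈ S then 0 else g y) with h𝓖'
  have hrow : ∀ g ∈ 𝓖', g ∈ rowSet f (Y \ S) := by
    intro g hg
    rw [h𝓖', mem_image] at hg
    obtain ⟨g0, hg0, rfl⟩ := hg
    obtain ⟨c, j, rfl⟩ := h𝓖 g0 hg0
    refine Or.inl ⟨c, j, ?_⟩
    funext y
    by_cases h1 : y ∈ S
    · simp [res, h1]
    · by_cases h2 : y ∈ Y
      · simp [res, h1, h2]
      · simp [res, h1, h2]
  rcases l with _ | ⟨i, l'⟩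
  · simp
  rcases List.eq_nil_or_concat l' with rfl | ⟨l2, j, rfl⟩
  · simp
  obtain ⟨h, hh⟩ := hne
  have hh2 : h ∈ Dl (l2 ++ [j]) (Dop i 𝓖') := by simpa [Dl] using hh
  rw [tree_Dl_append] at hh2
  set 𝓗 := Dop i 𝓖' with h𝓗
  -- a nonzero member of `Dl l2 𝓗`
  obtain ⟨h', hh', hne'⟩ : ∃ h' ∈ Dl l2 𝓗, h' ≠ 0 := by
    unfold Dop at hh2
    rw [mem_filter] at hh2
    obtain ⟨u, hu, hu0⟩ := Finset.exists_mem_ne
      (s := (Dl l2 𝓗).filter (fun g => zr j g = h)) (by omega) 0
    rw [mem_filter] at hu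
    exact ⟨u, hu.1, hu0⟩
  obtain ⟨z, hz⟩ : ∃ z, h' z ≠ 0 := by
    by_contra hcon
    push Not at hcon
    exact hne' (funext hcon)
  have hzl : z ∉ l2 := fun hzl => hz (tree_Dl_zero l2 hh' z hzl)
  have hH0 : ∀ g ∈ 𝓗, g i = 0 := fun g hg => tree_Dop_zero hg
  have hzi : z ≠ i := by
    rintro rfl
    exact hz (tree_Dl_keep l2 hH0 h' hh')
  have hcard := tree_Dl_card l2 hh'
  set A := 𝓗.filter (fun g => ∀ y, y ∉ l2 → g y = h' y) with hA
  let T : (α → F) → Finset F := fun u => univ.filter (fun x => Function.update u i x ∈ 𝓖')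
  have hT2 : ∀ u ∈ A, 2 ≤ (T u).card := by
    intro u hu
    rw [hA, mem_filter] at hu
    have h1 := hu.1
    rw [h𝓗] at h1
    unfold Dop at h1
    rw [mem_filter] at h1
    refine h1.2.trans (Finset.card_le_card_of_injOn (fun g => g i) ?_ ?_)
    · intro g hg
      rw [mem_coe, mem_filter] at hg
      rw [mem_coe, mem_filter]
      refine ⟨mem_univ _, ?_⟩
      rw [← tree_zr_update i g u hg.2]
      exact hg.1
    · intro g hg g' hg' hgg
      rw [mem_coe, mem_filter] at hg hg'
      rw [tree_zr_update i g u hg.2, tree_zr_update i g' u hg'.2]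
      simp only at hgg
      rw [hgg]
  have hiYS : i ∈ Y \ S := by
    rw [mem_sdiff]
    exact hl i (by simp)
  have hadd : ∀ u : α → F, u i = 0 → ∀ s : F,
      u + s • (Pi.single i (1 : F) : α → F) = Function.update u i s := by
    intro u hu s
    funext y
    by_cases hy : y = i
    · subst hy
      simp [hu]
    · simp [hy]
  have hAi : ∀ u ∈ A, u i = 0 := by
    intro u hu
    rw [hA, mem_filter] at hu
    exact hH0 u hu.1
  have hAy : ∀ u ∈ A, ∀ y, y ∉ l2 → u y = h' y := by
    intro u hu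
    rw [hA, mem_filter] at hu
    exact hu.2
  let W₀ : Set (α → F) := {x | ∃ y, (y ∈ Y \ S ∧ y ≠ z ∧ y ≠ i) ∧ x = Pi.single y (1 : F)}
  have hWz : ∀ x ∈ Submodule.span F (insert (Pi.single i (1 : F) : α → F) W₀), x z = 0 := by
    intro x hx
    have : Submodule.span F (insert (Pi.single i (1 : F) : α → F) W₀)
        ≤ LinearMap.ker (LinearMap.proj (R := F) (φ := fun _ : α => F) z) := by
      rw [Submodule.span_le]
      rintro w (rfl | ⟨y, hy, rfl⟩)
      · simp [hzi]
      · simp [Ne.symm hy.2.1]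
    exact this hx
  have hWi : ∀ x ∈ Submodule.span F W₀, x i = 0 := by
    intro x hx
    have : Submodule.span F W₀
        ≤ LinearMap.ker (LinearMap.proj (R := F) (φ := fun _ : α => F) i) := by
      rw [Submodule.span_le]
      rintro w ⟨y, hy, rfl⟩
      simp [Ne.symm hy.2.2]
    exact this hx
  have hcnt := sum_card_sub_one_le A T (univ : Finset F) (fun _ _ => subset_univ _) (by
    intro u hu u' hu' hne
    by_contra hcon
    obtain ⟨s, hs, t, ht, hst⟩ := Finset.one_lt_card.1 (not_le.1 hcon)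
    rw [mem_inter, mem_filter, mem_filter] at hs ht
    refine pair_share (hf (Y \ S) (sdiff_subset.trans hY)) (tree_cone f (Y \ S)) (W₀ := W₀)
      (e := Pi.single i (1 : F)) (x := u) (x' := u') (s := s) (t := t) ?_ ?_ ?_ ?_ ?_ ?_ hne hst
      ?_ ?_ ?_ ?_
    · refine Set.Finite.subset (Set.finite_range (fun y : α => (Pi.single y (1 : F) : α → F))) ?_
      rintro x ⟨y, _, rfl⟩
      exact ⟨y, rfl⟩
    · rintro x ⟨y, hy, rfl⟩
      exact Or.inr ⟨1, y, hy.1, by rw [one_smul]⟩
    · exact Or.inr ⟨1, i, hiYS, by rw [one_smul]⟩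
    · intro hx
      have := hWz u hx
      rw [hAy u hu z hzl] at this
      exact hz this
    · intro hx
      have := hWi _ hx
      simp at this
    · have hsum : u - u' = ∑ y : α, (u - u') y • (Pi.single y (1 : F) : α → F) := by
        funext x
        simp [Finset.sum_apply, Pi.single_apply]
      rw [hsum]
      refine Submodule.sum_mem _ fun y _ => ?_
      by_cases hy : y ∈ l2
      · refine Submodule.smul_mem _ _ (Submodule.subset_span ⟨y, ⟨?_, ?_, ?_⟩, rfl⟩)
        · rw [mem_sdiff]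
          exact hl y (by simp [hy])
        · rintro rfl
          exact hzl hy
        · rintro rfl
          rw [List.nodup_cons] at hnd
          exact hnd.1 (by simp [hy])
      · have h0 : (u - u') y = 0 := by
          rw [Pi.sub_apply, hAy u hu y hy, hAy u' hu' y hy, sub_self]
        rw [h0, zero_smul]
        exact Submodule.zero_mem _
    · rw [hadd u (hAi u hu)]
      exact hrow _ hs.1.2
    · rw [hadd u (hAi u hu)]
      exact hrow _ ht.1.2
    · rw [hadd u' (hAi u' hu')]
      exact hrow _ hs.2.2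
    · rw [hadd u' (hAi u' hu')]
      exact hrow _ ht.2.2)
  have h1 : A.card ≤ (Fintype.card F).choose 2 := by
    rw [Finset.card_univ] at hcnt
    refine le_trans ?_ hcnt
    rw [Finset.card_eq_sum_ones]
    refine Finset.sum_le_sum fun u hu => ?_
    have := hT2 u hu
    omega
  have h2 : 2 ^ l2.length ≤ (Fintype.card F).choose 2 := hcard.trans h1
  have h3 : l2.length ≤ Nat.log 2 ((Fintype.card F).choose 2) :=
    Nat.le_log_of_pow_le (by norm_num) h2
  simp only [List.length_cons, List.concat_eq_append, List.length_append, List.length_nil]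
  omega

end Pool.Agent.H9.Bry
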