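import Mathlib
import Pool.Agent.H9.Bry.TREE
import Pool.Agent.H9.Bry.PK3

set_option autoImplicit false

namespace Pool.Agent.H9.Bry

open Finset

theorem cog_arith (q r N d k C m M G : ℕ) (hq : 2 ≤ q) (hr : 1 ≤ r) (hk : 1 ≤ k) (hN : 1 ≤ N)
    (hdN : d ≤ N) (hNC : N ≤ (C - 1) * r) (hM : M = (q - 1) * r) (hG : G = 1 + (q - 1) * C * m)
    (hd : 8 * C * (C - 1) * k + 2 * C + 1 ≤ d) (hm1 : m * d ≤ 4 * k * N - 1)
    (hm2 : 4 * k * N ≤ (m + 1) * d)
    (hp : (m + 1) * d * (M - G) ≤ 2 * k * M * N) : False := by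
  have hkN : 1 ≤ k * N := Nat.mul_pos hk hN
  -- M ≤ 2 G
  have h1 : 4 * k * N * (M - G) ≤ 2 * k * M * N := le_trans (Nat.mul_le_mul_right _ hm2) hp
  have h2 : (2 * (k * N)) * (2 * (M - G)) ≤ (2 * (k * N)) * M := by
    calc (2 * (k * N)) * (2 * (M - G)) = 4 * k * N * (M - G) := by ring
      _ ≤ 2 * k * M * N := h1
      _ = (2 * (k * N)) * M := by ring
  have h3 : 2 * (M - G) ≤ M := Nat.le_of_mul_le_mul_left h2 (by omega)
  have h4 : M ≤ 2 * G := by omega
  obtain ⟨C', rfl⟩ : ∃ C', C = C' + 1 := by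
    rcases C with _ | C
    · simp at hNC; omega
    · exact ⟨C, rfl⟩
  obtain ⟨q', rfl⟩ : ∃ q', q = q' + 1 := ⟨q - 1, by omega⟩
  simp only [Nat.add_sub_cancel] at *
  have hq' : 1 ≤ q' := by omega
  subst hM hG
  have h5 : d * (q' * r) ≤ 2 * d + 2 * q' * (C' + 1) * (m * d) := by
    calc d * (q' * r) ≤ d * (2 * (1 + q' * (C' + 1) * m)) := Nat.mul_le_mul_left _ h4
      _ = 2 * d + 2 * q' * (C' + 1) * (m * d) := by ring
  have h6 : 2 * q' * (C' + 1) * (m * d) ≤ 2 * q' * (C' + 1) * (4 * k * N) :=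
    Nat.mul_le_mul_left _ (le_trans hm1 (Nat.sub_le _ _))
  have h7 : 2 * q' * (C' + 1) * (4 * k * N) ≤ 2 * q' * (C' + 1) * (4 * k * (C' * r)) :=
    Nat.mul_le_mul_left _ (Nat.mul_le_mul_left _ hNC)
  have h8 : 2 * d ≤ 2 * (C' * r) := by omega
  have h9 : 2 * (C' * r) ≤ 2 * (q' * (C' * r)) := by
    have : C' * r ≤ q' * (C' * r) := Nat.le_mul_of_pos_left _ hq'
    omega
  have h10 : (8 * (C' + 1) * C' * k + 2 * (C' + 1) + 1) * (q' * r) ≤ d * (q' * r) :=
    Nat.mul_le_mul_right _ hd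
  have h11 : 1 ≤ q' * r := Nat.mul_pos hq' hr
  nlinarith

theorem isCone_rowSet {F α ι : Type*} [Field F] [DecidableEq α] (f : ι → α → F)
    (Y : Finset α) : IsCone F (rowSet f Y) := by
  rintro c x (⟨c', j, rfl⟩ | ⟨c', y, hy, rfl⟩)
  · exact Or.inl ⟨c * c', j, by rw [smul_smul]⟩
  · exact Or.inr ⟨c * c', y, hy, by rw [smul_smul]⟩

theorem finrank_rowSet {F α ι : Type*} [Field F] [Fintype α] [DecidableEq α] (f : ι → α → F)
    (Y : Finset α) : Module.finrank F (Submodule.span F (rowSet f Y)) ≤ Y.card := by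
  classical
  have h1 : Submodule.span F (rowSet f Y) ≤
      Submodule.span F ((Y.image (fun y => (Pi.single y (1 : F) : α → F)) : Finset (α → F)) :
        Set (α → F)) := by
    rw [Submodule.span_le]
    have hs : ∀ y ∈ Y, (Pi.single y (1 : F) : α → F) ∈
        Submodule.span F ((Y.image (fun y => (Pi.single y (1 : F) : α → F)) :
          Finset (α → F)) : Set (α → F)) := fun y hy =>
      Submodule.subset_span (by
        rw [Finset.coe_image]
        exact ⟨y, hy, rfl⟩)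
    rintro x (⟨c, j, rfl⟩ | ⟨c, y, hy, rfl⟩)
    · apply Submodule.smul_mem
      have h2 : res Y (f j) = ∑ y ∈ Y, f j y • (Pi.single y (1 : F) : α → F) := by
        ext z
        rw [Finset.sum_apply]
        simp [res, Pi.single_apply]
      rw [h2]
      exact Submodule.sum_mem _ (fun y hy => Submodule.smul_mem _ _ (hs y hy))
    · exact Submodule.smul_mem _ _ (hs y hy)
  calc Module.finrank F (Submodule.span F (rowSet f Y)) ≤ _ := Submodule.finrank_mono h1
    _ ≤ (Y.image (fun y => (Pi.single y (1 : F) : α → F))).card := finrank_span_finset_le_card _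
    _ ≤ Y.card := Finset.card_image_le

theorem cog_core {α F : Type*} [Field F] [Fintype F] [DecidableEq F] [Fintype α]
    [DecidableEq α] {r : ℕ} (hr : 1 ≤ r) (f : Fin r → α → F) (Q : Finset α) (hf : RowFree f Q)
    (d C : ℕ) (hQ : Q.card ≤ (C - 1) * r)
    (hdist : ∀ c c' : F, c ≠ 0 → c' ≠ 0 → ∀ j j' : Fin r, (c, j) ≠ (c', j') →
      d ≤ (Q.filter (fun y => (c • f j) y ≠ (c' • f j') y)).card)
    (hw : ∀ j, d ≤ (Q.filter (fun y => f j y ≠ 0)).card)
    (hD2 : ∀ X : Set (α → F), K4Free F X → IsCone F X →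
      (X \ {0}).ncard ≤ (Fintype.card F - 1) * C * Module.finrank F (Submodule.span F X))
    (hd : 8 * C * (C - 1) * (Nat.log 2 ((Fintype.card F).choose 2) + 2) + 2 * C + 1 ≤ d) :
    False := by
  classical
  set q := Fintype.card F with hqdef
  set k := Nat.log 2 (q.choose 2) + 2 with hkdef
  have hq : 2 ≤ q := Fintype.one_lt_card
  have hd1 : 1 ≤ d := by omega
  have hdN : d ≤ Q.card := (hw ⟨0, hr⟩).trans (Finset.card_filter_le _ _)
  have hN : 1 ≤ Q.card := by omega
  have hkN : 1 ≤ k * Q.card := Nat.mul_pos (by omega) hN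
  have hC : 2 ≤ C := by
    by_contra hC
    have : C - 1 = 0 := by omega
    rw [this] at hQ
    omega
  -- the family
  let 𝓕 : Finset (α → F) :=
    (((Finset.univ : Finset F).erase 0) ×ˢ (Finset.univ : Finset (Fin r))).image
      (fun p => p.1 • f p.2)
  have hmem : ∀ g, g ∈ 𝓕 ↔ ∃ (c : F) (j : Fin r), c ≠ 0 ∧ g = c • f j := by
    intro g
    simp only [𝓕, mem_image, mem_product, mem_erase, mem_univ, and_true, Prod.exists]
    constructor
    · rintro ⟨c, j, hc, rfl⟩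
      exact ⟨c, j, hc, rfl⟩
    · rintro ⟨c, j, hc, rfl⟩
      exact ⟨c, j, hc, rfl⟩
  have hcard : 𝓕.card = (q - 1) * r := by
    rw [Finset.card_image_of_injOn]
    · rw [Finset.card_product, Finset.card_erase_of_mem (Finset.mem_univ _), Finset.card_univ,
        Finset.card_univ, Fintype.card_fin]
    · rintro ⟨c, j⟩ hp ⟨c', j'⟩ hp' heq
      by_contra hne
      simp only [coe_product, Set.mem_prod, mem_coe, mem_erase, mem_univ, and_true] at hp hp'
      have h1 := hdist c c' hp hp' j j' hne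
      have h2 : (Q.filter (fun y => (c • f j) y ≠ (c' • f j') y)) = ∅ := by
        apply Finset.filter_eq_empty_iff.2
        intro y _
        rw [not_not]
        exact congrFun heq y
      rw [h2, Finset.card_empty] at h1
      omega
  have hdF : ∀ g ∈ 𝓕, ∀ g' ∈ 𝓕, g ≠ g' → d ≤ (Q.filter (fun y => g y ≠ g' y)).card := by
    intro g hg g' hg' hne
    obtain ⟨c, j, hc, rfl⟩ := (hmem g).1 hg
    obtain ⟨c', j', hc', rfl⟩ := (hmem g').1 hg'
    apply hdist c c' hc hc' j j'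
    intro h
    obtain ⟨rfl, rfl⟩ := Prod.mk.inj h
    exact hne rfl
  have hT : ∀ Y ⊆ Q, ∀ 𝓖 ⊆ 𝓕.image (res Y), TreeHyp Y k 𝓖 := by
    intro Y hY 𝓖 h𝓖
    apply tree_hyp f Q hf Y hY 𝓖
    intro g hg
    obtain ⟨g', hg', rfl⟩ := Finset.mem_image.1 (h𝓖 hg)
    obtain ⟨c, j, _, rfl⟩ := (hmem g').1 hg'
    exact ⟨c, j, by rw [map_smul]⟩
  have hG : ∀ m : ℕ, ∀ Y ⊆ Q, Y.card = m → (𝓕.image (res Y)).card ≤ 1 + (q - 1) * C * m := by
    intro m Y hY hYm
    have h1 : ((𝓕.image (res Y)).erase 0).card ≤ (q - 1) * C * m := by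
      have h2 : (((𝓕.image (res Y)).erase 0 : Finset (α → F)) : Set (α → F)) ⊆
          rowSet f Y \ {0} := by
        intro g hg
        rw [Finset.mem_coe, Finset.mem_erase] at hg
        refine ⟨?_, by simpa using hg.1⟩
        obtain ⟨g', hg', rfl⟩ := Finset.mem_image.1 hg.2
        obtain ⟨c, j, _, rfl⟩ := (hmem g').1 hg'
        exact Or.inl ⟨c, j, by rw [map_smul]⟩
      have h3 := Set.ncard_le_ncard h2 (Set.toFinite _)
      rw [Set.ncard_coe_finset] at h3
      refine h3.trans ((hD2 _ (hf Y hY) (isCone_rowSet f Y)).trans ?_)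
      rw [← hYm]
      exact Nat.mul_le_mul_left _ (finrank_rowSet f Y)
    have h4 : (𝓕.image (res Y)).card - 1 ≤ ((𝓕.image (res Y)).erase 0).card :=
      Finset.pred_card_le_card_erase
    omega
  -- choice of m
  obtain ⟨m, hmdef⟩ : ∃ m, m = (4 * k * Q.card - 1) / d := ⟨_, rfl⟩
  have h4k : 4 * k * Q.card = 4 * (k * Q.card) := by ring
  have hm1 : m * d ≤ 4 * k * Q.card - 1 := by
    rw [hmdef]
    exact Nat.div_mul_le_self _ _
  have hm2 : 4 * k * Q.card ≤ (m + 1) * d := by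
    have h1 : 4 * k * Q.card - 1 < d * ((4 * k * Q.card - 1) / d + 1) :=
      Nat.lt_mul_div_succ _ hd1
    rw [← hmdef, mul_comm d (m + 1)] at h1
    omega
  have hkd : 4 * k ≤ d := by
    have h1 : 4 * k ≤ 8 * C * (C - 1) * k := by
      have h2 : 4 ≤ 8 * C * (C - 1) := by
        obtain ⟨C', rfl⟩ : ∃ C', C = C' + 2 := ⟨C - 2, by omega⟩
        have : C' + 2 - 1 = C' + 1 := by omega
        rw [this]
        nlinarith
      exact Nat.mul_le_mul_right _ h2
    omega
  have hmN : m + 1 ≤ Q.card := by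
    have h1 : m * d < Q.card * d := by
      have h2 : 4 * k * Q.card ≤ d * Q.card := Nat.mul_le_mul_right _ hkd
      have h3 : d * Q.card = Q.card * d := mul_comm _ _
      omega
    exact Nat.lt_of_mul_lt_mul_right h1
  have hp := packing 𝓕 Q d k (1 + (q - 1) * C * m) m hdF hT (hG m) hmN
  exact cog_arith q r Q.card d k C m 𝓕.card (1 + (q - 1) * C * m) hq hr (by omega) hN hdN hQ
    hcard rfl hd hm1 hm2 hp

end Pool.Agent.H9.Bry
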