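import Mathlib
import Pool.Agent.H9.Bry.Defs
import Pool.Agent.H54.K4
import Pool.Agent.H54.Crit

set_option autoImplicit false

namespace Pool.Agent.H9.Bry

open Finset

theorem K1_pair (k k' : Fin 6) (h : k ≠ k') : ∃ B : Finset (Fin 6), B.card = 3 ∧
    B ≠ {0, 1, 3} ∧ B ≠ {0, 2, 4} ∧ B ≠ {1, 2, 5} ∧ B ≠ {3, 4, 5} ∧ k ∈ B ∧ k' ∈ B := by
  revert k k'
  decide

open Pool.Agent.H54.Bry in
/-- a represented matroid without `M(K₄)`-minor gives a `K4Free` cone -/
theorem k4free_of_matroid {α F V : Type*} [Finite α] [Field F] [AddCommGroup V] [Module F V]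
    {M : Matroid α} {v : α → V}
    (hv : ∀ I : Set α, I ⊆ M.E → (M.Indep I ↔ LinearIndepOn F v I))
    (hM : ¬ HasMK4Minor M) : K4Free F (coneOf F v M.E) := by
  classical
  intro Z hZ e g a hind h0 h5 h1 h3 h2 h4
  apply hM
  -- the set contracted
  obtain ⟨Z₀, hZ₀⟩ := M.exists_isBasis {y | y ∈ M.E ∧ ∃ c : F, c ≠ 0 ∧ c • v y ∈ Z}
    (fun y hy => hy.1)
  have hspan : Submodule.span F (v '' Z₀) = Submodule.span F Z := by
    rw [← span_basis_eq hv hZ₀]
    apply le_antisymm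
    · rw [Submodule.span_le]
      rintro _ ⟨y, ⟨_, c, hc, hcz⟩, rfl⟩
      have h := Submodule.smul_mem (Submodule.span F Z) c⁻¹ (Submodule.subset_span hcz)
      rwa [smul_smul, inv_mul_cancel₀ hc, one_smul] at h
    · rw [Submodule.span_le]
      intro z hz
      obtain ⟨c, y, hy, rfl⟩ := hZ hz
      by_cases hc : c = 0
      · rw [hc, zero_smul]
        exact Submodule.zero_mem _
      · exact Submodule.smul_mem _ _ (Submodule.subset_span ⟨y, ⟨hy, c, hc, hz⟩, rfl⟩)
  have hCE : Z₀ ⊆ M.E := hZ₀.indep.subset_ground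
  have hCind : M.Indep Z₀ := hZ₀.indep
  have hCli : LinearIndepOn F v Z₀ := (hv _ hCE).1 hCind
  -- the six elements
  let u : Fin 6 → V := ![e, a, a + g, a + e, a + e + g, g]
  have hu : ∀ k, MemMod F (coneOf F v M.E) Z (u k) := by
    intro k
    fin_cases k
    · exact h0
    · exact h1
    · exact h2
    · exact h3
    · exact h4
    · exact h5
  have hu0 : ∀ k, u k ∉ Submodule.span F Z := by
    intro k hk
    fin_cases k
    · have := hind 1 0 0 (by simpa [u] using hk)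
      simp at this
    · have := hind 0 0 1 (by simpa [u] using hk)
      simp at this
    · have := hind 0 1 1 (by simpa [u, add_comm] using hk)
      simp at this
    · have := hind 1 0 1 (by simpa [u, add_comm] using hk)
      simp at this
    · have := hind 1 1 1 (by
        have h6 : (1 : F) • e + (1 : F) • g + (1 : F) • a = a + e + g := by module
        rw [h6]
        exact hk)
      simp at this
    · have := hind 0 1 0 (by simpa [u] using hk)
      simp at this
  have hex : ∀ k, ∃ c : F, ∃ y, c ≠ 0 ∧ y ∈ M.E ∧ u k - c • v y ∈ Submodule.span F Z := by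
    intro k
    obtain ⟨_, ⟨c, y, hy, rfl⟩, h⟩ := hu k
    refine ⟨c, y, ?_, hy, h⟩
    rintro rfl
    rw [zero_smul, sub_zero] at h
    exact hu0 k h
  choose c x hc0 hxE hcx using hex
  -- the quotient
  have hmk : ∀ k, (Submodule.span F (v '' Z₀)).mkQ (v (x k)) =
      (c k)⁻¹ • (Submodule.span F (v '' Z₀)).mkQ (u k) := by
    intro k
    have h : (Submodule.span F (v '' Z₀)).mkQ (u k) =
        (Submodule.span F (v '' Z₀)).mkQ (c k • v (x k)) := by
      rw [Submodule.mkQ_apply, Submodule.mkQ_apply, Submodule.Quotient.eq, hspan]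
      exact hcx k
    rw [h, map_smul, smul_smul, inv_mul_cancel₀ (hc0 k), one_smul]
  have hxC : ∀ k, x k ∉ Z₀ := by
    intro k hk
    apply hu0 k
    have h1 : v (x k) ∈ Submodule.span F Z := by
      rw [← hspan]
      exact Submodule.subset_span ⟨x k, hk, rfl⟩
    have h2 := Submodule.add_mem _ (hcx k) (Submodule.smul_mem _ (c k) h1)
    rwa [sub_add_cancel] at h2
  -- the map `L`
  let L : (Fin 3 → F) →ₗ[F] V ⧸ (Submodule.span F (v '' Z₀)) :=
    (LinearMap.proj 0).smulRight ((c 0)⁻¹ • (Submodule.span F (v '' Z₀)).mkQ e) +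
    (LinearMap.proj 1).smulRight ((c 5)⁻¹ • (Submodule.span F (v '' Z₀)).mkQ g) +
    (LinearMap.proj 2).smulRight ((Submodule.span F (v '' Z₀)).mkQ a)
  have hL : ∀ w, L w = w 0 • (c 0)⁻¹ • (Submodule.span F (v '' Z₀)).mkQ e +
      w 1 • (c 5)⁻¹ • (Submodule.span F (v '' Z₀)).mkQ g +
      w 2 • (Submodule.span F (v '' Z₀)).mkQ a := by
    intro w
    rfl
  have hLinj : Function.Injective L := by
    rw [← LinearMap.ker_eq_bot, LinearMap.ker_eq_bot']
    intro w hw
    rw [hL] at hw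
    have h6 : (Submodule.span F (v '' Z₀)).mkQ
        ((w 0 * (c 0)⁻¹) • e + (w 1 * (c 5)⁻¹) • g + w 2 • a) = 0 := by
      rw [map_add, map_add, map_smul, map_smul, map_smul, mul_smul, mul_smul]
      exact hw
    rw [Submodule.mkQ_apply, Submodule.Quotient.mk_eq_zero, hspan] at h6
    obtain ⟨h7, h8, h9⟩ := hind _ _ _ h6
    have h7' : w 0 = 0 := (mul_eq_zero.1 h7).resolve_right (inv_ne_zero (hc0 0))
    have h8' : w 1 = 0 := (mul_eq_zero.1 h8).resolve_right (inv_ne_zero (hc0 5))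
    ext k
    fin_cases k
    · exact h7'
    · exact h8'
    · exact h9
  have hLq : ∀ k, L (quadT 0 (c 0) 0 (c 5) (c 1)⁻¹ (c 2)⁻¹ (c 3)⁻¹ (c 4)⁻¹ k) =
      (Submodule.span F (v '' Z₀)).mkQ (v (x k)) := by
    intro k
    rw [hmk, hL]
    have h0' := hc0 0
    have h5' := hc0 5
    fin_cases k
    · simp [quadT, u]
    · simp [quadT, u]
    · have h2' := hc0 2
      simp only [quadT, u, Fin.reduceFinMk, Matrix.cons_val, map_add, smul_smul]
      rw [mul_zero, zero_mul, zero_smul, zero_add, mul_assoc, mul_inv_cancel₀ h5', mul_one,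
        smul_add, add_comm]
    · have h3' := hc0 3
      simp only [quadT, u, Fin.reduceFinMk, Matrix.cons_val, map_add, smul_smul]
      rw [mul_zero, zero_mul, zero_smul, add_zero, mul_assoc, mul_inv_cancel₀ h0', mul_one,
        smul_add, add_comm]
    · have h4' := hc0 4
      simp only [quadT, u, Fin.reduceFinMk, Matrix.cons_val, map_add, smul_smul]
      rw [mul_assoc, mul_inv_cancel₀ h0', mul_one, mul_assoc, mul_inv_cancel₀ h5', mul_one]
      module
    · simp [quadT, u]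
  have l1 : (c 1)⁻¹ ≠ 0 := inv_ne_zero (hc0 1)
  have l2 : (c 2)⁻¹ ≠ 0 := inv_ne_zero (hc0 2)
  have l3 : (c 3)⁻¹ ≠ 0 := inv_ne_zero (hc0 3)
  have l4 : (c 4)⁻¹ ≠ 0 := inv_ne_zero (hc0 4)
  have hxinj : Function.Injective x := by
    intro k k' h
    by_contra hne
    obtain ⟨B, b1, b2, b3, b4, b5, b6, b7⟩ := K1_pair k k' hne
    have hli := quad_good (F := F) (hc0 0).symm (hc0 5).symm l1 l2 l3 l4 B b1 b2 b3 b4 b5
    have h8 : quadT 0 (c 0) 0 (c 5) (c 1)⁻¹ (c 2)⁻¹ (c 3)⁻¹ (c 4)⁻¹ k =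
        quadT 0 (c 0) 0 (c 5) (c 1)⁻¹ (c 2)⁻¹ (c 3)⁻¹ (c 4)⁻¹ k' := by
      apply hLinj
      rw [hLq, hLq, h]
    exact hne (hli.injOn (by simpa using b6) (by simpa using b7) h8)
  have key : ∀ B : Set (Fin 6), LinearIndepOn F v (Z₀ ∪ x '' B) ↔
      LinearIndepOn F (quadT 0 (c 0) 0 (c 5) (c 1)⁻¹ (c 2)⁻¹ (c 3)⁻¹ (c 4)⁻¹) B := by
    intro B
    have hdisj : Disjoint Z₀ (x '' B) := by
      rw [Set.disjoint_left]
      rintro _ h1 ⟨k, _, rfl⟩
      exact hxC k h1
    rw [← hCli.quotient_iff_union hdisj]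
    have h1 : LinearIndepOn F ((Submodule.span F (v '' Z₀)).mkQ ∘ v) (x '' B) ↔
        LinearIndepOn F ((Submodule.span F (v '' Z₀)).mkQ ∘ v ∘ x) B := by
      constructor
      · intro h
        exact h.comp_of_image hxinj.injOn
      · intro h
        exact LinearIndepOn.image_of_comp x _ h
    rw [h1]
    have h2 : (Submodule.span F (v '' Z₀)).mkQ ∘ v ∘ x =
        L ∘ (quadT 0 (c 0) 0 (c 5) (c 1)⁻¹ (c 2)⁻¹ (c 3)⁻¹ (c 4)⁻¹) := by
      funext k
      exact (hLq k).symm
    rw [h2]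
    apply LinearMap.linearIndepOn_iff_of_injOn
    exact hLinj.injOn
  refine ⟨(M.contract Z₀).delete (M.E \ Set.range x), Matroid.contract_delete_isMinor M _ _, ?_⟩
  apply isMK4_of (x := x) hxinj ?_ (hc0 0).symm (hc0 5).symm l1 l2 l3 l4
  · intro B
    rw [← key, ← hv _ (Set.union_subset hCE (by rintro _ ⟨k, _, rfl⟩; exact hxE k)),
      Matroid.delete_indep_iff, hCind.contract_indep_iff]
    have hd1 : Disjoint (x '' (B : Set (Fin 6))) Z₀ := by
      rw [Set.disjoint_left]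
      rintro _ ⟨k, _, rfl⟩
      exact hxC k
    have hd2 : Disjoint (x '' (B : Set (Fin 6))) (M.E \ Set.range x) := by
      rw [Set.disjoint_left]
      rintro _ ⟨k, _, rfl⟩ h
      exact h.2 ⟨k, rfl⟩
    rw [Set.union_comm]
    tauto
  · rw [Matroid.delete_ground, Matroid.contract_ground]
    ext y
    constructor
    · rintro ⟨⟨h1, h2⟩, h3⟩
      by_contra h4
      exact h3 ⟨h1, h4⟩
    · rintro ⟨k, rfl⟩
      exact ⟨⟨hxE k, hxC k⟩, fun h => h.2 ⟨k, rfl⟩⟩

end Pool.Agent.H9.Bry
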