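import Mathlib
import Pool.Agent.H54.BryDefs

set_option autoImplicit false

namespace Pool.Agent.H9.Bry

open Finset

theorem DU1_comb : ∀ B : Finset (Fin 6),
    ((B.image Fin.rev)ᶜ.card = 3 ∧ (B.image Fin.rev)ᶜ ≠ {0, 1, 3} ∧
      (B.image Fin.rev)ᶜ ≠ {0, 2, 4} ∧ (B.image Fin.rev)ᶜ ≠ {1, 2, 5} ∧
      (B.image Fin.rev)ᶜ ≠ {3, 4, 5}) ↔
    (B.card = 3 ∧ B ≠ {0, 1, 3} ∧ B ≠ {0, 2, 4} ∧ B ≠ {1, 2, 5} ∧ B ≠ {3, 4, 5}) := by
  decide

open Pool.Agent.H54.Bry in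
theorem DU1_dual {α : Type*} {N : Matroid α} (h : IsMK4 N) : IsMK4 N✶ := by
  obtain ⟨x, hx, hE, hB⟩ := h
  refine ⟨x ∘ Fin.rev, hx.comp Fin.rev_injective, ?_, ?_⟩
  · rw [Matroid.dual_ground, hE]
    ext y
    constructor
    · rintro ⟨i, rfl⟩
      exact ⟨Fin.rev i, by simp⟩
    · rintro ⟨i, rfl⟩
      exact ⟨Fin.rev i, rfl⟩
  · intro B
    have h1 : N.E \ ((x ∘ Fin.rev) '' (B : Set (Fin 6))) =
        x '' (((B.image Fin.rev)ᶜ : Finset (Fin 6)) : Set (Fin 6)) := by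
      rw [hE, Finset.coe_compl, Set.image_compl_eq_range_sdiff_image hx, Finset.coe_image,
        Set.image_comp]
    have h2 : (x ∘ Fin.rev) '' (B : Set (Fin 6)) ⊆ N.E := by
      rw [hE]
      rintro _ ⟨i, -, rfl⟩
      exact ⟨_, rfl⟩
    rw [Matroid.dual_isBase_iff h2, h1, hB]
    exact DU1_comb B

open Pool.Agent.H54.Bry in
theorem hasMK4_of_dual {α : Type*} {M : Matroid α} (h : HasMK4Minor M✶) : HasMK4Minor M := by
  obtain ⟨N, hN, hK⟩ := h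
  obtain ⟨C, D, -, -, hCD, rfl⟩ := hN.exists_eq_contract_delete_disjoint
  refine ⟨_, ?_, DU1_dual hK⟩
  rw [Matroid.dual_contract_delete, Matroid.dual_dual, ← Matroid.contract_delete_comm _ hCD.symm]
  exact Matroid.contract_delete_isMinor _ _ _

end Pool.Agent.H9.Bry
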