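import Mathlib

set_option autoImplicit false

namespace Pool.Agent.H9.Bry

open Finset

/-- independence in the dual matroid: the complement spans -/
theorem DU2_dual_indep {α F : Type*} [Field F] {M : Matroid α} {r : ℕ}
    (v : α → (Fin r → F)) (b : Fin r → α) (hbE : ∀ j, b j ∈ M.E)
    (hvb : ∀ j, v (b j) = Pi.single j 1)
    (hv : ∀ I : Set α, I ⊆ M.E → (M.Indep I ↔ LinearIndepOn F v I)) {I : Set α}
    (hI : I ⊆ M.E) : M✶.Indep I ↔ Submodule.span F (v '' (M.E \ I)) = ⊤ := by
  classical
  have htop : ∀ S : Submodule F (Fin r → F), (∀ j, v (b j) ∈ S) → S = ⊤ := by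
    intro S hS
    rw [eq_top_iff]
    intro w _
    have : w = ∑ j, w j • v (b j) := by
      ext i
      simp [hvb, Pi.single_apply]
    rw [this]
    exact Submodule.sum_mem _ fun j _ => Submodule.smul_mem _ _ (hS j)
  rw [Matroid.dual_indep_iff_exists hI]
  constructor
  · rintro ⟨B, hB, hd⟩
    have hBE := hB.subset_ground
    have hspan : Submodule.span F (v '' B) = ⊤ := by
      refine htop _ fun j => ?_
      by_contra hcon
      have hxB : b j ∉ B := fun h => hcon (Submodule.subset_span ⟨_, h, rfl⟩)
      have hli := ((hv B hBE).1 hB.indep).insert hcon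
      have hind : M.Indep (insert (b j) B) := (hv _ (Set.insert_subset (hbE j) hBE)).2 hli
      exact hxB (hB.mem_of_insert_indep hind)
    rw [eq_top_iff, ← hspan]
    refine Submodule.span_mono (Set.image_mono ?_)
    intro x hx
    exact ⟨hBE hx, fun hxI => Set.disjoint_left.1 hd hxI hx⟩
  · intro hsp
    obtain ⟨J, hJ⟩ := M.exists_isBasis (M.E \ I) Set.sdiff_subset
    have hJE : J ⊆ M.E := hJ.indep.subset_ground
    have h1 : Submodule.span F (v '' J) = ⊤ := by
      rw [eq_top_iff, ← hsp, Submodule.span_le]
      rintro _ ⟨x, hx, rfl⟩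
      by_contra hcon
      have hxJ : x ∉ J := fun h => hcon (Submodule.subset_span ⟨x, h, rfl⟩)
      have hli := ((hv J hJE).1 hJ.indep).insert hcon
      have hind : M.Indep (insert x J) := (hv _ (Set.insert_subset hx.1 hJE)).2 hli
      exact hxJ (hJ.mem_of_insert_indep hx hind)
    refine ⟨J, ?_, ?_⟩
    · obtain ⟨B, hB, hJB⟩ := hJ.indep.exists_isBase_superset
      have : B = J := by
        refine Set.Subset.antisymm ?_ hJB
        intro x hx
        by_contra hxJ
        have h2 := (hv B hB.subset_ground).1 hB.indep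
        have h3 : v x ∉ Submodule.span F (v '' (B \ {x})) :=
          linearIndepOn_iff_notMem_span.1 h2 x hx
        apply h3
        have h4 : Submodule.span F (v '' J) ≤ Submodule.span F (v '' (B \ {x})) :=
          Submodule.span_mono (Set.image_mono fun y hy =>
            ⟨hJB hy, fun h => hxJ (by rw [Set.mem_singleton_iff] at h; exact h ▸ hy)⟩)
        exact h4 (by rw [h1]; trivial)
      rw [← this]
      exact hB
    · rw [Set.disjoint_left]
      intro x hxI hxJ
      exact (hJ.subset hxJ).2 hxI

open Classical in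
theorem dual_rep {α F : Type*} [Field F] [Fintype α] {M : Matroid α} {r : ℕ}
    (v : α → (Fin r → F)) (b : Fin r → α) (hbE : ∀ j, b j ∈ M.E)
    (hvb : ∀ j, v (b j) = Pi.single j 1)
    (hv : ∀ I : Set α, I ⊆ M.E → (M.Indep I ↔ LinearIndepOn F v I)) :
    ∃ u : α → (α → F),
      (∀ j, u (b j) = fun y => if y ∈ M.E ∧ y ∉ Set.range b then v y j else 0) ∧
      (∀ y ∈ M.E, y ∉ Set.range b → u y = - Pi.single y 1) ∧
      ∀ I : Set α, I ⊆ M.E → (M✶.Indep I ↔ LinearIndepOn F u I) := by
  have hbinj : Function.Injective b := by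
    intro i j hij
    have h1 := hvb i
    rw [hij, hvb j] at h1
    have h2 := congrFun h1 j
    by_contra hne
    rw [Pi.single_eq_same, Pi.single_eq_of_ne (Ne.symm hne)] at h2
    exact one_ne_zero h2
  let u : α → (α → F) := fun x =>
    if h : x ∈ Set.range b then
      fun y => if y ∈ M.E ∧ y ∉ Set.range b then v y h.choose else 0
    else - Pi.single x 1
  have hu1 : ∀ j, u (b j) = fun y => if y ∈ M.E ∧ y ∉ Set.range b then v y j else 0 := by
    intro j
    have h : b j ∈ Set.range b := ⟨j, rfl⟩
    have h2 : h.choose = j := hbinj h.choose_spec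
    simp only [u, dif_pos h, h2]
  have hu2 : ∀ x, x ∉ Set.range b → u x = - Pi.single x 1 := by
    intro x hx
    simp only [u, dif_neg hx]
  -- the key computation
  have key : ∀ (c : α → F), (∀ x, x ∉ M.E → c x = 0) → ∀ y,
      (∑ x, c x • u x) y =
        if y ∈ M.E ∧ y ∉ Set.range b then (∑ j, c (b j) * v y j) - c y else 0 := by
    intro c hc y
    have h1 : ∑ x, c x • u x = ∑ j, c (b j) • u (b j) +
        ∑ x ∈ univ.filter (fun x => x ∉ Set.range b), c x • u x := by
      rw [← Finset.sum_filter_add_sum_filter_not univ (fun x => x ∈ Set.range b)]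
      congr 1
      rw [← Finset.sum_image (f := fun x => c x • u x) (g := b) (fun i _ j _ h => hbinj h)]
      refine Finset.sum_congr ?_ fun _ _ => rfl
      ext x
      simp
    rw [h1, Pi.add_apply, Finset.sum_apply, Finset.sum_apply]
    have h2 : ∑ j, (c (b j) • u (b j)) y =
        if y ∈ M.E ∧ y ∉ Set.range b then ∑ j, c (b j) * v y j else 0 := by
      by_cases hy : y ∈ M.E ∧ y ∉ Set.range b
      · rw [if_pos hy]
        refine Finset.sum_congr rfl fun j _ => ?_
        rw [hu1 j]
        simp only [Pi.smul_apply, if_pos hy, smul_eq_mul]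
      · rw [if_neg hy]
        refine Finset.sum_eq_zero fun j _ => ?_
        rw [hu1 j]
        simp only [Pi.smul_apply, if_neg hy, smul_zero]
    have h3 : ∑ x ∈ univ.filter (fun x => x ∉ Set.range b), (c x • u x) y =
        if y ∉ Set.range b then - c y else 0 := by
      have h4 : ∀ x ∈ univ.filter (fun x => x ∉ Set.range b), (c x • u x) y =
          if x = y then - c y else 0 := by
        intro x hx
        rw [Finset.mem_filter] at hx
        rw [hu2 x hx.2]
        by_cases hxy : x = y
        · subst hxy
          simp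
        · simp [hxy, Pi.single_apply, Ne.symm hxy]
      rw [Finset.sum_congr rfl h4, Finset.sum_ite_eq']
      simp
    rw [h2, h3]
    by_cases hyb : y ∈ Set.range b
    · have h5 : ¬ (y ∈ M.E ∧ y ∉ Set.range b) := fun h => h.2 hyb
      rw [if_neg h5, if_neg h5, if_neg (by simpa using hyb)]
      simp
    · by_cases hyE : y ∈ M.E
      · rw [if_pos ⟨hyE, hyb⟩, if_pos hyb, if_pos ⟨hyE, hyb⟩]
        ring
      · have h5 : ¬ (y ∈ M.E ∧ y ∉ Set.range b) := fun h => hyE h.1
        rw [if_neg h5, if_neg h5, if_pos hyb, hc y hyE]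
        simp
  refine ⟨u, hu1, fun y _ hy => hu2 y hy, ?_⟩
  intro I hI
  rw [DU2_dual_indep v b hbE hvb hv hI]
  have hvE : ∀ (c : α → F) (j : Fin r), (∑ i, c (b i) * v (b j) i) = c (b j) := by
    intro c j
    rw [hvb j]
    simp [Pi.single_apply]
  constructor
  · intro hsp
    rw [linearIndepOn_iff]
    intro l hl hl0
    rw [Finsupp.mem_supported] at hl
    have hlI : ∀ x, x ∉ I → l x = 0 := by
      intro x hx
      by_contra h
      exact hx (hl (by simpa using h))
    have h1 : ∑ x, l x • u x = 0 := by
      rw [← hl0, Finsupp.linearCombination_apply, Finsupp.sum_fintype _ _ (by simp)]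
    -- the functional
    let φ : (Fin r → F) →ₗ[F] F := ∑ j, l (b j) • LinearMap.proj j
    have hφ : ∀ w, φ w = ∑ j, l (b j) * w j := by
      intro w
      simp [φ]
    have h2 : ∀ y ∈ M.E, l y = φ (v y) := by
      intro y hy
      rw [hφ]
      by_cases hyb : y ∈ Set.range b
      · obtain ⟨j, rfl⟩ := hyb
        exact (hvE l j).symm
      · have h3 := key l (fun x hx => hlI x fun h => hx (hI h)) y
        rw [h1, if_pos ⟨hy, hyb⟩] at h3
        simp only [Pi.zero_apply] at h3
        exact (sub_eq_zero.1 h3.symm).symm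
    have h3 : (⊤ : Submodule F (Fin r → F)) ≤ LinearMap.ker φ := by
      rw [← hsp, Submodule.span_le]
      rintro _ ⟨y, hy, rfl⟩
      show φ (v y) = 0
      rw [← h2 y hy.1]
      exact hlI y hy.2
    ext y
    by_cases hy : y ∈ M.E
    · rw [h2 y hy]
      exact h3 (x := v y) trivial
    · exact hlI y fun h => hy (hI h)
  · intro hli
    by_contra hsp
    obtain ⟨f, hf, hfk⟩ := Submodule.exists_le_ker_of_lt_top _ (lt_top_iff_ne_top.2 hsp)
    rw [linearIndepOn_iff] at hli
    let l : α →₀ F := Finsupp.equivFunOnFinite.symm (fun y => if y ∈ M.E then f (v y) else 0)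
    have hl : ∀ y, l y = if y ∈ M.E then f (v y) else 0 := fun y => rfl
    have hlI : ∀ y, y ∉ I → l y = 0 := by
      intro y hy
      rw [hl]
      by_cases hyE : y ∈ M.E
      · rw [if_pos hyE]
        exact hfk (Submodule.subset_span ⟨y, ⟨hyE, hy⟩, rfl⟩)
      · rw [if_neg hyE]
    have h1 : l = 0 := by
      refine hli l ?_ ?_
      · rw [Finsupp.mem_supported]
        intro y hy
        by_contra h
        simp only [Finset.mem_coe, Finsupp.mem_support_iff] at hy
        exact hy (hlI y h)
      · rw [Finsupp.linearCombination_apply, Finsupp.sum_fintype _ _ (by simp)]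
        ext y
        rw [key l (fun x hx => by rw [hl, if_neg hx]) y]
        by_cases hy : y ∈ M.E ∧ y ∉ Set.range b
        · rw [if_pos hy]
          have h2 : ∑ j, l (b j) * v y j = f (v y) := by
            have h3 : v y = ∑ j, v y j • (Pi.single j (1 : F) : Fin r → F) := by
              ext i
              simp [Pi.single_apply]
            conv_rhs => rw [h3]
            rw [map_sum]
            refine Finset.sum_congr rfl fun j _ => ?_
            rw [map_smul, hl, if_pos (hbE j), hvb j, smul_eq_mul, mul_comm]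
          rw [h2, hl, if_pos hy.1]
          simp
        · rw [if_neg hy]
          rfl
    apply hf
    ext j
    have h2 := DFunLike.congr_fun h1 (b j)
    rw [hl, if_pos (hbE j), hvb j] at h2
    simpa using h2

end Pool.Agent.H9.Bry
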