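import Mathlib
import Pool.Agent.H9.Bry.Defs

set_option autoImplicit false

namespace Pool.Agent.H9.Bry

open Finset

theorem fn_phi {F V : Type*} [Field F] [AddCommGroup V] [Module F V] {X : Set V}
    {n : ℕ} (f : PFan F X n) (a : Fin (n + 1) → F) : f.φ (lc f.b a) = a := by
  ext k
  simp [lc, map_sum, f.φb, Finset.sum_apply, Pi.single_apply]

theorem fn_van {F V : Type*} [Field F] [AddCommGroup V] [Module F V] {Z : Set V}
    (g : V →ₗ[F] F) (hg : ∀ z ∈ Z, g z = 0) {u : V} (hu : u ∈ Submodule.span F Z) : g u = 0 :=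
  (Submodule.span_le.2 (fun z hz => hg z hz) : Submodule.span F Z ≤ LinearMap.ker g) hu

theorem fn_lcmem {F V : Type*} [Field F] [AddCommGroup V] [Module F V] {m : ℕ}
    (b : Fin m → V) (d : Fin m → F) (Z : Set V) (h : ∀ i, d i ≠ 0 → b i ∈ Z) :
    lc b d ∈ Submodule.span F Z := by
  refine Submodule.sum_mem _ (fun i _ => ?_)
  by_cases h0 : d i = 0
  · simp [h0]
  · exact Submodule.smul_mem _ _ (Submodule.subset_span (h i h0))

theorem fn_single {F V : Type*} [Field F] [AddCommGroup V] [Module F V] {m : ℕ}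
    (b : Fin m → V) (j : Fin m) : lc b (Pi.single j (1 : F)) = b j := by
  simp [lc, Pi.single_apply, ite_smul]

theorem fn_prefix {F V : Type*} [Field F] [AddCommGroup V] [Module F V] {m : ℕ}
    (b : Fin m → V) (j : Fin m) :
    ∑ l ∈ Finset.Iic j, b l = lc b (fun l => if l ≤ j then (1 : F) else 0) := by
  simp only [lc, ite_smul, one_smul, zero_smul]
  rw [← Finset.sum_filter]
  congr 1
  ext l; simp

theorem fn_all {F V : Type*} [Field F] [AddCommGroup V] [Module F V] {m : ℕ}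
    (b : Fin m → V) : ∑ l, b l = lc b (fun _ => (1 : F)) := by
  simp [lc]

theorem fn_add {F V : Type*} [Field F] [AddCommGroup V] [Module F V] {m : ℕ}
    (b : Fin m → V) (c d : Fin m → F) : lc b c + lc b d = lc b (c + d) := by
  simp [lc, ← Finset.sum_add_distrib, add_smul]

theorem fn_sub {F V : Type*} [Field F] [AddCommGroup V] [Module F V] {m : ℕ}
    (b : Fin m → V) (c d : Fin m → F) : lc b c - lc b d = lc b (c - d) := by
  simp [lc, ← Finset.sum_sub_distrib, sub_smul]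

theorem fn_smul {F V : Type*} [Field F] [AddCommGroup V] [Module F V] {m : ℕ}
    (b : Fin m → V) (c : F) (d : Fin m → F) : c • lc b d = lc b (c • d) := by
  simp [lc, Finset.smul_sum, mul_smul]

theorem fan_neg {F V : Type*} [Field F] [Fintype F] [AddCommGroup V] [Module F V] {X : Set V}
    (hK : K4Free F X) (hc : IsCone F X) {n : ℕ} (f : PFan F X n) (a : Fin (n + 1) → F)
    (h0 : a 0 = 0) (j : Fin (n + 1)) (hj : a j ≠ 0) (θ : F)
    (hθ : θ ∈ fibT F X f.e (lc f.b a)) : θ ≠ - a j := by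
  rintro rfl
  simp only [fibT, Finset.mem_filter, Finset.mem_univ, true_and] at hθ
  have hj0 : j ≠ 0 := fun h => hj (by rw [h, h0])
  set Z : Set V := f.b '' {i | i ≠ 0 ∧ i ≠ j} with hZ
  have hmem : ∀ i, i ≠ 0 → i ≠ j → f.b i ∈ Z := fun i h1 h2 => ⟨i, ⟨h1, h2⟩, rfl⟩
  refine hK Z ?_ (-f.e) (f.b 0) (f.b j) ?_ ?_ ?_ ?_ ?_ ?_ ?_
  · rintro _ ⟨i, _, rfl⟩; exact f.hb i
  · intro c₁ c₂ c₃ h
    have e1 := fn_van f.ε (Z := Z) (by rintro _ ⟨i, _, rfl⟩; exact f.εb i) h
    have e2 := fn_van (LinearMap.proj 0 ∘ₗ f.φ : V →ₗ[F] F) (Z := Z) (by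
      rintro _ ⟨i, hi, rfl⟩
      simp only [LinearMap.comp_apply, f.φb, LinearMap.proj_apply]
      exact Pi.single_eq_of_ne (Ne.symm hi.1) _) h
    have e3 := fn_van (LinearMap.proj j ∘ₗ f.φ : V →ₗ[F] F) (Z := Z) (by
      rintro _ ⟨i, hi, rfl⟩
      simp only [LinearMap.comp_apply, f.φb, LinearMap.proj_apply]
      exact Pi.single_eq_of_ne (Ne.symm hi.2) _) h
    simp only [map_add, map_smul, map_neg, f.εb, f.εe, smul_eq_mul, mul_zero, add_zero] at e1
    simp only [LinearMap.comp_apply, map_add, map_smul, map_neg, f.φb, f.φe, LinearMap.proj_apply,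
      smul_eq_mul] at e2 e3
    have e2' : c₂ = 0 := by simpa [Pi.single_eq_of_ne (Ne.symm hj0)] using e2
    have e3' : c₃ = 0 := by simpa [Pi.single_eq_of_ne hj0] using e3
    exact ⟨by simpa using e1, e2', e3'⟩
  · exact ⟨(-1 : F) • f.e, hc _ _ f.he, by simp⟩
  · exact ⟨_, f.hb 0, by simp⟩
  · exact ⟨_, f.hb j, by simp⟩
  · refine ⟨(a j)⁻¹ • (lc f.b a + -a j • f.e), hc _ _ hθ, ?_⟩
    have e : f.b j + -f.e - (a j)⁻¹ • (lc f.b a + -a j • f.e) =
        lc f.b (Pi.single j 1 - (a j)⁻¹ • a) := by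
      rw [← fn_sub, ← fn_smul, fn_single, smul_add, smul_smul]
      have : (a j)⁻¹ * -a j = -1 := by field_simp
      rw [this]
      module
    rw [e]
    refine fn_lcmem _ _ _ (fun i hi => hmem i ?_ ?_)
    · rintro rfl
      apply hi
      simp [h0, Pi.single_eq_of_ne (Ne.symm hj0)]
    · rintro rfl
      apply hi
      simp [hj]
  · refine ⟨_, f.hs j, ?_⟩
    rw [fn_prefix (F := F), ← fn_single (F := F) f.b j, ← fn_single (F := F) f.b 0, fn_add,
      fn_sub]
    refine fn_lcmem _ _ _ (fun i hi => hmem i ?_ ?_)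
    · rintro rfl
      apply hi
      simp [Pi.single_eq_of_ne (Ne.symm hj0)]
    · rintro rfl
      apply hi
      simp [Pi.single_eq_of_ne hj0]
  · refine ⟨_, f.hlast, ?_⟩
    have e : f.b j + -f.e + f.b 0 - ((∑ l, f.b l) - f.e) =
        lc f.b ((Pi.single j (1 : F) + Pi.single 0 (1 : F) : Fin (n + 1) → F) - fun _ => (1 : F)) := by
      rw [fn_all (F := F), ← fn_sub, ← fn_add, fn_single, fn_single]
      abel
    rw [e]
    refine fn_lcmem _ _ _ (fun i hi => hmem i ?_ ?_)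
    · rintro rfl
      apply hi
      simp [Pi.single_eq_of_ne (Ne.symm hj0)]
    · rintro rfl
      apply hi
      simp [Pi.single_eq_of_ne hj0]

end Pool.Agent.H9.Bry
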