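import Mathlib
import Pool.Agent.H9.Bry.K3

set_option autoImplicit false

namespace Pool.Agent.H9.Bry

open Finset

theorem fs_phi {F V : Type*} [Field F] [AddCommGroup V] [Module F V] {X : Set V}
    {n : ℕ} (f : PFan F X n) (a : Fin (n + 1) → F) : f.φ (lc f.b a) = a := by
  ext k
  simp [lc, map_sum, f.φb, Finset.sum_apply, Pi.single_apply]

theorem fs_van {F V : Type*} [Field F] [AddCommGroup V] [Module F V] {Z : Set V}
    (g : V →ₗ[F] F) (hg : ∀ z ∈ Z, g z = 0) {u : V} (hu : u ∈ Submodule.span F Z) : g u = 0 :=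
  (Submodule.span_le.2 (fun z hz => hg z hz) : Submodule.span F Z ≤ LinearMap.ker g) hu

theorem fs_lcmem {F V : Type*} [Field F] [AddCommGroup V] [Module F V] {m : ℕ}
    (b : Fin m → V) (d : Fin m → F) (Z : Set V) (h : ∀ i, d i ≠ 0 → b i ∈ Z) :
    lc b d ∈ Submodule.span F Z := by
  refine Submodule.sum_mem _ (fun i _ => ?_)
  by_cases h0 : d i = 0
  · simp [h0]
  · exact Submodule.smul_mem _ _ (Submodule.subset_span (h i h0))

open Classical in
theorem fan_share {F V : Type*} [Field F] [Fintype F] [AddCommGroup V] [Module F V] {X : Set V}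
    (hK : K4Free F X) (hc : IsCone F X) {n : ℕ} (f : PFan F X n) (j : Fin (n + 1))
    {a a' : Fin (n + 1) → F} (hne : a ≠ a') (hj : a j = a' j) (hj0 : a j ≠ 0) :
    (fibT F X f.e (lc f.b a) ∩ fibT F X f.e (lc f.b a')).card ≤ 1 := by
  by_contra hcon
  push Not at hcon
  obtain ⟨s, hs, t, ht, hst⟩ := Finset.one_lt_card.1 hcon
  simp only [Finset.mem_inter, fibT, Finset.mem_filter, Finset.mem_univ, true_and] at hs ht
  set W : Set V := f.b '' {i | i ≠ j} with hW
  have hφj : ∀ z ∈ insert f.e W, (LinearMap.proj j ∘ₗ f.φ : V →ₗ[F] F) z = 0 := by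
    intro z hz
    rcases hz with rfl | ⟨i, hi, rfl⟩
    · simp [f.φe]
    · simp only [LinearMap.comp_apply, f.φb, LinearMap.proj_apply]
      exact Pi.single_eq_of_ne (Ne.symm hi) _
  refine pair_share hK hc (W₀ := W) (Set.toFinite _) ?_ (e := f.e) (x := lc f.b a)
    (x' := lc f.b a') f.he ?_ ?_ ?_ ?_ hst hs.1 ht.1 hs.2 ht.2
  · rintro _ ⟨i, _, rfl⟩; exact f.hb i
  · intro h
    have := fs_van _ hφj h
    simp only [LinearMap.comp_apply, fs_phi, LinearMap.proj_apply] at this
    exact hj0 this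
  · intro h
    have := fs_van f.ε (Z := W) (by rintro _ ⟨i, _, rfl⟩; exact f.εb i) h
    rw [f.εe] at this
    exact one_ne_zero this
  · have : lc f.b a - lc f.b a' = lc f.b (a - a') := by
      simp [lc, ← Finset.sum_sub_distrib, sub_smul]
    rw [this]
    refine fs_lcmem _ _ _ (fun i hi => ⟨i, ?_, rfl⟩)
    rintro rfl
    exact hi (by simp [hj])
  · intro h
    apply hne
    rw [← fs_phi f a, h, fs_phi]

end Pool.Agent.H9.Bry
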