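import Mathlib
import Pool.Agent.H9.Bry.Defs

set_option autoImplicit false

namespace Pool.Agent.H9.Bry

open Finset

theorem fan_zero {F V : Type*} [Field F] [Fintype F] [AddCommGroup V] [Module F V] {X : Set V}
    (hK : K4Free F X) (hc : IsCone F X) {n : ℕ} (f : PFan F X n)
    (P : Finset (Fin (n + 1) → F)) (hP : P.Nonempty)
    (top : (Fin (n + 1) → F) → Fin (n + 1)) (c : (Fin (n + 1) → F) → F)
    (h0 : ∀ w ∈ P, w 0 = 0) (ht : ∀ w ∈ P, w (top w) ≠ 0)
    (hd : ∀ w ∈ P, ∀ w' ∈ P, w ≠ w' → w' (top w) = 0) (hc0 : ∀ w ∈ P, c w ≠ 0)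
    (hX : ∀ w ∈ P, c w ∈ fibT F X f.e (lc f.b w))
    (hsum : ∑ w ∈ P, c w / w (top w) = 0) : False := by
  classical
  have hXX : ∀ w ∈ P, lc f.b w + c w • f.e ∈ X := by
    intro w hw
    have := hX w hw
    simpa [fibT] using this
  -- the index set
  set J : Finset (Fin (n + 1)) := P.image top with hJ
  have hJne : J.Nonempty := hP.image top
  obtain ⟨ws, hws, hjs⟩ : ∃ ws ∈ P, top ws = J.max' hJne := by
    obtain ⟨w, hw, hw'⟩ := Finset.mem_image.mp (J.max'_mem hJne)
    exact ⟨w, hw, hw'⟩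
  set js := top ws with hjsdef
  have hmax : ∀ w ∈ P, top w ≤ js := by
    intro w hw
    rw [hjs]
    exact J.le_max' _ (Finset.mem_image_of_mem top hw)
  have hinj : ∀ w ∈ P, ∀ w' ∈ P, top w = top w' → w = w' := by
    intro w hw w' hw' h
    by_contra hne
    exact ht w' hw' (h ▸ hd w hw w' hw' hne)
  have htop0 : ∀ w ∈ P, top w ≠ 0 := by
    intro w hw h
    exact ht w hw (h ▸ h0 w hw)
  have hjs0 : js ≠ 0 := htop0 ws hws
  have hjspos : 0 < js := Fin.pos_iff_ne_zero.mpr hjs0
  set Z : Set V := {x | ∃ j : Fin (n + 1), j ≠ 0 ∧ j ∉ J ∧ x = f.b j} ∪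
    {x | ∃ w ∈ P, w ≠ ws ∧ x = lc f.b w + c w • f.e} with hZ
  have hZX : Z ⊆ X := by
    rintro x (⟨j, _, _, rfl⟩ | ⟨w, hw, _, rfl⟩)
    · exact f.hb j
    · exact hXX w hw
  set π : V →ₗ[F] V ⧸ Submodule.span F Z := (Submodule.span F Z).mkQ with hπ
  have hπ0 : ∀ u, π u = 0 ↔ u ∈ Submodule.span F Z := by
    intro u
    rw [hπ, Submodule.mkQ_apply, Submodule.Quotient.mk_eq_zero]
  have hMM : ∀ u x, x ∈ X → π u = π x → MemMod F X Z u := by
    intro u x hx h
    refine ⟨x, hx, ?_⟩
    rw [← hπ0, map_sub, h, sub_self]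
  have h1 : ∀ l : Fin (n + 1), l ≠ 0 → l ∉ J → π (f.b l) = 0 := by
    intro l hl hlJ
    rw [hπ0]
    exact Submodule.subset_span (Or.inl ⟨l, hl, hlJ, rfl⟩)
  have hlcπ : ∀ w ∈ P, π (lc f.b w) = w (top w) • π (f.b (top w)) := by
    intro w hw
    rw [lc, map_sum]
    rw [Finset.sum_eq_single (top w)]
    · rw [map_smul]
    · intro j _ hj
      rw [map_smul]
      by_cases hj0 : j = 0
      · rw [hj0, h0 w hw, zero_smul]
      by_cases hjJ : j ∈ J
      · rw [hJ, Finset.mem_image] at hjJ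
        obtain ⟨w', hw', rfl⟩ := hjJ
        have : w' ≠ w := fun h => hj (by rw [h])
        rw [hd w' hw' w hw this, zero_smul]
      · rw [h1 j hj0 hjJ, smul_zero]
    · intro h
      exact absurd (Finset.mem_univ _) h
  have h2 : ∀ w ∈ P, w ≠ ws → π (f.b (top w)) = -(c w / w (top w)) • π f.e := by
    intro w hw hne
    have h3 : π (lc f.b w + c w • f.e) = 0 := by
      rw [hπ0]
      exact Submodule.subset_span (Or.inr ⟨w, hw, hne, rfl⟩)
    rw [map_add, hlcπ w hw, map_smul] at h3
    have h4 : π (f.b (top w)) = (w (top w))⁻¹ • (w (top w) • π (f.b (top w))) := by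
      rw [smul_smul, inv_mul_cancel₀ (ht w hw), one_smul]
    rw [h4, eq_neg_of_add_eq_zero_left h3, smul_neg, smul_smul, neg_smul, div_eq_inv_mul]
  set γ : F := c ws / ws (top ws) with hγ
  have hγ0 : γ ≠ 0 := div_ne_zero (hc0 ws hws) (ht ws hws)
  have hsum' : ∑ w ∈ P.erase ws, -(c w / w (top w)) = γ := by
    rw [Finset.sum_neg_distrib]
    rw [← Finset.add_sum_erase P _ hws] at hsum
    rw [eq_comm, hγ]
    exact eq_neg_of_add_eq_zero_left hsum
  have hJer : (P.erase ws).image top = J.erase js := by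
    ext j
    simp only [Finset.mem_image, Finset.mem_erase, hJ]
    constructor
    · rintro ⟨w, ⟨hne, hw⟩, rfl⟩
      exact ⟨fun h => hne (hinj w hw ws hws h), w, hw, rfl⟩
    · rintro ⟨hne, w, hw, rfl⟩
      exact ⟨w, ⟨fun h => hne (by rw [h]), hw⟩, rfl⟩
  have hS : π (∑ l ∈ Finset.Iio js, f.b l) = π (f.b 0) + γ • π f.e := by
    rw [map_sum]
    have h0mem : (0 : Fin (n + 1)) ∈ Finset.Iio js := Finset.mem_Iio.mpr hjspos
    rw [← Finset.add_sum_erase _ _ h0mem]
    congr 1
    have hsub : J.erase js ⊆ (Finset.Iio js).erase 0 := by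
      intro j hj
      rw [← hJer, Finset.mem_image] at hj
      obtain ⟨w, hw, rfl⟩ := hj
      rw [Finset.mem_erase] at hw
      rw [Finset.mem_erase, Finset.mem_Iio]
      refine ⟨htop0 w hw.2, lt_of_le_of_ne (hmax w hw.2) ?_⟩
      intro h
      exact hw.1 (hinj w hw.2 ws hws h)
    rw [← Finset.sum_subset hsub]
    · rw [← hJer, Finset.sum_image]
      · rw [← hsum', Finset.sum_smul]
        apply Finset.sum_congr rfl
        intro w hw
        rw [Finset.mem_erase] at hw
        exact h2 w hw.2 hw.1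
      · intro w hw w' hw' h
        exact hinj w (Finset.mem_of_mem_erase hw) w' (Finset.mem_of_mem_erase hw') h
    · intro j hj hj'
      rw [Finset.mem_erase, Finset.mem_Iio] at hj
      apply h1 j hj.1
      intro hjJ
      exact hj' (Finset.mem_erase.mpr ⟨ne_of_lt hj.2, hjJ⟩)
  -- prefix sums
  have hpre : ∑ l ∈ Finset.Iio js, f.b l ∈ X := by
    have hpred : Finset.Iio js = Finset.Iic (js.pred hjs0).castSucc := by
      ext j
      rw [Finset.mem_Iio, Finset.mem_Iic, Fin.lt_def, Fin.le_def]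
      have hv : (js : ℕ) ≠ 0 := fun h => hjs0 (Fin.ext h)
      simp
      omega
    rw [hpred]
    exact f.hs _
  have hfull : ∑ l ∈ Finset.Iic js, f.b l = ∑ l ∈ Finset.Iio js, f.b l + f.b js := by
    rw [← Finset.Iio_insert js, Finset.sum_insert (by simp), add_comm]
  have hπfull : π (∑ l ∈ Finset.Iic js, f.b l) = π (f.b 0) + γ • π f.e + π (f.b js) := by
    rw [hfull, map_add, hS]
  have hws' : π (lc f.b ws + c ws • f.e) = ws js • (π (f.b js) + γ • π f.e) := by
    rw [map_add, hlcπ ws hws, map_smul, smul_add, smul_smul, hγ]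
    congr 2
    rw [← hjsdef, mul_div_cancel₀ _ (ht ws hws)]
  refine hK Z hZX (γ • f.e) (-(∑ l ∈ Finset.Iic js, f.b l)) (f.b 0) ?_ ?_ ?_ ?_ ?_ ?_ ?_
  · intro c₁ c₂ c₃ h
    -- functionals vanishing on Z
    have key : ∀ ψ : V →ₗ[F] F, (∀ j : Fin (n + 1), j ≠ 0 → j ∉ J → ψ (f.b j) = 0) →
        (∀ w ∈ P, w ≠ ws → ψ (lc f.b w + c w • f.e) = 0) →
        ψ (c₁ • γ • f.e + c₂ • -(∑ l ∈ Finset.Iic js, f.b l) + c₃ • f.b 0) = 0 := by
      intro ψ hψ1 hψ2
      have hle : Submodule.span F Z ≤ LinearMap.ker ψ := by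
        rw [Submodule.span_le]
        rintro x (⟨j, hj, hjJ, rfl⟩ | ⟨w, hw, hne, rfl⟩)
        · exact hψ1 j hj hjJ
        · exact hψ2 w hw hne
      exact hle h
    have hφlc : ∀ (w : Fin (n + 1) → F) (i : Fin (n + 1)), f.φ (lc f.b w) i = w i := by
      intro w i
      rw [lc, map_sum, Finset.sum_apply, Finset.sum_eq_single i]
      · rw [map_smul, f.φb, Pi.smul_apply, Pi.single_eq_same, smul_eq_mul, mul_one]
      · intro j _ hj
        rw [map_smul, f.φb, Pi.smul_apply, Pi.single_eq_of_ne hj.symm, smul_zero]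
      · intro h'
        exact absurd (Finset.mem_univ _) h'
    have hεlc : ∀ (w : Fin (n + 1) → F), f.ε (lc f.b w) = 0 := by
      intro w
      rw [lc, map_sum]
      apply Finset.sum_eq_zero
      intro j _
      rw [map_smul, f.εb, smul_zero]
    let φi : Fin (n + 1) → (V →ₗ[F] F) := fun i => (LinearMap.proj i).comp f.φ
    have hφi : ∀ i x, φi i x = f.φ x i := fun i x => rfl
    have hφib : ∀ i j, φi i (f.b j) = if i = j then 1 else 0 := by
      intro i j
      rw [hφi, f.φb, Pi.single_apply]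
    have hφie : ∀ i, φi i f.e = 0 := by
      intro i
      rw [hφi, f.φe]; rfl
    have hφilc : ∀ i w, φi i (lc f.b w) = w i := fun i w => hφlc w i
    have hφis : ∀ i, φi i (∑ l ∈ Finset.Iic js, f.b l) = if i ≤ js then 1 else 0 := by
      intro i
      rw [map_sum]
      simp only [hφib]
      rw [Finset.sum_ite_eq]
      simp
    have hεs : f.ε (∑ l ∈ Finset.Iic js, f.b l) = 0 := by
      rw [map_sum]
      exact Finset.sum_eq_zero fun j _ => f.εb j
    have e1 := key (φi js) (by
      intro j _ hjJ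
      rw [hφib, if_neg]
      rintro rfl
      exact hjJ (Finset.mem_image_of_mem top hws)) (by
      intro w hw hne
      rw [map_add, hφilc, map_smul, hφie, smul_zero, add_zero]
      exact hd ws hws w hw (Ne.symm hne))
    rw [map_add, map_add, map_smul, map_smul, map_smul, map_smul, map_neg, hφie, hφis, hφib,
      if_pos le_rfl, if_neg hjs0, smul_zero, smul_zero, smul_zero, zero_add, add_zero,
      smul_eq_mul] at e1
    have hc2 : c₂ = 0 := by
      have : c₂ * -1 = 0 := e1
      simpa using this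
    have e2 := key (φi 0) (by
      intro j hj _
      rw [hφib, if_neg (Ne.symm hj)]) (by
      intro w hw hne
      rw [map_add, hφilc, map_smul, hφie, smul_zero, add_zero]
      exact h0 w hw)
    rw [hc2, zero_smul, add_zero, map_add, map_smul, map_smul, map_smul, hφie, hφib,
      if_pos rfl, smul_zero, smul_zero, zero_add, smul_eq_mul, mul_one] at e2
    have e3 := key (f.ε - ∑ w ∈ P.erase ws, (c w / w (top w)) • φi (top w)) (by
      intro j _ hjJ
      rw [LinearMap.sub_apply, f.εb, zero_sub, neg_eq_zero, LinearMap.sum_apply]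
      apply Finset.sum_eq_zero
      intro w hw
      rw [LinearMap.smul_apply, hφib, if_neg, smul_zero]
      rintro rfl
      exact hjJ (Finset.mem_image_of_mem top (Finset.mem_of_mem_erase hw))) (by
      intro w hw hne
      rw [LinearMap.sub_apply, LinearMap.sum_apply, map_add, hεlc, map_smul, f.εe, zero_add,
        smul_eq_mul, mul_one, Finset.sum_eq_single w]
      · rw [LinearMap.smul_apply, map_add, hφilc, map_smul, hφie, smul_zero, add_zero,
          smul_eq_mul, div_mul_cancel₀ _ (ht w hw), sub_self]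
      · intro w' hw' hne'
        rw [Finset.mem_erase] at hw'
        rw [LinearMap.smul_apply, map_add, hφilc, map_smul, hφie, smul_zero, add_zero,
          hd w' hw'.2 w hw hne', smul_zero]
      · intro h'
        exact absurd (Finset.mem_erase.mpr ⟨hne, hw⟩) h')
    rw [hc2, e2, zero_smul, zero_smul, add_zero, add_zero, map_smul, map_smul,
      LinearMap.sub_apply, f.εe, LinearMap.sum_apply] at e3
    have hz : ∑ w ∈ P.erase ws, ((c w / w (top w)) • φi (top w)) f.e = 0 := by
      apply Finset.sum_eq_zero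
      intro w _
      rw [LinearMap.smul_apply, hφie, smul_zero]
    rw [hz, sub_zero, smul_eq_mul, smul_eq_mul, mul_one] at e3
    exact ⟨(mul_eq_zero.mp e3).resolve_right hγ0, hc2, e2⟩
  · exact hMM _ _ (hc γ _ f.he) rfl
  · refine hMM _ _ (hc (-1) _ (f.hs js)) ?_
    rw [neg_one_smul]
  · exact hMM _ _ (f.hb 0) rfl
  · refine hMM _ _ hpre ?_
    rw [map_add, map_smul, hS]
  · refine hMM _ ((-(ws js)⁻¹) • (lc f.b ws + c ws • f.e)) (hc _ _ (hXX ws hws)) ?_
    rw [map_add, map_neg, hπfull, map_smul, hws', smul_smul, neg_mul,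
      inv_mul_cancel₀ (ht ws hws), neg_one_smul]
    abel
  · refine hMM _ ((-1 : F) • f.b js) (hc _ _ (f.hb js)) ?_
    rw [map_add, map_add, map_neg, hπfull, map_smul, map_smul, neg_one_smul]
    abel

end Pool.Agent.H9.Bry
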