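import Mathlib

set_option autoImplicit false

namespace Pool.Agent.H9.Bry

open Finset

/-- a last coordinate at which `w` is nonzero -/
theorem GREEDY_top {F : Type*} [Zero F] [DecidableEq F] {n : ℕ} [NeZero n] :
    ∃ top : (Fin n → F) → Fin n, ∀ w, w ≠ 0 → w (top w) ≠ 0 ∧ ∀ j, top w < j → w j = 0 := by
  have h : ∀ w : Fin n → F, ∃ i : Fin n, w ≠ 0 → w i ≠ 0 ∧ ∀ j, i < j → w j = 0 := by
    intro w
    by_cases hw : w = 0
    · exact ⟨0, fun h => absurd hw h⟩
    · have hne : (univ.filter (fun i => w i ≠ 0)).Nonempty := by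
        by_contra hcon
        rw [not_nonempty_iff_eq_empty, filter_eq_empty_iff] at hcon
        apply hw
        ext i
        simpa using hcon (mem_univ i)
      refine ⟨(univ.filter (fun i => w i ≠ 0)).max' hne, fun _ => ⟨?_, ?_⟩⟩
      · have := max'_mem _ hne
        simpa using this
      · intro j hj
        by_contra hcon
        exact absurd (le_max' (univ.filter (fun i => w i ≠ 0)) j (by simpa using hcon))
          (not_le.2 hj)
  choose top htop using h
  exact ⟨top, htop⟩

theorem greedy_picks {F : Type*} [Zero F] [DecidableEq F] {n : ℕ} [NeZero n]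
    (S : Finset (Fin n → F))
    (wt : (Fin n → F) → ℕ) (K : ℕ) (h0 : ∀ w ∈ S, w ≠ 0)
    (hK : ∀ j, ∑ w ∈ S with w j ≠ 0, wt w ≤ K) :
    ∃ (P : Finset (Fin n → F)) (top : (Fin n → F) → Fin n), P ⊆ S ∧
      (∀ w ∈ P, w (top w) ≠ 0) ∧ (∀ w ∈ P, ∀ w' ∈ P, w ≠ w' → w' (top w) = 0) ∧
      ∑ w ∈ S, wt w ≤ K * P.card := by
  classical
  obtain ⟨top, htop⟩ := GREEDY_top (F := F) (n := n)
  suffices H : ∀ (m : ℕ) (S : Finset (Fin n → F)), S.card ≤ m → (∀ w ∈ S, w ≠ 0) →
      (∀ j, ∑ w ∈ S with w j ≠ 0, wt w ≤ K) →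
      ∃ P : Finset (Fin n → F), P ⊆ S ∧ (∀ w ∈ P, ∀ w' ∈ P, w ≠ w' → w' (top w) = 0) ∧
      ∑ w ∈ S, wt w ≤ K * P.card by
    obtain ⟨P, hPS, h1, h2⟩ := H S.card S le_rfl h0 hK
    exact ⟨P, top, hPS, fun w hw => (htop w (h0 w (hPS hw))).1, h1, h2⟩
  intro m
  induction m with
  | zero =>
    intro S hS _ _
    have : S = ∅ := card_eq_zero.1 (Nat.le_zero.1 hS)
    subst this
    exact ⟨∅, Subset.refl _, by simp, by simp⟩
  | succ m ih =>
    intro S hS h0 hK
    rcases S.eq_empty_or_nonempty with rfl | hne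
    · exact ⟨∅, Subset.refl _, by simp, by simp⟩
    obtain ⟨w₁, hw₁, hmin⟩ := S.exists_min_image top hne
    set S' := S.filter (fun w => w (top w₁) = 0) with hS'
    have hw₁S' : w₁ ∉ S' := by
      rw [hS', mem_filter]
      exact fun h => (htop w₁ (h0 w₁ hw₁)).1 h.2
    have hlt : S'.card < S.card :=
      card_lt_card ⟨filter_subset _ _, fun h => hw₁S' (h hw₁)⟩
    obtain ⟨P, hPS, hP1, hP2⟩ := ih S' (by omega) (fun w hw => h0 w (mem_of_mem_filter w hw))
      (fun j => le_trans (sum_le_sum_of_subset (by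
        intro w hw
        rw [mem_filter] at hw ⊢
        exact ⟨mem_of_mem_filter w hw.1, hw.2⟩)) (hK j))
    have hw₁P : w₁ ∉ P := fun h => hw₁S' (hPS h)
    refine ⟨insert w₁ P, ?_, ?_, ?_⟩
    · exact insert_subset hw₁ (hPS.trans (filter_subset _ _))
    · have hA : ∀ w ∈ P, w (top w₁) = 0 := by
        intro w hw
        have := hPS hw
        rw [hS', mem_filter] at this
        exact this.2
      have hB : ∀ w ∈ P, w₁ (top w) = 0 := by
        intro w hw
        have hwS : w ∈ S := mem_of_mem_filter w (hPS hw)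
        have h1 : top w₁ ≤ top w := hmin w hwS
        have h2 : top w₁ ≠ top w := by
          intro heq
          have := hA w hw
          rw [heq] at this
          exact (htop w (h0 w hwS)).1 this
        exact (htop w₁ (h0 w₁ hw₁)).2 _ (lt_of_le_of_ne h1 h2)
      intro w hw w' hw' hww
      rw [mem_insert] at hw hw'
      rcases hw with rfl | hw
      · rcases hw' with rfl | hw'
        · exact absurd rfl hww
        · exact hA w' hw'
      · rcases hw' with rfl | hw'
        · exact hB w hw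
        · exact hP1 w hw w' hw' hww
    · rw [card_insert_of_notMem hw₁P]
      have hsplit := sum_filter_add_sum_filter_not S (fun w => w (top w₁) = 0) wt
      have h3 := hK (top w₁)
      have h4 : ∑ w ∈ S with ¬ w (top w₁) = 0, wt w ≤ K := h3
      calc ∑ w ∈ S, wt w = ∑ w ∈ S', wt w + ∑ w ∈ S with ¬ w (top w₁) = 0, wt w := hsplit.symm
        _ ≤ K * P.card + K := add_le_add hP2 h4
        _ = K * (P.card + 1) := by ring

end Pool.Agent.H9.Bry
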