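import Mathlib

set_option autoImplicit false

namespace Pool.Agent.H9.Bry

open Finset

theorem exists_zero_sum {G ι : Type*} [AddCommGroup G] [Fintype G] [DecidableEq ι]
    (P : Finset ι) (γ : ι → G) (h : Fintype.card G ≤ P.card) :
    ∃ P₀ ⊆ P, P₀.Nonempty ∧ ∑ i ∈ P₀, γ i = 0 := by
  classical
  let f : Fin P.card → ι := fun k => (P.equivFin.symm k : ι)
  have hf : Function.Injective f := fun a b hab =>
    P.equivFin.symm.injective (Subtype.ext hab)
  have hfP : ∀ k, f k ∈ P := fun k => (P.equivFin.symm k).2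
  let g : Fin (P.card + 1) → G := fun k =>
    ∑ l ∈ (Finset.univ : Finset (Fin P.card)).filter (fun l : Fin P.card => (l : ℕ) < (k : ℕ)), γ (f l)
  obtain ⟨k, k', hkk, hg⟩ := Fintype.exists_ne_map_eq_of_card_lt g (by simp; omega)
  wlog hlt : (k : ℕ) < k' generalizing k k'
  · refine this k' k (Ne.symm hkk) hg.symm ?_
    have : (k : ℕ) ≠ k' := fun h' => hkk (Fin.ext h')
    omega
  refine ⟨((Finset.univ : Finset (Fin P.card)).filter
    (fun l : Fin P.card => (k : ℕ) ≤ (l : ℕ) ∧ (l : ℕ) < (k' : ℕ))).image f, ?_, ?_, ?_⟩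
  · intro x hx
    rw [Finset.mem_image] at hx
    obtain ⟨l, -, rfl⟩ := hx
    exact hfP l
  · have hk : (k : ℕ) < P.card := by
      have := k'.2
      omega
    exact ⟨f ⟨k, hk⟩, Finset.mem_image_of_mem _ (by simp [hlt])⟩
  · rw [Finset.sum_image (fun a _ b _ hab => hf hab)]
    have h1 : (Finset.univ : Finset (Fin P.card)).filter (fun l : Fin P.card => (l : ℕ) < (k' : ℕ)) =
        (Finset.univ : Finset (Fin P.card)).filter (fun l : Fin P.card => (l : ℕ) < (k : ℕ)) ∪
        (Finset.univ : Finset (Fin P.card)).filter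
          (fun l : Fin P.card => (k : ℕ) ≤ (l : ℕ) ∧ (l : ℕ) < (k' : ℕ)) := by
      ext l
      simp only [Finset.mem_filter, Finset.mem_univ, true_and, Finset.mem_union]
      omega
    have h2 : Disjoint
        ((Finset.univ : Finset (Fin P.card)).filter (fun l : Fin P.card => (l : ℕ) < (k : ℕ)))
        ((Finset.univ : Finset (Fin P.card)).filter
          (fun l : Fin P.card => (k : ℕ) ≤ (l : ℕ) ∧ (l : ℕ) < (k' : ℕ))) := by
      rw [Finset.disjoint_left]
      intro l hl hl'
      simp only [Finset.mem_filter, Finset.mem_univ, true_and] at hl hl'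
      omega
    have h3 : g k' = g k + ∑ l ∈ (Finset.univ : Finset (Fin P.card)).filter
        (fun l : Fin P.card => (k : ℕ) ≤ (l : ℕ) ∧ (l : ℕ) < (k' : ℕ)), γ (f l) := by
      show ∑ l ∈ (Finset.univ : Finset (Fin P.card)).filter (fun l : Fin P.card => (l : ℕ) < (k' : ℕ)),
        γ (f l) = _
      rw [h1, Finset.sum_union h2]
    rw [hg] at h3
    simpa using h3.symm

end Pool.Agent.H9.Bry
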