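import Mathlib
import Pool.Agent.H9.Bry.FS
import Pool.Agent.H9.Bry.FN
import Pool.Agent.H9.Bry.FZ
import Pool.Agent.H9.Bry.CNT
import Pool.Agent.H9.Bry.ZERO
import Pool.Agent.H9.Bry.GREEDY

set_option autoImplicit false

namespace Pool.Agent.H9.Bry

open Finset

/-- a sum over the members with a nonzero value of `g`, from bounds for every value -/
theorem fe_sum_le {A F : Type*} [Fintype F] [DecidableEq F] [Zero F] [DecidableEq A]
    (S : Finset A) (g : A → F) (wt : A → ℕ) (B : ℕ)
    (h : ∀ c : F, c ≠ 0 → ∑ a ∈ S with g a = c, wt a ≤ B) :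
    ∑ a ∈ S with g a ≠ 0, wt a ≤ (Fintype.card F - 1) * B := by
  have h1 : ∑ a ∈ S with g a ≠ 0, wt a
      = ∑ c ∈ (univ : Finset F).erase 0, ∑ a ∈ S with g a = c, wt a := by
    rw [← Finset.sum_fiberwise_of_maps_to (s := S.filter (fun a => g a ≠ 0))
      (t := (univ : Finset F).erase 0) (g := g) (f := wt)]
    · refine Finset.sum_congr rfl fun c hc => ?_
      rw [mem_erase] at hc
      refine Finset.sum_congr ?_ fun _ _ => rfl
      ext a
      simp only [mem_filter]
      constructor
      · rintro ⟨⟨h1, _⟩, h2⟩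
        exact ⟨h1, h2⟩
      · rintro ⟨h1, h2⟩
        exact ⟨⟨h1, by rw [h2]; exact hc.1⟩, h2⟩
    · intro a ha
      rw [mem_filter] at ha
      rw [mem_erase]
      exact ⟨ha.2, mem_univ _⟩
  rw [h1]
  have h2 : ∑ c ∈ (univ : Finset F).erase 0, ∑ a ∈ S with g a = c, wt a
      ≤ ∑ c ∈ (univ : Finset F).erase 0, B := by
    refine Finset.sum_le_sum fun c hc => ?_
    rw [mem_erase] at hc
    exact h c hc.1
  refine h2.trans ?_
  rw [Finset.sum_const, card_erase_of_mem (mem_univ _), Finset.card_univ, smul_eq_mul]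

open Classical in
/-- the part of the sum with `a j ≠ 0` for a fixed `j` -/
theorem fe_part {F V : Type*} [Field F] [Fintype F] [AddCommGroup V] [Module F V] {X : Set V}
    (hK : K4Free F X) (hc : IsCone F X) {n : ℕ} (f : PFan F X n) (j : Fin (n + 1))
    (S : Finset (Fin (n + 1) → F)) :
    ∑ a ∈ S with a j ≠ 0, ((fibT F X f.e (lc f.b a)).card - 1) ≤
      (Fintype.card F - 1) * (Fintype.card F).choose 2 := by
  refine fe_sum_le S (fun a => a j) _ _ fun c hc0 => ?_
  have h := sum_card_sub_one_le (S.filter (fun a => a j = c))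
    (fun a => fibT F X f.e (lc f.b a)) (univ : Finset F) (fun _ _ => subset_univ _) (by
      intro a ha a' ha' hne
      rw [mem_filter] at ha ha'
      exact fan_share hK hc f j hne (ha.2.trans ha'.2.symm) (by rw [ha.2]; exact hc0))
  rwa [Finset.card_univ] at h

open Classical in
theorem fe_part0 {F V : Type*} [Field F] [Fintype F] [AddCommGroup V] [Module F V] {X : Set V}
    (hK : K4Free F X) (hc : IsCone F X) {n : ℕ} (f : PFan F X n) (j : Fin (n + 1))
    (S : Finset (Fin (n + 1) → F)) (hS : ∀ a ∈ S, a 0 = 0) :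
    ∑ a ∈ S with a j ≠ 0, ((fibT F X f.e (lc f.b a)).card - 1) ≤
      (Fintype.card F - 1) * (Fintype.card F - 1).choose 2 := by
  refine fe_sum_le S (fun a => a j) _ _ fun c hc0 => ?_
  have h := sum_card_sub_one_le (S.filter (fun a => a j = c))
    (fun a => fibT F X f.e (lc f.b a)) ((univ : Finset F).erase (-c)) (by
      intro a ha θ hθ
      rw [mem_filter] at ha
      rw [mem_erase]
      refine ⟨?_, mem_univ _⟩
      have h1 := fan_neg hK hc f a (hS a ha.1) j (by rw [ha.2]; exact hc0) θ hθ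
      rwa [ha.2] at h1) (by
      intro a ha a' ha' hne
      rw [mem_filter] at ha ha'
      exact fan_share hK hc f j hne (ha.2.trans ha'.2.symm) (by rw [ha.2]; exact hc0))
  rwa [card_erase_of_mem (mem_univ _), Finset.card_univ] at h

open Classical in
theorem fan_end {F V : Type*} [Field F] [Fintype F] [AddCommGroup V] [Module F V] {X : Set V}
    (hK : K4Free F X) (hc : IsCone F X) {n : ℕ} (f : PFan F X n) :
    ∑ a ∈ (Finset.univ : Finset (Fin (n + 1) → F)).erase 0,
      ((fibT F X f.e (lc f.b a)).card - 1) ≤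
        (Fintype.card F - 1) * (DC (Fintype.card F) - 1) := by
  set q := Fintype.card F with hq
  set T : (Fin (n + 1) → F) → Finset F := fun a => fibT F X f.e (lc f.b a) with hT
  set U := (Finset.univ : Finset (Fin (n + 1) → F)).erase 0 with hU
  set S := U.filter (fun a => a 0 = 0 ∧ 2 ≤ (T a).card) with hS
  have hsplit : ∑ a ∈ U, ((T a).card - 1)
      ≤ ∑ a ∈ U with a 0 ≠ 0, ((T a).card - 1) + ∑ a ∈ S, ((T a).card - 1) := by
    rw [← Finset.sum_filter_add_sum_filter_not U (fun a => a 0 ≠ 0)]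
    refine Nat.add_le_add_left ?_ _
    have h1 : S ⊆ U.filter (fun a => ¬ a 0 ≠ 0) := by
      intro a ha
      rw [hS, mem_filter] at ha
      rw [mem_filter]
      exact ⟨ha.1, by simpa using ha.2.1⟩
    rw [← Finset.sum_subset h1]
    intro a ha hna
    rw [mem_filter] at ha
    have h2 : ¬ 2 ≤ (T a).card := by
      intro h2
      apply hna
      rw [hS, mem_filter]
      exact ⟨ha.1, by simpa using ha.2, h2⟩
    omega
  have hA : ∑ a ∈ U with a 0 ≠ 0, ((T a).card - 1) ≤ (q - 1) * q.choose 2 :=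
    fe_part hK hc f 0 U
  obtain ⟨P, top, hPS, hP1, hP2, hP3⟩ := greedy_picks S (fun a => (T a).card - 1)
    ((q - 1) * (q - 1).choose 2) (by
      intro w hw
      rw [hS, mem_filter, hU, mem_erase] at hw
      exact hw.1.1) (fun j => fe_part0 hK hc f j S (by
      intro a ha
      rw [hS, mem_filter] at ha
      exact ha.2.1))
  have hPq : P.card ≤ q - 1 := by
    by_contra hcon
    have hPq : q ≤ P.card := by omega
    have hch : ∀ w ∈ P, ∃ c ∈ T w, c ≠ 0 := by
      intro w hw
      have h1 := hPS hw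
      rw [hS, mem_filter] at h1
      obtain ⟨c, hc1, hc2⟩ := Finset.exists_mem_ne (s := T w) (by omega) 0
      exact ⟨c, hc1, hc2⟩
    let c : (Fin (n + 1) → F) → F := fun w => if h : w ∈ P then (hch w h).choose else 0
    have hcs : ∀ w ∈ P, c w ∈ T w ∧ c w ≠ 0 := by
      intro w hw
      have : c w = (hch w hw).choose := by simp [c, hw]
      rw [this]
      exact (hch w hw).choose_spec
    obtain ⟨P₀, hP0, hne, hsum⟩ := exists_zero_sum P (fun w => c w / w (top w)) hPq
    refine fan_zero hK hc f P₀ hne top c (fun w hw => ?_) (fun w hw => hP1 w (hP0 hw))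
      (fun w hw w' hw' h => hP2 w (hP0 hw) w' (hP0 hw') h) (fun w hw => (hcs w (hP0 hw)).2)
      (fun w hw => (hcs w (hP0 hw)).1) hsum
    have h1 := hPS (hP0 hw)
    rw [hS, mem_filter] at h1
    exact h1.2.1
  have hB : ∑ a ∈ S, ((T a).card - 1) ≤ (q - 1) * (q - 1).choose 2 * (q - 1) :=
    hP3.trans (Nat.mul_le_mul_left _ hPq)
  have hD : DC q - 1 = q.choose 2 + (q - 1) * (q - 1).choose 2 := by
    unfold DC
    omega
  rw [hD]
  calc ∑ a ∈ U, ((T a).card - 1) ≤ (q - 1) * q.choose 2 + (q - 1) * (q - 1).choose 2 * (q - 1) :=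
        hsplit.trans (Nat.add_le_add hA hB)
    _ = (q - 1) * (q.choose 2 + (q - 1) * (q - 1).choose 2) := by ring

end Pool.Agent.H9.Bry
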