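import Mathlib

set_option autoImplicit false

namespace Pool.Agent.H9.Bry

open Finset

/-- greedy colouring of a set without parallel elements -/
theorem COL_simple {α F V : Type*} [Field F] [Fintype F] [Fintype α] [AddCommGroup V]
    [Module F V] (v : α → V) (E : Set α) (K : ℕ)
    (hcog : ∀ E' : Set α, E' ⊆ E → E'.Nonempty →
      (∀ x ∈ E', ∀ y ∈ E', x ≠ y → ∀ c : F, v x ≠ c • v y) →
      ∃ ψ : V →ₗ[F] F, (∃ x ∈ E', ψ (v x) ≠ 0) ∧
        {x | x ∈ E' ∧ ψ (v x) ≠ 0}.ncard < Fintype.card F ^ K) :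
    ∀ (n : ℕ) (E' : Set α), E'.ncard = n → E' ⊆ E →
      (∀ x ∈ E', ∀ y ∈ E', x ≠ y → ∀ c : F, v x ≠ c • v y) →
      ∃ φ : V →ₗ[F] (Fin K → F), ∀ x ∈ E', φ (v x) ≠ 0 := by
  classical
  intro n
  induction n using Nat.strong_induction_on with
  | _ n ih =>
    intro E' hn hE' hs
    rcases E'.eq_empty_or_nonempty with rfl | hne
    · exact ⟨0, fun x hx => absurd hx (Set.notMem_empty x)⟩
    · obtain ⟨ψ, ⟨x₀, hx₀, hψ⟩, hcard⟩ := hcog E' hE' hne hs
      set E₁ : Set α := {x | x ∈ E' ∧ ψ (v x) = 0} with hE₁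
      have hsub : E₁ ⊆ E' := fun x hx => hx.1
      have hlt : E₁.ncard < n := by
        rw [← hn]
        refine Set.ncard_lt_ncard ?_ (Set.toFinite _)
        refine ⟨hsub, fun h => hψ (h hx₀).2⟩
      obtain ⟨φ₀, hφ₀⟩ := ih _ hlt E₁ rfl (hsub.trans hE')
        (fun x hx y hy => hs x (hsub hx) y (hsub hy))
      -- forbidden values
      set D : Set α := {x | x ∈ E' ∧ ψ (v x) ≠ 0} with hD
      have hbad : ∃ y : Fin K → F, y ∉ (fun x : α => -(ψ (v x))⁻¹ • φ₀ (v x)) '' D := by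
        by_contra hcon
        push Not at hcon
        have h1 : (fun x : α => -(ψ (v x))⁻¹ • φ₀ (v x)) '' D = Set.univ :=
          Set.eq_univ_of_forall hcon
        have h2 := Set.ncard_image_le (f := fun x : α => -(ψ (v x))⁻¹ • φ₀ (v x))
          (Set.toFinite D)
        rw [h1, Set.ncard_univ, Nat.card_eq_fintype_card, Fintype.card_fun,
          Fintype.card_fin] at h2
        omega
      obtain ⟨y, hy⟩ := hbad
      refine ⟨φ₀ + (LinearMap.toSpanSingleton F (Fin K → F) y).comp ψ, ?_⟩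
      intro x hx
      by_cases h0 : ψ (v x) = 0
      · have := hφ₀ x ⟨hx, h0⟩
        simpa [h0] using this
      · intro h
        apply hy
        refine ⟨x, ⟨hx, h0⟩, ?_⟩
        have h1 : φ₀ (v x) = -(ψ (v x) • y) := by
          have h2 : φ₀ (v x) + ψ (v x) • y = 0 := by simpa using h
          exact eq_neg_of_add_eq_zero_left h2
        show -(ψ (v x))⁻¹ • φ₀ (v x) = y
        rw [h1, smul_neg, neg_smul, neg_neg, smul_smul, inv_mul_cancel₀ h0, one_smul]

/-- greedy colouring along small cocircuits -/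
theorem exists_colouring {α F V : Type*} [Field F] [Fintype F] [Fintype α] [AddCommGroup V]
    [Module F V] (v : α → V) (E : Set α) (K : ℕ) (h0 : ∀ x ∈ E, v x ≠ 0)
    (hcog : ∀ E' : Set α, E' ⊆ E → E'.Nonempty →
      (∀ x ∈ E', ∀ y ∈ E', x ≠ y → ∀ c : F, v x ≠ c • v y) →
      ∃ ψ : V →ₗ[F] F, (∃ x ∈ E', ψ (v x) ≠ 0) ∧
        {x | x ∈ E' ∧ ψ (v x) ≠ 0}.ncard < Fintype.card F ^ K) :
    ∃ φ : V →ₗ[F] (Fin K → F), ∀ x ∈ E, φ (v x) ≠ 0 := by
  classical
  -- a maximal subset without parallel elements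
  obtain ⟨E', hmax⟩ := Set.Finite.exists_maximal
    (s := {E' : Set α | E' ⊆ E ∧ ∀ x ∈ E', ∀ y ∈ E', x ≠ y → ∀ c : F, v x ≠ c • v y})
    (Set.toFinite _) ⟨∅, by simp⟩
  obtain ⟨⟨hE', hs⟩, hm⟩ := hmax
  obtain ⟨φ, hφ⟩ := COL_simple v E K hcog _ E' rfl hE' hs
  refine ⟨φ, fun x hx => ?_⟩
  by_cases hxE : x ∈ E'
  · exact hφ x hxE
  · have h1 : ∃ y ∈ E', ∃ c : F, v x = c • v y ∨ v y = c • v x := by
      by_contra hcon
      push Not at hcon
      have h2 := hm (y := insert x E') ⟨Set.insert_subset hx hE', ?_⟩ (Set.subset_insert x E')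
      · exact hxE (h2 (Set.mem_insert x E'))
      · rintro a (rfl | ha) b (rfl | hb) hab c
        · exact absurd rfl hab
        · exact (hcon b hb c).1
        · exact (hcon a ha c).2
        · exact hs a ha b hb hab c
    obtain ⟨y, hy, c, h | h⟩ := h1
    · have hc : c ≠ 0 := by
        rintro rfl
        exact h0 x hx (by simpa using h)
      rw [h, map_smul]
      exact smul_ne_zero hc (hφ y hy)
    · intro h3
      apply hφ y hy
      rw [h, map_smul, h3, smul_zero]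

end Pool.Agent.H9.Bry
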