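import Mathlib
import Pool.Agent.H9.Bry.Defs

set_option autoImplicit false

namespace Pool.Agent.H9.Bry

open Finset

/-- the coordinate maps of a fan show that its length is bounded -/
theorem maxf_bound {F V : Type*} [Field F] [AddCommGroup V] [Module F V]
    [Module.Finite F V] {X : Set V} {n : ℕ} (f : PFan F X n) : n ≤ Module.finrank F V := by
  have hs : Function.Surjective f.φ := by
    intro a
    refine ⟨∑ j, a j • f.b j, ?_⟩
    rw [map_sum]
    simp only [map_smul, f.φb]
    ext i
    simp [Finset.sum_apply, Pi.single_apply]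
  have h1 := LinearMap.finrank_le_finrank_of_surjective (f := f.φ) hs
  rw [Module.finrank_fin_fun] at h1
  omega

/-- a functional separating a vector from a subspace -/
theorem maxf_sep {F V : Type*} [Field F] [AddCommGroup V] [Module F V] (S : Submodule F V)
    (w : V) (hw : w ∉ S) (c : F) : ∃ ψ : V →ₗ[F] F, (∀ x ∈ S, ψ x = 0) ∧ ψ w = c := by
  obtain ⟨g, hg, hgS⟩ := Submodule.exists_le_ker_of_notMem hw
  refine ⟨(c * (g w)⁻¹) • g, fun x hx => ?_, ?_⟩
  · have : g x = 0 := hgS hx
    simp [this]
  · simp [mul_assoc, inv_mul_cancel₀ hg]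

/-- the first step: a fan with one vector -/
theorem maxf_base {F V : Type*} [Field F] [AddCommGroup V] [Module F V] {X : Set V}
    (hc : IsCone F X) {e w : V} (heX : e ∈ X) (ε : V →ₗ[F] F) (hε : ε e = 1) (hw0 : w ≠ 0)
    (hεw : ε w = 0) {s t : F} (hst : s ≠ t) (h1 : w + s • e ∈ X) (h2 : w + t • e ∈ X) :
    Nonempty (PFan F X 0) := by
  have hd : s - t ≠ 0 := sub_ne_zero.mpr hst
  have hnot : w ∉ Submodule.span F {e} := by
    intro h
    obtain ⟨c, rfl⟩ := Submodule.mem_span_singleton.mp h
    rw [map_smul, hε, smul_eq_mul, mul_one] at hεw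
    apply hw0
    rw [hεw, zero_smul]
  obtain ⟨ψ, hψ0, hψw⟩ := maxf_sep _ w hnot (s - t)
  have hψe : ψ e = 0 := hψ0 e (Submodule.mem_span_singleton_self e)
  set b0 : V := (s - t)⁻¹ • (w + s • e) with hb0
  have hb0X : b0 ∈ X := hc _ _ h1
  have hψb : ψ b0 = 1 := by
    rw [hb0, map_smul, map_add, map_smul, hψe, hψw]
    simp [hd]
  have hlast : b0 - e ∈ X := by
    have : b0 - e = (s - t)⁻¹ • (w + t • e) := by
      have he : e = (s - t)⁻¹ • ((s - t) • e) := by rw [inv_smul_smul₀ hd]
      calc b0 - e = b0 - (s - t)⁻¹ • ((s - t) • e) := by rw [← he]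
        _ = _ := by rw [hb0]; module
    rw [this]
    exact hc _ _ h2
  refine ⟨⟨fun _ => b0, e, heX, fun _ => hb0X, ?_, ?_, LinearMap.pi (fun _ => ψ),
    ε - (ε b0) • ψ, ?_, ?_, ?_, ?_⟩⟩
  · intro j
    have : Finset.Iic j = {0} := by
      ext i
      simp [Fin.fin_one_eq_zero i]
    rw [this, Finset.sum_singleton]
    exact hb0X
  · simpa using hlast
  · intro j
    ext i
    rw [Fin.fin_one_eq_zero i, Fin.fin_one_eq_zero j]
    simpa using hψb
  · intro j
    simp [hψb]
  · ext i
    simpa using hψe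
  · simp [hε, hψe]

/-- the extension step -/
theorem maxf_step {F V : Type*} [Field F] [AddCommGroup V] [Module F V] {X : Set V}
    (hc : IsCone F X) {n : ℕ} (f : PFan F X n) {w : V} (hεw : f.ε w = 0)
    (hw : w ∉ Submodule.span F (Set.range f.b)) {s t : F} (hst : s ≠ t)
    (h1 : w + s • f.e ∈ X) (h2 : w + t • f.e ∈ X) :
    Nonempty (PFan F X (n + 1)) := by
  have hd : s - t ≠ 0 := sub_ne_zero.mpr hst
  have hεspan : ∀ x ∈ Submodule.span F (Set.range f.b), f.ε x = 0 := by
    have : Submodule.span F (Set.range f.b) ≤ LinearMap.ker f.ε := by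
      rw [Submodule.span_le]
      rintro _ ⟨j, rfl⟩
      exact f.εb j
    exact fun x hx => this hx
  have hnot : w ∉ Submodule.span F (insert f.e (Set.range f.b)) := by
    intro h
    obtain ⟨c, z, hz, hwz⟩ := Submodule.mem_span_insert.mp h
    have h3 : f.ε w = c := by
      rw [hwz, map_add, map_smul, f.εe, hεspan z hz]
      simp
    rw [hεw] at h3
    rw [← h3, zero_smul, zero_add] at hwz
    exact hw (hwz ▸ hz)
  obtain ⟨ψ, hψ0, hψw⟩ := maxf_sep _ w hnot (s - t)
  have hψe : ψ f.e = 0 := hψ0 _ (Submodule.subset_span (Set.mem_insert _ _))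
  have hψb : ∀ j, ψ (f.b j) = 0 := fun j =>
    hψ0 _ (Submodule.subset_span (Set.mem_insert_of_mem _ ⟨j, rfl⟩))
  set e' : V := (s - t)⁻¹ • (w + s • f.e) with he'
  have he'X : e' ∈ X := hc _ _ h1
  have hψe' : ψ e' = 1 := by
    rw [he', map_smul, map_add, map_smul, hψe, hψw]
    simp [hd]
  have hee' : f.e - e' ∈ X := by
    have : f.e - e' = (-(s - t)⁻¹) • (w + t • f.e) := by
      have he : f.e = (s - t)⁻¹ • ((s - t) • f.e) := by rw [inv_smul_smul₀ hd]
      calc f.e - e' = (s - t)⁻¹ • ((s - t) • f.e) - e' := by rw [← he]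
        _ = _ := by rw [he']; module
    rw [this]
    exact hc _ _ h2
  set bl : V := f.e - ∑ l, f.b l with hbl
  have hblX : bl ∈ X := by
    have : bl = (-1 : F) • ((∑ l, f.b l) - f.e) := by rw [hbl]; module
    rw [this]
    exact hc _ _ f.hlast
  have hψbl : ψ bl = 0 := by
    rw [hbl, map_sub, map_sum, hψe]
    simp [hψb]
  have hεbl : f.ε bl = 1 := by
    rw [hbl, map_sub, map_sum, f.εe]
    simp [f.εb]
  have hφbl : ∀ j, f.φ bl j = -1 := by
    intro j
    rw [hbl, map_sub, map_sum, f.φe]
    simp only [f.φb]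
    simp [Finset.sum_apply, Pi.single_apply]
  set b' : Fin (n + 1 + 1) → V := Fin.snoc (α := fun _ => V) f.b bl with hb'
  have hb'c : ∀ j : Fin (n + 1), b' j.castSucc = f.b j := fun j => by
    rw [hb', Fin.snoc_castSucc]
  have hb'l : b' (Fin.last _) = bl := by rw [hb', Fin.snoc_last]
  set φ' : Fin (n + 1 + 1) → (V →ₗ[F] F) := Fin.snoc (α := fun _ => V →ₗ[F] F)
    (fun j => (LinearMap.proj j).comp f.φ + f.ε - ((f.φ e' j + f.ε e') • ψ))
    (f.ε - (f.ε e') • ψ) with hφ'
  have hφ'c : ∀ (j : Fin (n + 1)) (x : V), φ' j.castSucc x =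
      f.φ x j + f.ε x - (f.φ e' j + f.ε e') * ψ x := fun j x => by
    rw [hφ', Fin.snoc_castSucc]
    simp
  have hφ'l : ∀ x : V, φ' (Fin.last _) x = f.ε x - f.ε e' * ψ x := fun x => by
    rw [hφ', Fin.snoc_last]
    simp
  have hsumb' : ∑ l, b' l = f.e := by
    rw [Fin.sum_univ_castSucc]
    simp only [hb'c, hb'l, hbl]
    abel
  refine ⟨⟨b', e', he'X, ?_, ?_, ?_, LinearMap.pi φ', ψ, ?_, ?_, ?_, hψe'⟩⟩
  · intro j
    refine Fin.lastCases ?_ (fun j => ?_) j
    · rw [hb'l]; exact hblX
    · rw [hb'c]; exact f.hb j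
  · intro j
    refine Fin.lastCases ?_ (fun j => ?_) j
    · have : Finset.Iic (Fin.last (n + 1)) = Finset.univ := by
        ext i; simp [Fin.le_last]
      rw [this, hsumb']
      exact f.he
    · have : Finset.Iic j.castSucc = (Finset.Iic j).map Fin.castSuccEmb := by
        ext i
        simp only [Finset.mem_Iic, Finset.mem_map]
        constructor
        · intro hi
          have hi2 : i.val ≤ j.val := by simpa [Fin.le_def] using hi
          have hil : i.val < n + 1 := by omega
          exact ⟨⟨i.val, hil⟩, by rw [Fin.le_def]; exact hi2, by ext; simp⟩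
        · rintro ⟨a, ha, hai⟩
          rw [← hai]
          exact Fin.castSucc_le_castSucc_iff.mpr ha
      rw [this, Finset.sum_map]
      have h4 : ∑ l ∈ Finset.Iic j, b' (Fin.castSuccEmb l) = ∑ l ∈ Finset.Iic j, f.b l :=
        Finset.sum_congr rfl fun l _ => hb'c l
      rw [h4]
      exact f.hs j
  · rw [hsumb']
    exact hee'
  · intro j
    ext i
    rw [LinearMap.pi_apply]
    refine Fin.lastCases ?_ (fun j => ?_) j
    · rw [hb'l]
      refine Fin.lastCases ?_ (fun i => ?_) i
      · rw [hφ'l, hεbl, hψbl]; simp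
      · rw [hφ'c, hφbl, hεbl, hψbl]
        have : i.castSucc ≠ Fin.last (n + 1) := (Fin.castSucc_lt_last i).ne
        simp [Pi.single_apply, this]
    · rw [hb'c]
      refine Fin.lastCases ?_ (fun i => ?_) i
      · rw [hφ'l, f.εb, hψb]
        have : Fin.last (n + 1) ≠ j.castSucc := (Fin.castSucc_lt_last j).ne'
        simp [Pi.single_apply, this]
      · rw [hφ'c, f.εb, hψb, f.φb]
        by_cases hij : i = j
        · subst hij; simp
        · have : i.castSucc ≠ j.castSucc := fun h => hij (Fin.castSucc_injective _ h)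
          simp [Pi.single_apply, this, hij]
  · intro j
    refine Fin.lastCases ?_ (fun j => ?_) j
    · rw [hb'l]; exact hψbl
    · rw [hb'c]; exact hψb j
  · ext i
    rw [LinearMap.pi_apply]
    refine Fin.lastCases ?_ (fun i => ?_) i
    · rw [hφ'l, hψe']; simp
    · rw [hφ'c, hψe']; simp

open Classical in
theorem exists_good {F V : Type*} [Field F] [Fintype F] [AddCommGroup V] [Module F V]
    [Fintype V] {X : Set V} (hK : K4Free F X) (hc : IsCone F X) (hne : ∃ x ∈ X, x ≠ 0) (B : ℕ)
    (hend : ∀ (n : ℕ) (f : PFan F X n), ∑ a ∈ (Finset.univ : Finset (Fin (n + 1) → F)).erase 0,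
      ((fibT F X f.e (lc f.b a)).card - 1) ≤ B) :
    ∃ e ∈ X, e ≠ 0 ∧ ∃ ε : V →ₗ[F] F, ε e = 1 ∧
      ∑ w ∈ (Finset.univ : Finset V).filter (fun w : V => ε w = 0 ∧ w ≠ 0),
        ((fibT F X e w).card - 1) ≤ B := by
  have htwo : ∀ e w : V, 2 ≤ (fibT F X e w).card →
      ∃ s t : F, s ≠ t ∧ w + s • e ∈ X ∧ w + t • e ∈ X := by
    intro e w h
    obtain ⟨s, hs, t, ht, hst⟩ := Finset.one_lt_card.mp h
    simp only [fibT, Finset.mem_filter, Finset.mem_univ, true_and] at hs ht
    exact ⟨s, t, hst, hs, ht⟩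
  by_cases hex : ∃ n, Nonempty (PFan F X n)
  · -- a fan of maximal length
    obtain ⟨n, hn, hmax⟩ : ∃ n, Nonempty (PFan F X n) ∧ ¬ Nonempty (PFan F X (n + 1)) := by
      by_contra hcon
      push Not at hcon
      obtain ⟨n₀, hn₀⟩ := hex
      have hall : ∀ k, Nonempty (PFan F X (n₀ + k)) := by
        intro k
        induction k with
        | zero => exact hn₀
        | succ k ih => exact hcon _ ih
      obtain ⟨f⟩ := hall (Module.finrank F V + 1)
      have := maxf_bound f
      omega
    obtain ⟨f⟩ := hn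
    refine ⟨f.e, f.he, ?_, f.ε, f.εe, ?_⟩
    · intro h0
      have := f.εe
      rw [h0, map_zero] at this
      exact zero_ne_one this
    · have hinj : Function.Injective (fun a : Fin (n + 1) → F => lc (F := F) f.b a) := by
        intro a a' haa
        simp only at haa
        have h1 : ∀ a : Fin (n + 1) → F, f.φ (lc (F := F) f.b a) = a := by
          intro a
          unfold lc
          rw [map_sum]
          simp only [map_smul, f.φb]
          ext i
          simp [Finset.sum_apply, Pi.single_apply]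
        rw [← h1 a, haa, h1]
      calc ∑ w ∈ (Finset.univ : Finset V).filter (fun w : V => f.ε w = 0 ∧ w ≠ 0),
            ((fibT F X f.e w).card - 1)
          ≤ ∑ w ∈ ((Finset.univ : Finset (Fin (n + 1) → F)).erase 0).image
              (fun a => lc (F := F) f.b a),
            ((fibT F X f.e w).card - 1) := by
            refine Finset.sum_le_sum_of_ne_zero ?_
            intro w hw hw2
            simp only [Finset.mem_filter, Finset.mem_univ, true_and] at hw
            obtain ⟨s, t, hst, h1, h2⟩ := htwo f.e w (by omega)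
            have hmem : w ∈ Submodule.span F (Set.range f.b) := by
              by_contra hnot
              exact hmax (maxf_step hc f hw.1 hnot hst h1 h2)
            obtain ⟨a, ha⟩ := (Submodule.mem_span_range_iff_exists_fun (R := F)).mp hmem
            rw [Finset.mem_image]
            refine ⟨a, ?_, ha⟩
            rw [Finset.mem_erase]
            refine ⟨?_, Finset.mem_univ _⟩
            rintro rfl
            apply hw.2
            rw [← ha]
            simp
        _ = ∑ a ∈ (Finset.univ : Finset (Fin (n + 1) → F)).erase 0,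
            ((fibT F X f.e (lc f.b a)).card - 1) := by
            rw [Finset.sum_image]
            exact fun a _ a' _ h => hinj h
        _ ≤ B := hend n f
  · obtain ⟨e, heX, he0⟩ := hne
    obtain ⟨ε, -, hε⟩ := maxf_sep (⊥ : Submodule F V) e (by simpa using he0) 1
    refine ⟨e, heX, he0, ε, hε, ?_⟩
    have : ∑ w ∈ (Finset.univ : Finset V).filter (fun w : V => ε w = 0 ∧ w ≠ 0),
        ((fibT F X e w).card - 1) = 0 := by
      refine Finset.sum_eq_zero fun w hw => ?_
      simp only [Finset.mem_filter, Finset.mem_univ, true_and] at hw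
      by_contra h
      obtain ⟨s, t, hst, h1, h2⟩ := htwo e w (by omega)
      exact hex ⟨0, maxf_base hc heX ε hε hw.2 hw.1 hst h1 h2⟩
    rw [this]
    exact Nat.zero_le _

end Pool.Agent.H9.Bry
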