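import Mathlib

set_option autoImplicit false

namespace Pool.Agent.H9.Bry

open Finset

open scoped Pointwise in
theorem scherk_aux {G : Type*} [AddCommGroup G] [DecidableEq G] (n : ℕ) :
    ∀ (A B : Finset G), B.card = n → (0 : G) ∈ A → (0 : G) ∈ B →
    (∀ a ∈ A, ∀ b ∈ B, a + b = 0 → a = 0 ∧ b = 0) → A.card + B.card ≤ (A + B).card + 1 := by
  induction n using Nat.strong_induction_on with
  | _ n ih =>
    intro A B hn hA hB h
    by_cases hc : ∀ e ∈ A, ∀ b ∈ B, b + e ∈ A
    · have hB0 : B = {0} := by
        ext b
        simp only [Finset.mem_singleton]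
        constructor
        · intro hb
          have h1 : A.image (fun a => b + a) ⊆ A := by
            intro x hx
            obtain ⟨a, ha, rfl⟩ := Finset.mem_image.1 hx
            exact hc a ha b hb
          have h2 : A.image (fun a => b + a) = A := by
            refine Finset.eq_of_subset_of_card_le h1 ?_
            rw [Finset.card_image_of_injective _ (add_right_injective b)]
          have h3 : (0 : G) ∈ A.image (fun a => b + a) := by rw [h2]; exact hA
          obtain ⟨a, ha, hab⟩ := Finset.mem_image.1 h3
          exact (h a ha b hb (by rw [add_comm]; exact hab)).2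
        · rintro rfl
          exact hB
      subst hB0
      simp
    · push Not at hc
      obtain ⟨e, he, b0, hb0, hbe⟩ := hc
      set A' := A ∪ B.image (fun b => b + e) with hA'
      set B' := B.filter (fun b => b + e ∈ A) with hB'
      have hcard : A'.card + B'.card = A.card + B.card := by
        have h1 : (B'.image (fun b => b + e)) = A ∩ B.image (fun b => b + e) := by
          ext x
          simp only [hB', Finset.mem_image, Finset.mem_filter, Finset.mem_inter]
          constructor
          · rintro ⟨b, ⟨hb, hb'⟩, rfl⟩
            exact ⟨hb', b, hb, rfl⟩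
          · rintro ⟨hx, b, hb, rfl⟩
            exact ⟨b, ⟨hb, hx⟩, rfl⟩
        have h2 : B'.card = (A ∩ B.image (fun b => b + e)).card := by
          rw [← h1, Finset.card_image_of_injective _ (add_left_injective e)]
        have h3 := Finset.card_union_add_card_inter A (B.image (fun b => b + e))
        rw [Finset.card_image_of_injective _ (add_left_injective e)] at h3
        rw [h2, hA']
        exact h3
      have hlt : B'.card < n := by
        rw [← hn]
        refine Finset.card_lt_card ?_
        rw [Finset.ssubset_iff_of_subset (Finset.filter_subset _ _)]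
        exact ⟨b0, hb0, fun hx => hbe (Finset.mem_filter.1 hx).2⟩
      have hsub : A' + B' ⊆ A + B := by
        intro x hx
        obtain ⟨a, ha, b, hb, rfl⟩ := Finset.mem_add.1 hx
        rw [hB', Finset.mem_filter] at hb
        rcases Finset.mem_union.1 ha with ha | ha
        · exact Finset.add_mem_add ha hb.1
        · obtain ⟨b', hb', rfl⟩ := Finset.mem_image.1 ha
          have e1 : b' + e + b = (b + e) + b' := by abel
          rw [e1]
          exact Finset.add_mem_add hb.2 hb'
      have h1 := ih B'.card hlt A' B' rfl (Finset.mem_union_left _ hA)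
        (Finset.mem_filter.2 ⟨hB, by rw [zero_add]; exact he⟩) (by
          intro a ha b hb hab
          rw [hB', Finset.mem_filter] at hb
          rcases Finset.mem_union.1 ha with ha | ha
          · exact h a ha b hb.1 hab
          · obtain ⟨b', hb', rfl⟩ := Finset.mem_image.1 ha
            have e1 : (b + e) + b' = 0 := by rw [← hab]; abel
            have h2 := h _ hb.2 _ hb' e1
            have h3 := h e he b hb.1 (by rw [add_comm]; exact h2.1)
            refine ⟨?_, h3.2⟩
            rw [h2.2, h3.1, add_zero])
      have h2 := Finset.card_le_card hsub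
      omega

open scoped Pointwise in
/-- Scherk's theorem -/
theorem scherk {G : Type*} [AddCommGroup G] [Finite G] [DecidableEq G] (A B : Finset G)
    (hA : (0 : G) ∈ A) (hB : (0 : G) ∈ B)
    (h : ∀ a ∈ A, ∀ b ∈ B, a + b = 0 → a = 0 ∧ b = 0) : A.card + B.card ≤ (A + B).card + 1 :=
  scherk_aux B.card A B rfl hA hB h

open scoped Pointwise in
theorem sum_card_le_of_zero_free {G ι : Type*} [AddCommGroup G] [Fintype G] [DecidableEq G]
    [DecidableEq ι] (S : Finset ι) (Γ : ι → Finset G)
    (h : ∀ S' ⊆ S, S'.Nonempty → ∀ γ : ι → G, (∀ i ∈ S', γ i ∈ Γ i) → ∑ i ∈ S', γ i ≠ 0) :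
    ∑ i ∈ S, (Γ i).card ≤ Fintype.card G - 1 := by
  have key : ∀ T : Finset ι, T ⊆ S → ∃ C : Finset G, (0 : G) ∈ C ∧
      (∀ x ∈ C, ∃ S' ⊆ T, ∃ γ : ι → G, (∀ i ∈ S', γ i ∈ Γ i) ∧ x = ∑ i ∈ S', γ i) ∧
      1 + ∑ i ∈ T, (Γ i).card ≤ C.card := by
    intro T
    induction T using Finset.induction_on with
    | empty =>
      intro _
      refine ⟨{0}, by simp, ?_, by simp⟩
      intro x hx
      refine ⟨∅, Finset.Subset.refl _, fun _ => 0, by simp, ?_⟩
      simpa using hx
    | insert i T hi ih =>
      intro hT
      obtain ⟨C, h0, hC, hcard⟩ := ih ((Finset.subset_insert i T).trans hT)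
      have hiS : i ∈ S := hT (Finset.mem_insert_self i T)
      have h0i : (0 : G) ∉ Γ i := by
        intro h0
        refine h {i} (by simpa using hiS) (by simp) (fun _ => 0) (by simpa using h0) (by simp)
      have hsum : ∀ a ∈ insert (0 : G) (Γ i), ∀ b ∈ C, a + b = 0 → a = 0 ∧ b = 0 := by
        intro a ha b hb hab
        rcases Finset.mem_insert.1 ha with rfl | ha
        · exact ⟨rfl, by simpa using hab⟩
        · exfalso
          obtain ⟨S', hS', γ, hγ, rfl⟩ := hC b hb
          have hiS' : i ∉ S' := fun hh => hi (hS' hh)
          refine h (insert i S') ?_ (Finset.insert_nonempty _ _) (Function.update γ i a) ?_ ?_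
          · exact (Finset.insert_subset_insert i hS').trans hT
          · intro j hj
            rcases Finset.mem_insert.1 hj with rfl | hj
            · simpa using ha
            · have : j ≠ i := fun hh => hiS' (hh ▸ hj)
              rw [Function.update_of_ne this]
              exact hγ j hj
          · rw [Finset.sum_insert hiS', Function.update_self]
            rw [← hab]
            congr 1
            refine Finset.sum_congr rfl fun j hj => ?_
            have : j ≠ i := fun hh => hiS' (hh ▸ hj)
            rw [Function.update_of_ne this]
      have hsch := scherk (insert (0 : G) (Γ i)) C (Finset.mem_insert_self _ _) h0 hsum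
      refine ⟨insert (0 : G) (Γ i) + C, ?_, ?_, ?_⟩
      · have := Finset.add_mem_add (Finset.mem_insert_self (0 : G) (Γ i)) h0
        simpa using this
      · intro x hx
        obtain ⟨a, ha, b, hb, rfl⟩ := Finset.mem_add.1 hx
        obtain ⟨S', hS', γ, hγ, rfl⟩ := hC b hb
        rcases Finset.mem_insert.1 ha with rfl | ha
        · exact ⟨S', hS'.trans (Finset.subset_insert _ _), γ, hγ, by simp⟩
        · have hiS' : i ∉ S' := fun hh => hi (hS' hh)
          refine ⟨insert i S', Finset.insert_subset_insert i hS', Function.update γ i a, ?_, ?_⟩
          · intro j hj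
            rcases Finset.mem_insert.1 hj with rfl | hj
            · simpa using ha
            · have : j ≠ i := fun hh => hiS' (hh ▸ hj)
              rw [Function.update_of_ne this]
              exact hγ j hj
          · rw [Finset.sum_insert hiS', Function.update_self]
            congr 1
            refine Finset.sum_congr rfl fun j hj => ?_
            have : j ≠ i := fun hh => hiS' (hh ▸ hj)
            rw [Function.update_of_ne this]
      · rw [Finset.sum_insert hi]
        rw [Finset.card_insert_of_notMem h0i] at hsch
        omega
  obtain ⟨C, -, -, hcard⟩ := key S (Finset.Subset.refl S)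
  have := Finset.card_le_univ C
  omega

end Pool.Agent.H9.Bry
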