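import Mathlib
import Pool.Agent.H9.Bry.FS
import Pool.Agent.H9.Bry.FZ
import Pool.Agent.H9.Bry.CNT
import Pool.Agent.H9.Bry.SCH

set_option autoImplicit false

namespace Pool.Agent.H9.Bry

open Finset

lemma cls_choose_mono {a b : ℕ} (h : a ≤ b) : a.choose 2 ≤ b.choose 2 :=
  Nat.choose_le_choose 2 h

lemma cls_super (a b : ℕ) : (a + 1).choose 2 + (b + 1).choose 2 ≤ (a + b + 1).choose 2 := by
  have h : ∀ n : ℕ, (n + 1).choose 2 * 2 = (n + 1) * n := by
    intro n
    have := Nat.triangle_succ n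
    rw [Nat.choose_two_right, Nat.add_sub_cancel]
    exact Nat.div_mul_cancel (by
      have := Nat.even_mul_succ_self n
      rw [mul_comm] at this
      exact this.two_dvd)
  have h1 := h a
  have h2 := h b
  have h3 := h (a + b)
  nlinarith [Nat.zero_le (a * b)]

lemma cls_super_sum {ι : Type*} (S : Finset ι) (g : ι → ℕ) :
    ∑ i ∈ S, (g i + 1).choose 2 ≤ (∑ i ∈ S, g i + 1).choose 2 := by
  classical
  induction S using Finset.induction_on with
  | empty => simp
  | insert i S hi ih =>
    rw [sum_insert hi, sum_insert hi]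
    calc (g i + 1).choose 2 + ∑ i ∈ S, (g i + 1).choose 2
        ≤ (g i + 1).choose 2 + (∑ i ∈ S, g i + 1).choose 2 := by omega
      _ ≤ _ := cls_super _ _

open Classical in
/-- the lines meeting the cut set `J` exactly once -/
theorem class_sum {F V : Type*} [Field F] [Fintype F] [AddCommGroup V] [Module F V] {X : Set V}
    (hK : K4Free F X) (hc : IsCone F X) {n : ℕ} (f : PFan F X n) (J : Finset (Fin (n + 1))) :
    ∑ a ∈ (univ : Finset (Fin (n + 1) → F)) with
        (a 0 = 0 ∧ (J.filter (fun j => a j ≠ 0)).card = 1),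
      ((fibT F X f.e (lc f.b a)).card - 1) ≤
        (Fintype.card F - 1) * (Fintype.card F).choose 2 := by
  let T : (Fin (n + 1) → F) → Finset F := fun a => fibT F X f.e (lc f.b a)
  let cls : Fin (n + 1) → Finset (Fin (n + 1) → F) := fun j =>
    univ.filter (fun a => a 0 = 0 ∧ J.filter (fun j => a j ≠ 0) = {j})
  let Γ : Fin (n + 1) → Finset F := fun j =>
    (cls j).biUnion (fun a => ((T a).filter (fun θ => θ ≠ 0)).image (fun θ => θ / a j))
  have hcl : ∀ j, ∀ a ∈ cls j, a 0 = 0 ∧ a j ≠ 0 ∧ j ∈ J ∧ ∀ i ∈ J, a i ≠ 0 → i = j := by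
    intro j a ha
    have h1 : a 0 = 0 ∧ J.filter (fun j => a j ≠ 0) = {j} := (mem_filter.mp ha).2
    have h2 : j ∈ J.filter (fun j => a j ≠ 0) := by rw [h1.2]; exact mem_singleton_self j
    refine ⟨h1.1, (mem_filter.mp h2).2, (mem_filter.mp h2).1, ?_⟩
    intro i hi hai
    have : i ∈ J.filter (fun j => a j ≠ 0) := mem_filter.mpr ⟨hi, hai⟩
    rw [h1.2] at this
    exact mem_singleton.mp this
  -- zero free
  have hzf : ∀ S' ⊆ J, S'.Nonempty → ∀ γ : Fin (n + 1) → F, (∀ i ∈ S', γ i ∈ Γ i) →
      ∑ i ∈ S', γ i ≠ 0 := by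
    intro S' hS' hne γ hγ hsum
    have hex : ∀ i, ∃ (a : Fin (n + 1) → F) (θ : F), i ∈ S' →
        (a ∈ cls i ∧ θ ∈ T a ∧ θ ≠ 0 ∧ θ / a i = γ i) := by
      intro i
      by_cases hi : i ∈ S'
      · obtain ⟨a, ha, h2⟩ := mem_biUnion.mp (hγ i hi)
        obtain ⟨θ, hθ, h3⟩ := mem_image.mp h2
        exact ⟨a, θ, fun _ => ⟨ha, (mem_filter.mp hθ).1, (mem_filter.mp hθ).2, h3⟩⟩
      · exact ⟨0, 0, fun h => absurd h hi⟩
    choose A Θ hA using hex
    have hinj : Set.InjOn A (S' : Set (Fin (n + 1))) := by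
      intro i hi k hk hik
      have h1 := hcl i (A i) (hA i hi).1
      have h2 := hcl k (A k) (hA k hk).1
      rw [← hik] at h2
      exact (h1.2.2.2 k h2.2.2.1 h2.2.1).symm
    let top : (Fin (n + 1) → F) → Fin (n + 1) := Function.invFunOn A (S' : Set (Fin (n + 1)))
    have htop : ∀ i ∈ S', top (A i) = i := fun i hi => hinj.leftInvOn_invFunOn hi
    refine fan_zero hK hc f (S'.image A) (hne.image A) top (fun w => Θ (top w)) ?_ ?_ ?_ ?_ ?_ ?_
    · intro w hw
      obtain ⟨i, hi, rfl⟩ := mem_image.mp hw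
      exact (hcl i _ (hA i hi).1).1
    · intro w hw
      obtain ⟨i, hi, rfl⟩ := mem_image.mp hw
      rw [htop i hi]
      exact (hcl i _ (hA i hi).1).2.1
    · intro w hw w' hw' hww'
      obtain ⟨i, hi, rfl⟩ := mem_image.mp hw
      obtain ⟨k, hk, rfl⟩ := mem_image.mp hw'
      rw [htop i hi]
      by_contra hne'
      have := (hcl k _ (hA k hk).1).2.2.2 i (hS' hi) hne'
      exact hww' (by rw [this])
    · intro w hw
      obtain ⟨i, hi, rfl⟩ := mem_image.mp hw
      simp only [htop i hi]
      exact (hA i hi).2.2.1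
    · intro w hw
      obtain ⟨i, hi, rfl⟩ := mem_image.mp hw
      simp only [htop i hi]
      exact (hA i hi).2.1
    · rw [sum_image hinj, ← hsum]
      apply sum_congr rfl
      intro i hi
      simp only [htop i hi]
      exact (hA i hi).2.2.2
  have hΓ := sum_card_le_of_zero_free J Γ hzf
  -- one class with a fixed value
  have hval : ∀ j, ∀ c : F, ∑ a ∈ (cls j).filter (fun a => a j = c), ((T a).card - 1) ≤
      if c = 0 then 0 else ((Γ j).card + 1).choose 2 := by
    intro j c
    split_ifs with hc0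
    · rw [Finset.sum_eq_zero]
      intro a ha
      exact absurd ((mem_filter.mp ha).2.trans hc0) (hcl j a (mem_filter.mp ha).1).2.1
    · refine le_trans (sum_card_sub_one_le _ T (insert 0 ((Γ j).image (fun γ => γ * c))) ?_ ?_) ?_
      · intro a ha θ hθ
        by_cases hθ0 : θ = 0
        · rw [hθ0]; exact mem_insert_self _ _
        · apply mem_insert_of_mem
          apply mem_image.mpr
          refine ⟨θ / a j, mem_biUnion.mpr ⟨a, (mem_filter.mp ha).1, mem_image.mpr
            ⟨θ, mem_filter.mpr ⟨hθ, hθ0⟩, rfl⟩⟩, ?_⟩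
          rw [← (mem_filter.mp ha).2]
          exact div_mul_cancel₀ _ (hcl j a (mem_filter.mp ha).1).2.1
      · intro a ha a' ha' hne
        exact fan_share hK hc f j hne ((mem_filter.mp ha).2.trans (mem_filter.mp ha').2.symm)
          (hcl j a (mem_filter.mp ha).1).2.1
      · apply cls_choose_mono
        exact (card_insert_le _ _).trans (by
          have := card_image_le (s := Γ j) (f := fun γ => γ * c)
          omega)
  have hclass : ∀ j, ∑ a ∈ cls j, ((T a).card - 1) ≤
      (Fintype.card F - 1) * ((Γ j).card + 1).choose 2 := by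
    intro j
    rw [← sum_fiberwise (cls j) (fun a => a j)]
    refine le_trans (sum_le_sum (fun c _ => hval j c)) ?_
    rw [sum_ite, sum_const_zero, zero_add, sum_const, smul_eq_mul, filter_ne']
    rw [card_erase_of_mem (mem_univ _), card_univ]
  calc ∑ a ∈ (univ : Finset (Fin (n + 1) → F)) with
        (a 0 = 0 ∧ (J.filter (fun j => a j ≠ 0)).card = 1),
      ((fibT F X f.e (lc f.b a)).card - 1)
      ≤ ∑ a ∈ J.biUnion cls, ((T a).card - 1) := by
        apply sum_le_sum_of_subset
        intro a ha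
        obtain ⟨-, h0, h1⟩ := mem_filter.mp ha
        obtain ⟨j, hj⟩ := card_eq_one.mp h1
        have hjJ : j ∈ J := by
          have : j ∈ J.filter (fun j => a j ≠ 0) := by rw [hj]; exact mem_singleton_self j
          exact (mem_filter.mp this).1
        exact mem_biUnion.mpr ⟨j, hjJ, mem_filter.mpr ⟨mem_univ _, h0, hj⟩⟩
    _ = ∑ j ∈ J, ∑ a ∈ cls j, ((T a).card - 1) := by
        apply sum_biUnion
        intro j _ k _ hjk
        rw [Function.onFun, Finset.disjoint_left]
        intro a ha ha'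
        exact hjk ((hcl k a ha').2.2.2 j (hcl j a ha).2.2.1 (hcl j a ha).2.1)
    _ ≤ ∑ j ∈ J, (Fintype.card F - 1) * ((Γ j).card + 1).choose 2 :=
        sum_le_sum (fun j _ => hclass j)
    _ = (Fintype.card F - 1) * ∑ j ∈ J, ((Γ j).card + 1).choose 2 := by rw [mul_sum]
    _ ≤ (Fintype.card F - 1) * (Fintype.card F).choose 2 := by
        apply Nat.mul_le_mul_left
        refine le_trans (cls_super_sum J _) (cls_choose_mono ?_)
        have : 1 ≤ Fintype.card F := Fintype.card_pos
        omega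

end Pool.Agent.H9.Bry
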