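import Mathlib
import Pool.Agent.H9.Bry.Defs

set_option autoImplicit false

namespace Pool.Agent.H9.Bry

open Finset

theorem fd_phi {F V : Type*} [Field F] [AddCommGroup V] [Module F V] {X : Set V}
    {n : ℕ} (f : PFan F X n) (a : Fin (n + 1) → F) : f.φ (lc f.b a) = a := by
  ext k
  simp [lc, map_sum, f.φb, Finset.sum_apply, Pi.single_apply]

theorem fd_eps {F V : Type*} [Field F] [AddCommGroup V] [Module F V] {X : Set V}
    {n : ℕ} (f : PFan F X n) (a : Fin (n + 1) → F) : f.ε (lc f.b a) = 0 := by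
  simp [lc, map_sum, f.εb]

theorem fd_van {F V : Type*} [Field F] [AddCommGroup V] [Module F V] {Z : Set V}
    (g : V →ₗ[F] F) (hg : ∀ z ∈ Z, g z = 0) {u : V} (hu : u ∈ Submodule.span F Z) : g u = 0 :=
  (Submodule.span_le.2 (fun z hz => hg z hz) : Submodule.span F Z ≤ LinearMap.ker g) hu

theorem fd_lcmem {F V : Type*} [Field F] [AddCommGroup V] [Module F V] {m : ℕ}
    (b : Fin m → V) (d : Fin m → F) (Z : Set V) (h : ∀ i, d i ≠ 0 → b i ∈ Z) :
    lc b d ∈ Submodule.span F Z := by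
  refine Submodule.sum_mem _ (fun i _ => ?_)
  by_cases h0 : d i = 0
  · simp [h0]
  · exact Submodule.smul_mem _ _ (Submodule.subset_span (h i h0))

theorem fd_single {F V : Type*} [Field F] [AddCommGroup V] [Module F V] {m : ℕ}
    (b : Fin m → V) (j : Fin m) : lc b (Pi.single j (1 : F)) = b j := by
  simp [lc, Pi.single_apply, ite_smul]

/-- indicator of the prefix -/
def fdPre (F : Type*) [Field F] {m : ℕ} (j : Fin m) : Fin m → F := fun l => if l ≤ j then 1 else 0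

theorem fd_prefix {F V : Type*} [Field F] [AddCommGroup V] [Module F V] {m : ℕ}
    (b : Fin m → V) (j : Fin m) :
    ∑ l ∈ Finset.Iic j, b l = lc b (fdPre F j) := by
  simp only [lc, fdPre, ite_smul, one_smul, zero_smul]
  rw [← Finset.sum_filter]
  congr 1
  ext l; simp

theorem fd_add {F V : Type*} [Field F] [AddCommGroup V] [Module F V] {m : ℕ}
    (b : Fin m → V) (c d : Fin m → F) : lc b (c + d) = lc b c + lc b d := by
  simp [lc, ← Finset.sum_add_distrib, add_smul]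

theorem fd_sub {F V : Type*} [Field F] [AddCommGroup V] [Module F V] {m : ℕ}
    (b : Fin m → V) (c d : Fin m → F) : lc b (c - d) = lc b c - lc b d := by
  simp [lc, ← Finset.sum_sub_distrib, sub_smul]

theorem fd_neg {F V : Type*} [Field F] [AddCommGroup V] [Module F V] {m : ℕ}
    (b : Fin m → V) (d : Fin m → F) : lc b (-d) = - lc b d := by
  simp [lc]

theorem fd_smul {F V : Type*} [Field F] [AddCommGroup V] [Module F V] {m : ℕ}
    (b : Fin m → V) (c : F) (d : Fin m → F) : lc b (c • d) = c • lc b d := by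
  simp [lc, Finset.smul_sum, mul_smul]

theorem fd_aux {F V : Type*} [Field F] [Fintype F] [AddCommGroup V] [Module F V]
    {X : Set V} (hK : K4Free F X) (hc : IsCone F X) {n : ℕ} (f : PFan F X n)
    (a : Fin (n + 1) → F) (h0 : a 0 = 0) (θ : F) (hθ : θ ∈ fibT F X f.e (lc f.b a))
    (hθ0 : θ ≠ 0) (i j : Fin (n + 1)) (hij : i < j) (hai : a i ≠ 0) (haj : a j = a i) :
    False := by
  simp only [fibT, Finset.mem_filter, Finset.mem_univ, true_and] at hθ
  have hi0 : i ≠ 0 := fun h => hai (by rw [h, h0])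
  have hj0 : j ≠ 0 := fun h => hai (by rw [← haj, h, h0])
  have hne : i ≠ j := hij.ne
  set τ := a i with hτ
  set Z : Set V := f.b '' {l | l ≠ 0 ∧ l ≠ i ∧ l ≠ j} ∪ {lc f.b a + θ • f.e} with hZ
  have hmem : ∀ l, l ≠ 0 → l ≠ i → l ≠ j → f.b l ∈ Z :=
    fun l h1 h2 h3 => Or.inl ⟨l, ⟨h1, h2, h3⟩, rfl⟩
  have hlcm : ∀ d : Fin (n + 1) → F, d 0 = 0 → d i = 0 → d j = 0 →
      lc f.b d ∈ Submodule.span F Z := by
    intro d d0 di dj
    refine fd_lcmem _ _ _ (fun l hl => hmem l ?_ ?_ ?_)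
    · rintro rfl; exact hl d0
    · rintro rfl; exact hl di
    · rintro rfl; exact hl dj
  have hz : lc f.b a + θ • f.e ∈ Submodule.span F Z := Submodule.subset_span (Or.inr rfl)
  -- `e' ≡ b i + b j`
  have key : ∀ d : Fin (n + 1) → F, d 0 = 0 → d i = 1 → d j = 1 →
      (-(θ / τ)) • f.e - lc f.b d ∈ Submodule.span F Z := by
    intro d d0 di dj
    have e : (-(θ / τ)) • f.e - lc f.b d =
        (-τ⁻¹) • (lc f.b a + θ • f.e) + lc f.b (τ⁻¹ • a - d) := by
      rw [fd_sub, fd_smul, div_eq_mul_inv]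
      module
    rw [e]
    refine Submodule.add_mem _ (Submodule.smul_mem _ _ hz) (hlcm _ ?_ ?_ ?_)
    · simp [h0, d0]
    · simp [di, ← hτ, hai]
    · simp [dj, haj, hai]
  refine hK Z ?_ ((-(θ / τ)) • f.e) (-(∑ l ∈ Finset.Iic i, f.b l)) (f.b 0)
    ?_ ?_ ?_ ?_ ?_ ?_ ?_
  · rintro _ (⟨l, _, rfl⟩ | rfl)
    · exact f.hb l
    · exact hθ
  · intro c₁ c₂ c₃ h
    rw [fd_prefix (F := F), ← fd_single (F := F) f.b 0] at h
    have v0 : ∀ z ∈ Z, (LinearMap.proj 0 ∘ₗ f.φ : V →ₗ[F] F) z = 0 := by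
      rintro _ (⟨l, hl, rfl⟩ | rfl)
      · simp only [LinearMap.comp_apply, f.φb, LinearMap.proj_apply]
        exact Pi.single_eq_of_ne (Ne.symm hl.1) _
      · simp [fd_phi, f.φe, h0]
    have vi : ∀ z ∈ Z, (LinearMap.proj i ∘ₗ f.φ - (τ / θ) • f.ε : V →ₗ[F] F) z = 0 := by
      rintro _ (⟨l, hl, rfl⟩ | rfl)
      · simp only [LinearMap.sub_apply, LinearMap.smul_apply, LinearMap.comp_apply, f.φb,
          LinearMap.proj_apply, f.εb, smul_zero, sub_zero]
        exact Pi.single_eq_of_ne (Ne.symm hl.2.1) _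
      · simp [fd_phi, fd_eps, f.φe, f.εe, ← hτ, hθ0]
    have vj : ∀ z ∈ Z, (LinearMap.proj j ∘ₗ f.φ - (τ / θ) • f.ε : V →ₗ[F] F) z = 0 := by
      rintro _ (⟨l, hl, rfl⟩ | rfl)
      · simp only [LinearMap.sub_apply, LinearMap.smul_apply, LinearMap.comp_apply, f.φb,
          LinearMap.proj_apply, f.εb, smul_zero, sub_zero]
        exact Pi.single_eq_of_ne (Ne.symm hl.2.2) _
      · simp [fd_phi, fd_eps, f.φe, f.εe, haj, hθ0]
    have e0 := fd_van _ v0 h
    have ei := fd_van _ vi h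
    have ej := fd_van _ vj h
    have p1 : fdPre F i 0 = 1 := by simp [fdPre]
    have p2 : fdPre F i i = 1 := by simp [fdPre]
    have p3 : fdPre F i j = 0 := by simp [fdPre, hij]
    simp only [LinearMap.sub_apply, LinearMap.smul_apply, LinearMap.comp_apply, map_add, map_smul,
      map_neg, f.φe, f.εe, fd_phi, fd_eps, LinearMap.proj_apply, smul_eq_mul,
      Pi.zero_apply, p1, p2, p3, Pi.single_eq_same,
      Pi.single_eq_of_ne hi0, Pi.single_eq_of_ne hj0] at e0 ei ej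
    have hc1 : c₁ = 0 := by
      simpa [hθ0, hai] using ej
    subst hc1
    have hc2 : c₂ = 0 := by simpa using ei
    subst hc2
    refine ⟨rfl, rfl, ?_⟩
    simpa using e0
  · exact ⟨_, hc (-(θ / τ)) _ f.he, by simp⟩
  · exact ⟨(-1 : F) • ∑ l ∈ Finset.Iic i, f.b l, hc _ _ (f.hs i), by simp⟩
  · exact ⟨_, f.hb 0, by simp⟩
  · refine ⟨_, f.hs j, ?_⟩
    rw [fd_prefix (F := F)]
    have e : f.b 0 + (-(θ / τ)) • f.e - lc f.b (fdPre F j) =
        (-(θ / τ)) • f.e - lc f.b (fdPre F j - Pi.single 0 1) := by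
      rw [fd_sub, fd_single]; abel
    rw [e]
    refine key _ ?_ ?_ ?_
    · simp [fdPre]
    · simp [fdPre, hij.le, Pi.single_eq_of_ne hi0]
    · simp [fdPre, Pi.single_eq_of_ne hj0]
  · refine ⟨(-1 : F) • f.b i, hc _ _ (f.hb i), ?_⟩
    rw [fd_prefix (F := F)]
    have e : f.b 0 + -lc f.b (fdPre F i) - (-1 : F) • f.b i =
        lc f.b (Pi.single 0 1 - fdPre F i + Pi.single i 1) := by
      rw [fd_add, fd_sub, fd_single, fd_single]; module
    rw [e]
    refine hlcm _ ?_ ?_ ?_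
    · simp [fdPre, Pi.single_eq_of_ne (Ne.symm hi0)]
    · simp [fdPre, Pi.single_eq_of_ne hi0]
    · simp [fdPre, hij, Pi.single_eq_of_ne hj0, Pi.single_eq_of_ne hne.symm]
  · refine ⟨_, f.hb j, ?_⟩
    rw [fd_prefix (F := F)]
    have e : f.b 0 + (-(θ / τ)) • f.e + -lc f.b (fdPre F i) - f.b j =
        (-(θ / τ)) • f.e - lc f.b (fdPre F i - Pi.single 0 1 + Pi.single j 1) := by
      rw [fd_add, fd_sub, fd_single, fd_single]; abel
    rw [e]
    refine key _ ?_ ?_ ?_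
    · simp [fdPre, Pi.single_eq_of_ne (Ne.symm hj0)]
    · simp [fdPre, Pi.single_eq_of_ne hi0, Pi.single_eq_of_ne hne]
    · simp [fdPre, hij, Pi.single_eq_of_ne hj0]

theorem fan_distinct {F V : Type*} [Field F] [Fintype F] [AddCommGroup V] [Module F V]
    {X : Set V} (hK : K4Free F X) (hc : IsCone F X) {n : ℕ} (f : PFan F X n)
    (a : Fin (n + 1) → F) (h0 : a 0 = 0) (θ : F) (hθ : θ ∈ fibT F X f.e (lc f.b a))
    (hθ0 : θ ≠ 0) (i j : Fin (n + 1)) (hij : i ≠ j) (hai : a i ≠ 0) : a i ≠ a j := by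
  intro h
  rcases lt_or_gt_of_ne hij with h' | h'
  · exact fd_aux hK hc f a h0 θ hθ hθ0 i j h' hai h.symm
  · exact fd_aux hK hc f a h0 θ hθ hθ0 j i h' (h ▸ hai) h

end Pool.Agent.H9.Bry
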