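import Mathlib

set_option autoImplicit false

namespace Pool.Agent.H9.Bry

open Finset

/-- weight of a subset at density `p` -/
noncomputable def rndW {m : ℕ} (p : ℝ) (J : Finset (Fin m)) : ℝ :=
  (∏ _i ∈ J, p) * ∏ _i ∈ univ \ J, (1 - p)

lemma rndW_nonneg {m : ℕ} {p : ℝ} (h0 : 0 ≤ p) (h1 : p ≤ 1) (J : Finset (Fin m)) :
    0 ≤ rndW p J :=
  mul_nonneg (prod_nonneg fun _ _ => h0) (prod_nonneg fun _ _ => by linarith)

lemma rndW_sum {m : ℕ} (p : ℝ) : ∑ J ∈ (univ : Finset (Fin m)).powerset, rndW p J = 1 := by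
  unfold rndW
  rw [← Finset.prod_add]
  simp

lemma rnd_single {m : ℕ} (p : ℝ) (A : Finset (Fin m)) (j : Fin m) (hj : j ∈ A) :
    ∑ J ∈ (univ : Finset (Fin m)).powerset, (if J ∩ A = {j} then rndW p J else 0) =
      p * (1 - p) ^ (A.card - 1) := by
  have h1 : ∀ J : Finset (Fin m), (if J ∩ A = {j} then rndW p J else 0) =
      (∏ i ∈ J, (if i = j then p else if i ∈ A then 0 else p)) *
        ∏ i ∈ univ \ J, (if i = j then 0 else (1 - p)) := by
    intro J
    split_ifs with h
    · unfold rndW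
      congr 1
      · apply prod_congr rfl
        intro i hi
        by_cases hij : i = j
        · rw [if_pos hij]
        · rw [if_neg hij]
          have : i ∉ A := by
            intro hA
            have : i ∈ J ∩ A := mem_inter.mpr ⟨hi, hA⟩
            rw [h, mem_singleton] at this
            exact hij this
          rw [if_neg this]
      · apply prod_congr rfl
        intro i hi
        have hij : i ≠ j := by
          rintro rfl
          have : i ∈ J ∩ A := by rw [h]; exact mem_singleton_self i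
          exact (mem_sdiff.mp hi).2 (mem_inter.mp this).1
        rw [if_neg hij]
    · by_cases hJ : j ∈ J
      · have : ∃ i ∈ J ∩ A, i ≠ j := by
          by_contra hc
          push Not at hc
          apply h
          ext i
          rw [mem_singleton]
          constructor
          · exact hc i
          · rintro rfl
            exact mem_inter.mpr ⟨hJ, hj⟩
        obtain ⟨i, hi, hij⟩ := this
        rw [prod_eq_zero (mem_inter.mp hi).1, zero_mul]
        rw [if_neg hij, if_pos (mem_inter.mp hi).2]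
      · symm
        apply mul_eq_zero_of_right
        exact prod_eq_zero (mem_sdiff.mpr ⟨mem_univ j, hJ⟩) (if_pos rfl)
  rw [sum_congr rfl (fun J _ => h1 J), ← Finset.prod_add]
  have h2 : ∀ i : Fin m, ((if i = j then p else if i ∈ A then 0 else p) +
      (if i = j then 0 else (1 - p))) =
      (if i ∈ A then (if i = j then p else 1 - p) else 1) := by
    intro i
    by_cases hij : i = j
    · subst hij
      simp [hj]
    · by_cases hA : i ∈ A
      · simp [hij, hA]
      · simp [hij, hA]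
  rw [prod_congr rfl (fun i _ => h2 i), Finset.prod_ite_mem, univ_inter,
    ← mul_prod_erase A _ hj, if_pos rfl]
  congr 1
  rw [prod_congr rfl (g := fun _ => 1 - p), prod_const, card_erase_of_mem hj]
  intro i hi
  rw [if_neg (ne_of_mem_erase hi)]

lemma rnd_one {m : ℕ} (p : ℝ) (A : Finset (Fin m)) :
    ∑ J ∈ (univ : Finset (Fin m)).powerset, (if (J ∩ A).card = 1 then rndW p J else 0) =
      A.card * (p * (1 - p) ^ (A.card - 1)) := by
  have h1 : ∀ J : Finset (Fin m), (if (J ∩ A).card = 1 then rndW p J else 0) =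
      ∑ j ∈ A, (if J ∩ A = {j} then rndW p J else 0) := by
    intro J
    split_ifs with h
    · obtain ⟨j, hj⟩ := card_eq_one.mp h
      have hjA : j ∈ A := by
        have : j ∈ J ∩ A := by rw [hj]; exact mem_singleton_self j
        exact (mem_inter.mp this).2
      rw [sum_eq_single j]
      · rw [if_pos hj]
      · intro i _ hij
        rw [if_neg]
        rw [hj]
        intro h'
        exact hij (singleton_injective h').symm
      · intro h'; exact absurd hjA h'
    · symm
      apply sum_eq_zero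
      intro j _
      rw [if_neg]
      intro h'
      rw [h'] at h
      simp at h
  rw [sum_congr rfl (fun J _ => h1 J), sum_comm, sum_congr rfl (fun j hj => rnd_single p A j hj),
    sum_const, nsmul_eq_mul]

lemma rnd_level {F : Type*} [Zero F] [DecidableEq F] {m : ℕ} (S : Finset (Fin m → F))
    (wt : (Fin m → F) → ℕ) (K : ℕ)
    (hcls : ∀ J : Finset (Fin m),
      ∑ a ∈ S with (J.filter (fun j => a j ≠ 0)).card = 1, wt a ≤ K)
    {p : ℝ} (h0 : 0 ≤ p) (h1 : p ≤ 1) :
    ∑ a ∈ S, (wt a : ℝ) * ((univ.filter (fun j => a j ≠ 0)).card *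
      (p * (1 - p) ^ ((univ.filter (fun j => a j ≠ 0)).card - 1))) ≤ K := by
  have h2 : ∀ a : Fin m → F, (wt a : ℝ) * ((univ.filter (fun j => a j ≠ 0)).card *
      (p * (1 - p) ^ ((univ.filter (fun j => a j ≠ 0)).card - 1))) =
      ∑ J ∈ (univ : Finset (Fin m)).powerset,
        (if (J.filter (fun j => a j ≠ 0)).card = 1 then rndW p J * (wt a : ℝ) else 0) := by
    intro a
    rw [← rnd_one, mul_sum]
    apply sum_congr rfl
    intro J _
    have : J ∩ (univ.filter (fun j => a j ≠ 0)) = J.filter (fun j => a j ≠ 0) := by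
      ext j; simp
    rw [this]
    split_ifs
    · ring
    · simp
  rw [sum_congr rfl (fun a _ => h2 a), sum_comm]
  calc ∑ J ∈ (univ : Finset (Fin m)).powerset, ∑ a ∈ S,
        (if (J.filter (fun j => a j ≠ 0)).card = 1 then rndW p J * (wt a : ℝ) else 0)
      ≤ ∑ J ∈ (univ : Finset (Fin m)).powerset, rndW p J * K := by
        apply sum_le_sum
        intro J _
        rw [← sum_filter, ← mul_sum]
        apply mul_le_mul_of_nonneg_left _ (rndW_nonneg h0 h1 J)
        exact_mod_cast hcls J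
    _ = K := by rw [← sum_mul, rndW_sum, one_mul]

lemma rnd_tel (s : ℕ) (hs : 1 ≤ s) (T : ℕ) :
    (1 - (1 / 2 : ℝ) ^ T) ^ s ≤ ∑ t ∈ range T,
      (s : ℝ) * ((1 / 2 : ℝ) ^ (t + 1) * (1 - (1 / 2 : ℝ) ^ (t + 1)) ^ (s - 1)) := by
  induction T with
  | zero => simp only [pow_zero, sub_self, range_zero, sum_empty]; rw [zero_pow (by omega)]
  | succ T ih =>
    rw [sum_range_succ]
    set y : ℝ := 1 - (1 / 2 : ℝ) ^ T with hy
    set x : ℝ := 1 - (1 / 2 : ℝ) ^ (T + 1) with hx
    have hp : (0 : ℝ) < (1 / 2 : ℝ) ^ (T + 1) := by positivity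
    have hT : (1 / 2 : ℝ) ^ T = 2 * (1 / 2 : ℝ) ^ (T + 1) := by rw [pow_succ]; ring
    have hy0 : 0 ≤ y := by
      rw [hy]
      have : (1 / 2 : ℝ) ^ T ≤ 1 := pow_le_one₀ (by norm_num) (by norm_num)
      linarith
    have hyx : y ≤ x := by rw [hy, hx, hT]; linarith
    have hd : x - y = (1 / 2 : ℝ) ^ (T + 1) := by rw [hy, hx, hT]; ring
    have key : x ^ s - y ^ s ≤ (s : ℝ) * ((x - y) * x ^ (s - 1)) := by
      obtain ⟨r, rfl⟩ : ∃ r, s = r + 1 := ⟨s - 1, by omega⟩
      clear hs ih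
      induction r with
      | zero => simp
      | succ r ih =>
        have h1 : y ^ (r + 1) ≤ x ^ (r + 1) := pow_le_pow_left₀ hy0 hyx _
        have hx0 : 0 ≤ x := hy0.trans hyx
        simp only [Nat.add_sub_cancel] at ih ⊢
        have h2 := mul_le_mul_of_nonneg_left ih hx0
        have h3 := mul_le_mul_of_nonneg_left h1 (sub_nonneg.mpr hyx)
        push_cast at h2 ⊢
        calc x ^ (r + 1 + 1) - y ^ (r + 1 + 1)
            = x * (x ^ (r + 1) - y ^ (r + 1)) + (x - y) * y ^ (r + 1) := by ring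
          _ ≤ x * (((r : ℝ) + 1) * ((x - y) * x ^ r)) + (x - y) * x ^ (r + 1) := by
            linarith
          _ = ((r : ℝ) + 1 + 1) * ((x - y) * x ^ (r + 1)) := by ring
    rw [hd] at key
    linarith

/-- averaging over random subsets of the coordinates, at all dyadic densities -/
theorem averaging {F : Type*} [Zero F] [DecidableEq F] {m : ℕ} (S : Finset (Fin m → F))
    (wt : (Fin m → F) → ℕ) (K q : ℕ)
    (hs : ∀ a ∈ S, 1 ≤ (univ.filter (fun j => a j ≠ 0)).card ∧
      (univ.filter (fun j => a j ≠ 0)).card ≤ q)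
    (hcls : ∀ J : Finset (Fin m),
      ∑ a ∈ S with (J.filter (fun j => a j ≠ 0)).card = 1, wt a ≤ K) :
    7 * ∑ a ∈ S, wt a ≤ 8 * (Nat.log 2 q + 4) * K := by
  set T := Nat.log 2 q + 4 with hT
  have h1 : ∀ a ∈ S, (7 / 8 : ℝ) ≤ ∑ t ∈ range T,
      ((univ.filter (fun j => a j ≠ 0)).card : ℝ) * ((1 / 2 : ℝ) ^ (t + 1) *
        (1 - (1 / 2 : ℝ) ^ (t + 1)) ^ ((univ.filter (fun j => a j ≠ 0)).card - 1)) := by
    intro a ha
    obtain ⟨ha1, ha2⟩ := hs a ha
    refine le_trans ?_ (rnd_tel _ ha1 T)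
    set s := (univ.filter (fun j => a j ≠ 0)).card with hsdef
    have hb : (1 : ℝ) + (s : ℝ) * (-(1 / 2 : ℝ) ^ T) ≤ (1 + (-(1 / 2 : ℝ) ^ T)) ^ s := by
      apply one_add_mul_le_pow
      have : (1 / 2 : ℝ) ^ T ≤ 1 := pow_le_one₀ (by norm_num) (by norm_num)
      linarith
    have hq : (q : ℝ) ≤ 2 ^ (Nat.log 2 q + 1) := by
      exact_mod_cast (Nat.lt_pow_succ_log_self (by norm_num) q).le
    have hsq : (s : ℝ) ≤ 2 ^ (Nat.log 2 q + 1) := le_trans (by exact_mod_cast ha2) hq
    have hprod : (s : ℝ) * (1 / 2 : ℝ) ^ T ≤ 1 / 8 := by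
      have hTT : (1 / 2 : ℝ) ^ T = (1 / 2) ^ (Nat.log 2 q + 1) * (1 / 8) := by
        rw [hT, show Nat.log 2 q + 4 = (Nat.log 2 q + 1) + 3 by ring, pow_add]
        norm_num
      rw [hTT, ← mul_assoc]
      have : (s : ℝ) * (1 / 2) ^ (Nat.log 2 q + 1) ≤ 1 := by
        calc (s : ℝ) * (1 / 2) ^ (Nat.log 2 q + 1)
            ≤ 2 ^ (Nat.log 2 q + 1) * (1 / 2) ^ (Nat.log 2 q + 1) :=
              mul_le_mul_of_nonneg_right hsq (by positivity)
          _ = 1 := by rw [← mul_pow]; norm_num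
      linarith
    have e1 : (1 - (1 / 2 : ℝ) ^ T) = (1 + (-(1 / 2 : ℝ) ^ T)) := by ring
    rw [e1]
    refine le_trans ?_ hb
    linarith
  have h2 : ∀ t ∈ range T, ∑ a ∈ S, (wt a : ℝ) * ((univ.filter (fun j => a j ≠ 0)).card *
      ((1 / 2 : ℝ) ^ (t + 1) * (1 - (1 / 2 : ℝ) ^ (t + 1)) ^
        ((univ.filter (fun j => a j ≠ 0)).card - 1))) ≤ K := by
    intro t _
    exact rnd_level S wt K hcls (by positivity) (pow_le_one₀ (by norm_num) (by norm_num))
  have h3 := sum_le_sum h2
  rw [sum_comm, sum_const, card_range, nsmul_eq_mul] at h3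
  have h4 : (7 / 8 : ℝ) * ∑ a ∈ S, (wt a : ℝ) ≤ T * K := by
    refine le_trans ?_ h3
    rw [mul_sum]
    apply sum_le_sum
    intro a ha
    rw [← mul_sum]
    rw [mul_comm]
    exact mul_le_mul_of_nonneg_left (h1 a ha) (Nat.cast_nonneg _)
  have h5 : (7 : ℝ) * ∑ a ∈ S, (wt a : ℝ) ≤ 8 * T * K := by linarith
  exact_mod_cast h5

end Pool.Agent.H9.Bry
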