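import Mathlib
import Pool.Agent.H9.Bry.CLS
import Pool.Agent.H9.Bry.FD
import Pool.Agent.H9.Bry.RND
import Pool.Agent.H9.Bry.FE

set_option autoImplicit false

namespace Pool.Agent.H9.Bry

open Finset

open Classical in
theorem fan_end_large {F V : Type*} [Field F] [Fintype F] [AddCommGroup V] [Module F V]
    {X : Set V} (hK : K4Free F X) (hc : IsCone F X) {n : ℕ} (f : PFan F X n) :
    ∑ a ∈ (Finset.univ : Finset (Fin (n + 1) → F)).erase 0,
      ((fibT F X f.e (lc f.b a)).card - 1) ≤
        (Fintype.card F - 1) * (DC2 (Fintype.card F) - 1) := by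
  set q := Fintype.card F with hq
  set T : (Fin (n + 1) → F) → Finset F := fun a => fibT F X f.e (lc f.b a) with hT
  set U := (Finset.univ : Finset (Fin (n + 1) → F)).erase 0 with hU
  set S := U.filter (fun a => a 0 = 0 ∧ 2 ≤ (T a).card) with hS
  have hsplit : ∑ a ∈ U, ((T a).card - 1)
      ≤ ∑ a ∈ U with a 0 ≠ 0, ((T a).card - 1) + ∑ a ∈ S, ((T a).card - 1) := by
    rw [← Finset.sum_filter_add_sum_filter_not U (fun a => a 0 ≠ 0)]
    refine Nat.add_le_add_left ?_ _
    have h1 : S ⊆ U.filter (fun a => ¬ a 0 ≠ 0) := by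
      intro a ha
      rw [hS, mem_filter] at ha
      rw [mem_filter]
      exact ⟨ha.1, by simpa using ha.2.1⟩
    rw [← Finset.sum_subset h1]
    intro a ha hna
    rw [mem_filter] at ha
    have h2 : ¬ 2 ≤ (T a).card := by
      intro h2
      apply hna
      rw [hS, mem_filter]
      exact ⟨ha.1, by simpa using ha.2, h2⟩
    omega
  have hA : ∑ a ∈ U with a 0 ≠ 0, ((T a).card - 1) ≤ (q - 1) * q.choose 2 :=
    fe_part hK hc f 0 U
  have hSm : ∀ a ∈ S, a ≠ 0 ∧ a 0 = 0 ∧ 2 ≤ (T a).card := by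
    intro a ha
    rw [hS, mem_filter, hU, mem_erase] at ha
    exact ⟨ha.1.1, ha.2.1, ha.2.2⟩
  have hav := averaging S (fun a => (T a).card - 1) ((q - 1) * q.choose 2) q (by
    intro a ha
    obtain ⟨h1, h2, h3⟩ := hSm a ha
    constructor
    · rw [Nat.one_le_iff_ne_zero]
      intro h4
      rw [card_eq_zero] at h4
      apply h1
      funext j
      by_contra h5
      have : j ∈ (univ.filter (fun j => a j ≠ 0)) := by
        rw [mem_filter]
        exact ⟨mem_univ _, h5⟩
      rw [h4] at this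
      exact absurd this (notMem_empty j)
    · obtain ⟨θ, hθ, hθ0⟩ := Finset.exists_mem_ne (s := T a) (by omega) 0
      have h4 : (univ.filter (fun j => a j ≠ 0)).card ≤ (univ : Finset F).card := by
        refine Finset.card_le_card_of_injOn a (fun _ _ => mem_coe.2 (mem_univ _)) ?_
        intro i hi j hj hij
        by_contra hne
        rw [mem_coe, mem_filter] at hi
        exact fan_distinct hK hc f a h2 θ hθ hθ0 i j hne hi.2 hij
      rwa [Finset.card_univ] at h4) (by
    intro J
    refine le_trans ?_ (class_sum hK hc f J)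
    refine Finset.sum_le_sum_of_subset ?_
    intro a ha
    rw [mem_filter] at ha ⊢
    exact ⟨mem_univ _, (hSm a ha.1).2.1, ha.2⟩)
  have hB : ∑ a ∈ S, ((T a).card - 1)
      ≤ (q - 1) * (8 * (Nat.log 2 q + 4) * q.choose 2 / 7 + 1) := by
    set B := 8 * (Nat.log 2 q + 4) * q.choose 2 with hBd
    have h1 : B < 7 * (B / 7 + 1) := by omega
    have h2 : 7 * ∑ a ∈ S, ((T a).card - 1) ≤ (q - 1) * B := by
      refine hav.trans (le_of_eq ?_)
      rw [hBd]
      ring
    have h3 : (q - 1) * B ≤ (q - 1) * (7 * (B / 7 + 1)) := Nat.mul_le_mul_left _ h1.le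
    have h4 : (q - 1) * (7 * (B / 7 + 1)) = 7 * ((q - 1) * (B / 7 + 1)) := by ring
    omega
  have hD : DC2 q - 1 = q.choose 2 + (8 * (Nat.log 2 q + 4) * q.choose 2 / 7 + 1) := by
    unfold DC2
    omega
  rw [hD, Nat.mul_add]
  exact hsplit.trans (Nat.add_le_add hA hB)

end Pool.Agent.H9.Bry
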