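import Mathlib
import Pool.Agent.H9.Bry.Defs

set_option autoImplicit false

namespace Pool.Agent.H9.Bry

open Finset

theorem num_log_le (q : ℕ) (hq : 2 ≤ q) : Nat.log 2 (q.choose 2) ≤ 2 * Nat.log 2 q := by
  have h1 : q < 2 ^ (Nat.log 2 q + 1) := Nat.lt_pow_succ_log_self (by norm_num) q
  have h2 : q.choose 2 < 2 ^ (2 * Nat.log 2 q + 1) := by
    rw [Nat.choose_two_right]
    have h3 : q * (q - 1) < 2 ^ (2 * Nat.log 2 q + 1) * 2 := by
      have e : 2 ^ (2 * Nat.log 2 q + 1) * 2 = 2 ^ (Nat.log 2 q + 1) * 2 ^ (Nat.log 2 q + 1) := by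
        ring
      rw [e]
      calc q * (q - 1) ≤ q * q := Nat.mul_le_mul_left _ (Nat.sub_le _ _)
        _ < 2 ^ (Nat.log 2 q + 1) * 2 ^ (Nat.log 2 q + 1) := Nat.mul_self_lt_mul_self h1
    omega
  have h4 := Nat.log_lt_of_lt_pow (by
    have : 0 < q.choose 2 := Nat.choose_pos hq
    omega) h2
  omega

theorem num_two_choose (n : ℕ) : 2 * (n + 1).choose 2 = (n + 1) * n := by
  rw [Nat.choose_two_right]
  have h : 2 ∣ (n + 1) * (n + 1 - 1) := by
    have := (Nat.even_mul_succ_self n).two_dvd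
    simpa [mul_comm] using this
  have := Nat.mul_div_cancel' h
  simpa using this

theorem num_DC_le (q : ℕ) (hq : 2 ≤ q) : 2 * DC q ≤ q ^ 3 := by
  obtain ⟨n, rfl⟩ : ∃ n, q = n + 2 := ⟨q - 2, by omega⟩
  have h1 := num_two_choose (n + 1)
  have h2 := num_two_choose n
  have e1 : n + 2 - 1 = n + 1 := by omega
  have e : 2 * DC (n + 2) = 2 + (n + 2) * (n + 1) + (n + 1) * ((n + 1) * n) := by
    unfold DC
    rw [e1, ← h2]
    have h1' : 2 * (n + 2).choose 2 = (n + 2) * (n + 1) := h1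
    rw [← h1']
    ring
  rw [e]
  nlinarith

theorem num_small : ∀ q ∈ Finset.Ico 2 32,
    8 * DC q * (DC q - 1) * (Nat.log 2 (q.choose 2) + 2) + 2 * DC q + 2 < q ^ 7 := by
  decide +kernel

theorem num_pow (t : ℕ) : 4 * (t + 5) + 5 ≤ 2 ^ (t + 5) := by
  induction t with
  | zero => norm_num
  | succ t ih =>
    have e : 2 ^ (t + 1 + 5) = 2 * 2 ^ (t + 5) := by ring
    omega

theorem num_bound (q : ℕ) (hq : 2 ≤ q) :
    8 * DC q * (DC q - 1) * (Nat.log 2 (q.choose 2) + 2) + 2 * DC q + 2 < q ^ 7 := by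
  rcases Nat.lt_or_ge q 32 with h | h
  · exact num_small q (Finset.mem_Ico.2 ⟨hq, h⟩)
  · have h1 := num_DC_le q hq
    have h2 := num_log_le q hq
    have ht : 5 ≤ Nat.log 2 q := Nat.le_log_of_pow_le (by norm_num) (by norm_num; exact h)
    have h3 : 2 ^ Nat.log 2 q ≤ q := Nat.pow_log_le_self 2 (by omega)
    have h4 := num_pow (Nat.log 2 q - 5)
    rw [Nat.sub_add_cancel ht] at h4
    set t := Nat.log 2 q with hts
    have h5 : 8 * DC q * (DC q - 1) ≤ 2 * q ^ 6 := by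
      calc 8 * DC q * (DC q - 1) ≤ 8 * DC q * DC q := Nat.mul_le_mul_left _ (Nat.sub_le _ _)
        _ = 2 * (2 * DC q) * (2 * DC q) := by ring
        _ ≤ 2 * q ^ 3 * q ^ 3 := Nat.mul_le_mul (Nat.mul_le_mul_left _ h1) h1
        _ = 2 * q ^ 6 := by ring
    have h6 : q ^ 3 + 2 < q ^ 6 := by
      have h7 : 2 ≤ q ^ 3 := le_trans h (Nat.le_self_pow (by norm_num) q) |> le_trans (by norm_num)
      have h7' : 32 ≤ q ^ 3 := le_trans h (Nat.le_self_pow (by norm_num) q)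
      have e : q ^ 6 = q ^ 3 * q ^ 3 := by ring
      rw [e]
      nlinarith
    calc 8 * DC q * (DC q - 1) * (Nat.log 2 (q.choose 2) + 2) + 2 * DC q + 2
        ≤ 2 * q ^ 6 * (2 * t + 2) + q ^ 3 + 2 := by
          have := Nat.mul_le_mul h5 (Nat.add_le_add_right h2 2)
          omega
      _ < 2 * q ^ 6 * (2 * t + 2) + q ^ 6 := by omega
      _ = (4 * t + 5) * q ^ 6 := by ring
      _ ≤ q * q ^ 6 := Nat.mul_le_mul_right _ (h4.trans h3)
      _ = q ^ 7 := by ring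

end Pool.Agent.H9.Bry
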