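import Mathlib
import Pool.Agent.H9.Bry.Defs

set_option autoImplicit false

namespace Pool.Agent.H9.Bry

open Finset

theorem num2_log_le (q : ℕ) (hq : 2 ≤ q) : Nat.log 2 (q.choose 2) ≤ 2 * Nat.log 2 q := by
  have h1 : q < 2 ^ (Nat.log 2 q + 1) := Nat.lt_pow_succ_log_self (by norm_num) q
  have h2 : q.choose 2 < 2 ^ (2 * Nat.log 2 q + 1) := by
    rw [Nat.choose_two_right]
    have h3 : q * (q - 1) < 2 ^ (2 * Nat.log 2 q + 1) * 2 := by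
      have e : 2 ^ (2 * Nat.log 2 q + 1) * 2 = 2 ^ (Nat.log 2 q + 1) * 2 ^ (Nat.log 2 q + 1) := by
        ring
      rw [e]
      calc q * (q - 1) ≤ q * q := Nat.mul_le_mul_left _ (Nat.sub_le _ _)
        _ < 2 ^ (Nat.log 2 q + 1) * 2 ^ (Nat.log 2 q + 1) := Nat.mul_self_lt_mul_self h1
    omega
  have h4 := Nat.log_lt_of_lt_pow (by
    have : 0 < q.choose 2 := Nat.choose_pos hq
    omega) h2
  omega

theorem num2_two_choose (n : ℕ) : 2 * (n + 1).choose 2 = (n + 1) * n := by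
  rw [Nat.choose_two_right]
  have h : 2 ∣ (n + 1) * (n + 1 - 1) := by
    have := (Nat.even_mul_succ_self n).two_dvd
    simpa [mul_comm] using this
  have := Nat.mul_div_cancel' h
  simpa using this

theorem num2_DC2_le (q : ℕ) (hq : 2 ≤ q) : 14 * DC2 q ≤ (8 * Nat.log 2 q + 39) * q ^ 2 := by
  set t := Nat.log 2 q with ht
  have h1 : 2 * q.choose 2 + q = q ^ 2 := by
    obtain ⟨n, rfl⟩ : ∃ n, q = n + 1 := ⟨q - 1, by omega⟩
    rw [num2_two_choose]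
    ring
  have h2 : 7 * (8 * (t + 4) * q.choose 2 / 7) ≤ 8 * (t + 4) * q.choose 2 :=
    Nat.mul_div_le _ _
  have h3 : 14 * DC2 q ≤ 28 + 14 * q.choose 2 + 16 * (t + 4) * q.choose 2 := by
    unfold DC2
    rw [← ht]
    have h4 : 16 * (t + 4) * q.choose 2 = 2 * (8 * (t + 4) * q.choose 2) := by ring
    rw [h4]
    omega
  have h5 : 14 * q.choose 2 + 16 * (t + 4) * q.choose 2 + (8 * t + 39) * q
      = (8 * t + 39) * q ^ 2 := by
    rw [← h1]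
    ring
  have h6 : 28 ≤ (8 * t + 39) * q := by nlinarith
  omega

theorem num2_key (q : ℕ) (hq : 2 ≤ q) :
    49 * (8 * DC2 q * (DC2 q - 1) * (Nat.log 2 (q.choose 2) + 2) + 2 * DC2 q + 2) ≤
      4 * (Nat.log 2 q + 1) * (8 * Nat.log 2 q + 39) ^ 2 * q ^ 4 +
        7 * (8 * Nat.log 2 q + 39) * q ^ 2 + 98 := by
  have h1 := num2_DC2_le q hq
  have h2 := num2_log_le q hq
  set t := Nat.log 2 q with ht
  have h3 : 49 * (8 * DC2 q * (DC2 q - 1)) ≤ 2 * ((8 * t + 39) * q ^ 2) * ((8 * t + 39) * q ^ 2) := by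
    calc 49 * (8 * DC2 q * (DC2 q - 1)) ≤ 49 * (8 * DC2 q * DC2 q) :=
          Nat.mul_le_mul_left _ (Nat.mul_le_mul_left _ (Nat.sub_le _ _))
      _ = 2 * (14 * DC2 q) * (14 * DC2 q) := by ring
      _ ≤ _ := Nat.mul_le_mul (Nat.mul_le_mul_left _ h1) h1
  have h4 := Nat.mul_le_mul h3 (Nat.add_le_add_right h2 2)
  have e1 : 49 * (8 * DC2 q * (DC2 q - 1)) * (Nat.log 2 (q.choose 2) + 2) =
      49 * (8 * DC2 q * (DC2 q - 1) * (Nat.log 2 (q.choose 2) + 2)) := by ring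
  have e2 : 2 * ((8 * t + 39) * q ^ 2) * ((8 * t + 39) * q ^ 2) * (2 * t + 2) =
      4 * (t + 1) * (8 * t + 39) ^ 2 * q ^ 4 := by ring
  rw [e1, e2] at h4
  have e3 : 7 * (8 * t + 39) * q ^ 2 = 7 * ((8 * t + 39) * q ^ 2) := by ring
  rw [e3]
  omega

theorem num2_small : ∀ q ∈ Finset.Ico 64 128,
    8 * DC2 q * (DC2 q - 1) * (Nat.log 2 (q.choose 2) + 2) + 2 * DC2 q + 2 < q ^ 6 := by
  decide +kernel

theorem num2_pow16 (s : ℕ) : 4 * (s + 16 + 1) * (8 * (s + 16) + 39) ^ 2 + 98 ≤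
    49 * 2 ^ (s + 16) := by
  induction s with
  | zero => norm_num
  | succ s ih =>
    have e : 49 * 2 ^ (s + 1 + 16) = 2 * (49 * 2 ^ (s + 16)) := by ring
    rw [e]
    refine le_trans ?_ (Nat.mul_le_mul_left 2 ih)
    nlinarith [Nat.zero_le (s ^ 3), Nat.zero_le (s ^ 2)]

theorem num2_pow7 (s : ℕ) : 4 * (s + 7 + 1) * (8 * (s + 7) + 39) ^ 2 + 98 ≤
    49 * (2 ^ (s + 7)) ^ 2 := by
  induction s with
  | zero => norm_num
  | succ s ih =>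
    have e : 49 * (2 ^ (s + 1 + 7)) ^ 2 = 4 * (49 * (2 ^ (s + 7)) ^ 2) := by ring
    rw [e]
    refine le_trans ?_ (Nat.mul_le_mul_left 4 ih)
    nlinarith [Nat.zero_le (s ^ 3), Nat.zero_le (s ^ 2)]

theorem num2_fin (q t A : ℕ) (hA : 4 * (t + 1) * (8 * t + 39) ^ 2 + 98 ≤ 49 * A) (hq : 64 ≤ q)
    (ht : t ≤ q) :
    4 * (t + 1) * (8 * t + 39) ^ 2 * q ^ 4 + 7 * (8 * t + 39) * q ^ 2 + 98 < 49 * (A * q ^ 4) := by
  have h1 : (4 * (t + 1) * (8 * t + 39) ^ 2 + 98) * q ^ 4 ≤ 49 * A * q ^ 4 :=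
    Nat.mul_le_mul_right _ hA
  have h2 : 7 * (8 * t + 39) * q ^ 2 + 98 < 98 * q ^ 4 := by
    have h3 : 64 ^ 2 ≤ q ^ 2 := Nat.pow_le_pow_left hq 2
    have h4 : 7 * (8 * t + 39) ≤ 97 * q ^ 2 := by nlinarith
    have h5 : 7 * (8 * t + 39) * q ^ 2 ≤ 97 * q ^ 2 * q ^ 2 := Nat.mul_le_mul_right _ h4
    have h6 : 98 < q ^ 2 * q ^ 2 := by nlinarith
    have e : q ^ 4 = q ^ 2 * q ^ 2 := by ring
    rw [e]
    nlinarith
  have e1 : (4 * (t + 1) * (8 * t + 39) ^ 2 + 98) * q ^ 4 =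
    4 * (t + 1) * (8 * t + 39) ^ 2 * q ^ 4 + 98 * q ^ 4 := by ring
  have e2 : 49 * A * q ^ 4 = 49 * (A * q ^ 4) := by ring
  omega

theorem num_bound_six (q : ℕ) (hq : 64 ≤ q) :
    8 * DC2 q * (DC2 q - 1) * (Nat.log 2 (q.choose 2) + 2) + 2 * DC2 q + 2 < q ^ 6 := by
  rcases Nat.lt_or_ge q 128 with h | h
  · exact num2_small q (Finset.mem_Ico.2 ⟨hq, h⟩)
  · have h1 := num2_key q (by omega)
    have ht : 7 ≤ Nat.log 2 q := Nat.le_log_of_pow_le (by norm_num) (by norm_num; exact h)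
    have h3 : 2 ^ Nat.log 2 q ≤ q := Nat.pow_log_le_self 2 (by omega)
    have h4 := num2_pow7 (Nat.log 2 q - 7)
    rw [Nat.sub_add_cancel ht] at h4
    have h5 : 49 * (2 ^ Nat.log 2 q) ^ 2 ≤ 49 * q ^ 2 :=
      Nat.mul_le_mul_left _ (Nat.pow_le_pow_left h3 2)
    have h6 := num2_fin q (Nat.log 2 q) (q ^ 2) (h4.trans h5) hq (Nat.log_le_self 2 q)
    have e : q ^ 2 * q ^ 4 = q ^ 6 := by ring
    rw [e] at h6
    omega

theorem num_bound_five (q : ℕ) (hq : 2 ^ 16 ≤ q) :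
    8 * DC2 q * (DC2 q - 1) * (Nat.log 2 (q.choose 2) + 2) + 2 * DC2 q + 2 < q ^ 5 := by
  have hq' : 65536 ≤ q := by norm_num at hq; exact hq
  have h1 := num2_key q (by omega)
  have ht : 16 ≤ Nat.log 2 q := Nat.le_log_of_pow_le (by norm_num) hq
  have h3 : 2 ^ Nat.log 2 q ≤ q := Nat.pow_log_le_self 2 (by omega)
  have h4 := num2_pow16 (Nat.log 2 q - 16)
  rw [Nat.sub_add_cancel ht] at h4
  have h5 : 49 * 2 ^ Nat.log 2 q ≤ 49 * q := Nat.mul_le_mul_left _ h3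
  have h6 := num2_fin q (Nat.log 2 q) q (h4.trans h5) (by omega) (Nat.log_le_self 2 q)
  have e : q * q ^ 4 = q ^ 5 := by ring
  rw [e] at h6
  omega

end Pool.Agent.H9.Bry
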