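import Mathlib
import Pool.Agent.H9.Bry.COG
import Pool.Agent.H9.Bry.COL
import Pool.Agent.H9.Bry.FE
import Pool.Agent.H9.Bry.FE2
import Pool.Agent.H9.Bry.MAXF
import Pool.Agent.H9.Bry.DENS
import Pool.Agent.H9.Bry.NUM
import Pool.Agent.H9.Bry.NUM2
import Pool.Agent.H54.BryCore

set_option autoImplicit false

namespace Pool.Agent.H9.Bry

open Finset

open Pool.Agent.H54.Bry Matroid

section

variable {F : Type*} [Field F] [Fintype F]

theorem K4Free.image_of_injective {V W : Type*} [AddCommGroup V] [Module F V] [AddCommGroup W]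
    [Module F W] (π : V →ₗ[F] W) {X : Set V} (h : K4Free F X)
    (hπ : ∀ u ∈ Submodule.span F X, π u = 0 → u = 0) : K4Free F (π '' X) := by
  apply h.map π (Set.empty_subset _) (by simp)
  intro u hu h0
  rw [hπ u hu h0]
  exact Submodule.zero_mem _

theorem density_one {V : Type*} [AddCommGroup V] [Module F V] [Finite V]
    (X : Set V) (hK : K4Free F X) (hc : IsCone F X) :
    (X \ {0}).ncard ≤
      (Fintype.card F - 1) * DC (Fintype.card F) * Module.finrank F (Submodule.span F X) := by
  classical
  letI : Fintype V := Fintype.ofFinite V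
  refine density_of_good (DC (Fintype.card F)) (by unfold DC; omega) ?_ X hK hc
  intro X' hK' hc' hne'
  exact exists_good hK' hc' hne' _ (fun n f => fan_end hK' hc' f)

theorem density_two {V : Type*} [AddCommGroup V] [Module F V] [Finite V]
    (X : Set V) (hK : K4Free F X) (hc : IsCone F X) :
    (X \ {0}).ncard ≤
      (Fintype.card F - 1) * DC2 (Fintype.card F) * Module.finrank F (Submodule.span F X) := by
  classical
  letI : Fintype V := Fintype.ofFinite V
  refine density_of_good (DC2 (Fintype.card F)) (by unfold DC2; omega) ?_ X hK hc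
  intro X' hK' hc' hne'
  exact exists_good hK' hc' hne' _ (fun n f => fan_end_large hK' hc' f)

/-- critical exponent bound from a density bound -/
theorem pos_of_density {α : Type*} [Fintype α] (M : Matroid α) [M.Loopless]
    (hrep : RepresentableOver F M) (hK4 : ¬ HasMK4Minor M) (C K : ℕ) (hC : 1 ≤ C)
    (hD1 : ∀ (r : ℕ) (X : Set (Fin r → F)), K4Free F X → IsCone F X →
      (X \ {0}).ncard ≤ (Fintype.card F - 1) * C * Module.finrank F (Submodule.span F X))
    (hD2 : ∀ X : Set (α → F), K4Free F X → IsCone F X →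
      (X \ {0}).ncard ≤ (Fintype.card F - 1) * C * Module.finrank F (Submodule.span F X))
    (hnum : 8 * C * (C - 1) * (Nat.log 2 ((Fintype.card F).choose 2) + 2) + 2 * C + 2 <
      Fintype.card F ^ K) :
    0 < charPoly M ((Fintype.card F : ℤ) ^ K) := by
  classical
  obtain ⟨n, v0, hv0⟩ := hrep
  obtain ⟨r, v, b, hbE, hvb, hv, hspan, hr⟩ := exists_std (F := F) hv0 (span_basis_eq hv0)
  have h0 : ∀ x ∈ M.E, v x ≠ 0 := by
    intro x hx h
    have h1 : M.Indep {x} := (M.isNonloop_of_loopless hx).indep
    have h2 : LinearIndepOn F v {x} := (hv {x} (by simpa using hx)).1 h1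
    exact h2.ne_zero (Set.mem_singleton x) h
  obtain ⟨φ, hφ⟩ := exists_colouring v M.E K h0 (by
    intro E' hE' hne' hs'
    have hK' : ¬ HasMK4Minor (M ↾ E') := by
      rintro ⟨N, hN, hN4⟩
      have h1 : M ↾ E' ≤m M := by
        have h2 := contract_delete_isMinor M ∅ (M.E \ E')
        rwa [contract_empty, delete_compl hE'] at h2
      exact hK4 ⟨N, hN.trans h1, hN4⟩
    obtain ⟨ψ, h1, h2⟩ := cogirth_bound (M := M ↾ E') v (by
      intro I hI
      rw [Matroid.restrict_ground_eq] at hI
      rw [Matroid.restrict_indep_iff, ← hv I (hI.trans hE')]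
      exact ⟨fun h => h.1, fun h => ⟨h, hI⟩⟩) hK' (by simpa using hne')
      (fun x hx => h0 x (hE' hx)) (by simpa using hs') C hC hD1 hD2
    exact ⟨ψ, h1, lt_of_le_of_lt h2 hnum⟩)
  exact charPoly_pos M v hv hspan K φ hφ

/-- every loopless `GF(q)`-representable matroid without `M(K₄)`-minor has critical exponent at
most 7; at most 6 if `q ≥ 64`; at most 5 if `q ≥ 2 ^ 16` -/
theorem critExp_bounds {α : Type*} [Fintype α] (M : Matroid α) [M.Loopless]
    (hrep : RepresentableOver F M) (hK4 : ¬ HasMK4Minor M) :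
    critExp M (Fintype.card F) ≤ 7 ∧ (64 ≤ Fintype.card F → critExp M (Fintype.card F) ≤ 6) ∧
      (2 ^ 16 ≤ Fintype.card F → critExp M (Fintype.card F) ≤ 5) := by
  have hq : 2 ≤ Fintype.card F := Fintype.one_lt_card
  refine ⟨Nat.sInf_le ⟨by norm_num, ?_⟩, fun h => Nat.sInf_le ⟨by norm_num, ?_⟩,
    fun h => Nat.sInf_le ⟨by norm_num, ?_⟩⟩
  · exact pos_of_density M hrep hK4 (DC (Fintype.card F)) 7 (by unfold DC; omega)
      (fun r X => density_one X) (fun X => density_one X) (num_bound _ hq)
  · exact pos_of_density M hrep hK4 (DC2 (Fintype.card F)) 6 (by unfold DC2; omega)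
      (fun r X => density_two X) (fun X => density_two X) (num_bound_six _ h)
  · exact pos_of_density M hrep hK4 (DC2 (Fintype.card F)) 5 (by unfold DC2; omega)
      (fun r X => density_two X) (fun X => density_two X) (num_bound_five _ h)

end

end Pool.Agent.H9.Bry
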